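import Pool.Agent.Y120.NA

/-!
# The determinant estimate and the choice of points
-/

set_option autoImplicit false

open Finset Polynomial

namespace Pool.Agent.Y120

/-- `n (n - 1) / 2` is the least sum of `n` distinct naturals -/
theorem sum_distinct (s : Finset ℕ) : (#s : ℤ) * (#s - 1) ≤ 2 * ∑ i ∈ s, (i : ℤ) := by
  classical
  induction hn : #s generalizing s with
  | zero =>
    have : s = ∅ := Finset.card_eq_zero.1 hn
    simp [this]
  | succ n ih =>
    have hne : s.Nonempty := Finset.card_pos.1 (by omega)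
    set m := s.max' hne with hm
    have hmem : m ∈ s := s.max'_mem hne
    have h1 : #(s.erase m) = n := by rw [Finset.card_erase_of_mem hmem, hn]; rfl
    have h2 := ih (s.erase m) h1
    have h3 : ∑ i ∈ s, (i : ℤ) = m + ∑ i ∈ s.erase m, (i : ℤ) := by
      rw [Finset.add_sum_erase s (fun i : ℕ => (i : ℤ)) hmem]
    have h4 : n ≤ m := by
      have h5 : s ⊆ Finset.range (m + 1) := by
        intro i hi
        rw [Finset.mem_range]
        exact Nat.lt_succ_of_le (s.le_max' i hi)
      have := Finset.card_le_card h5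
      rw [hn, Finset.card_range] at this
      omega
    rw [h3]
    push_cast
    have h6 : (n : ℤ) ≤ m := by exact_mod_cast h4
    linarith

theorem sum_inj {N P : ℕ} {J : Type} [Fintype J] (r : Fin N → J × Fin P) (hr : Function.Injective r) :
    (N : ℤ) * (N - Fintype.card J) ≤ 2 * Fintype.card J * ∑ a, ((r a).2 : ℤ) := by
  classical
  -- fibers
  set Fb : J → Finset (Fin N) := fun ν => Finset.univ.filter fun a => (r a).1 = ν with hFb
  have hN : ∑ ν, #(Fb ν) = N := by
    rw [← Finset.card_eq_sum_card_fiberwise (s := (Finset.univ : Finset (Fin N))) (t := Finset.univ)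
      (f := fun a => (r a).1) (fun a _ => Finset.mem_coe.2 (Finset.mem_univ _))]
    simp
  have hfib : ∀ ν, (#(Fb ν) : ℤ) * (#(Fb ν) - 1) ≤ 2 * ∑ a ∈ Fb ν, ((r a).2 : ℤ) := by
    intro ν
    have hinj : Set.InjOn (fun a => ((r a).2 : ℕ)) (Fb ν) := by
      intro a ha b hb hab
      rw [Finset.mem_coe, hFb, Finset.mem_filter] at ha hb
      exact hr (Prod.ext (ha.2.trans hb.2.symm) (Fin.ext hab))
    have h1 := sum_distinct ((Fb ν).image fun a => ((r a).2 : ℕ))
    rw [Finset.card_image_of_injOn hinj, Finset.sum_image hinj] at h1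
    exact h1
  have hsum : ∑ a, ((r a).2 : ℤ) = ∑ ν, ∑ a ∈ Fb ν, ((r a).2 : ℤ) := by
    exact (Finset.sum_fiberwise Finset.univ (fun a => (r a).1) (fun a => ((r a).2 : ℤ))).symm
  have hCS : (N : ℤ) ^ 2 ≤ Fintype.card J * ∑ ν, (#(Fb ν) : ℤ) ^ 2 := by
    have h1 := sq_sum_le_card_mul_sum_sq (s := (Finset.univ : Finset J)) (f := fun ν => (#(Fb ν) : ℤ))
    have h2 : ∑ ν, (#(Fb ν) : ℤ) = N := by exact_mod_cast hN
    rwa [h2, Finset.card_univ] at h1
  have hN' : ∑ ν, (#(Fb ν) : ℤ) = N := by exact_mod_cast hN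
  have h5 : ∑ ν, (#(Fb ν) : ℤ) ^ 2 - N ≤ 2 * ∑ a, ((r a).2 : ℤ) := by
    rw [hsum, Finset.mul_sum, ← hN', ← Finset.sum_sub_distrib]
    refine Finset.sum_le_sum fun ν _ => ?_
    have := hfib ν
    nlinarith
  have h6 : (0 : ℤ) ≤ Fintype.card J := by positivity
  nlinarith

variable {K : Type} [Field K] {w : AbsoluteValue K ℝ}

/-- the determinant estimate: `S` is at most the least sum of the exponents -/
theorem det_bound (hw : IsNonarchimedean w) {ρ : ℝ} (hρ0 : 0 < ρ) (hρ : ρ < 1) {N : ℕ} {J : Type} [Fintype J]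
    (S : ℕ) (y : Fin N → J → K) (x : Fin N → K) (φ : Fin N → J → ℕ → K) (ε : Fin N → Fin N → K)
    (Y Φ : ℝ) (hY : 0 ≤ Y) (hΦ : 0 ≤ Φ) (hy : ∀ a ν, w (y a ν) ≤ Y) (hx : ∀ a, w (x a) ≤ ρ)
    (hφ : ∀ l ν p, w (φ l ν p) ≤ Φ) (hε : ∀ a l, w (ε a l) ≤ Y * Φ * ρ ^ S)
    (hS : 2 * (Fintype.card J : ℤ) * S ≤ N * (N - Fintype.card J)) (hJ : 0 < Fintype.card J) :
    w (Matrix.of fun a l => (∑ ν, ∑ p ∈ range S, y a ν * x a ^ p * φ l ν p) + ε a l).det ≤ (Y * Φ) ^ N * ρ ^ S := by
  classical
  rcases Nat.eq_zero_or_pos N with hN0 | hN0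
  · subst hN0
    have hS0 : S = 0 := by
      by_contra hne
      have h1 : 0 < (Fintype.card J : ℤ) := by exact_mod_cast hJ
      have h2 : 0 < (S : ℤ) := by exact_mod_cast Nat.pos_of_ne_zero hne
      have h3 : 0 < 2 * (Fintype.card J : ℤ) * S := by positivity
      simp at hS
      nlinarith
    subst hS0
    simp
  -- rows as sums
  set Rw : Fin N → Option (J × Fin S) → (Fin N → K) := fun a o => match o with
    | none => fun l => ε a l
    | some (ν, p) => fun l => y a ν * x a ^ (p : ℕ) * φ l ν p with hRw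
  have hrow : (Matrix.of fun a l => (∑ ν, ∑ p ∈ range S, y a ν * x a ^ p * φ l ν p) + ε a l) =
      Matrix.of (fun a => ∑ o, Rw a o) := by
    ext a l
    simp only [Matrix.of_apply]
    rw [Finset.sum_apply, Fintype.sum_option, Fintype.sum_prod_type]
    simp only [hRw]
    rw [add_comm]
    congr 1
    refine Finset.sum_congr rfl fun ν _ => ?_
    rw [Finset.sum_range]
  rw [hrow]
  have hexp : (Matrix.of (fun a => ∑ o, Rw a o)).det =
      ∑ r : Fin N → Option (J × Fin S), (Matrix.of fun a => Rw a (r a)).det := by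
    have := (Matrix.detRowAlternating (R := K) (n := Fin N)).toMultilinearMap.map_sum (fun a o => Rw a o)
    exact this
  rw [hexp]
  have hB0 : 0 ≤ (Y * Φ) ^ N * ρ ^ S := by positivity
  refine w_sum_le hw _ _ _ hB0 fun r _ => ?_
  by_cases hnone : ∃ a, r a = none
  · obtain ⟨a₀, ha₀⟩ := hnone
    have h1 := w_det_le hw (Matrix.of fun a => Rw a (r a)) (fun a => Y * Φ * (if a = a₀ then ρ ^ S else 1)) (by
      intro a l
      rw [Matrix.of_apply]
      rcases hra : r a with _ | ⟨ν, p⟩
      · simp only [hRw]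
        split_ifs with h
        · exact hε a l
        · calc w (ε a l) ≤ Y * Φ * ρ ^ S := hε a l
            _ ≤ Y * Φ * 1 := mul_le_mul_of_nonneg_left (pow_le_one₀ hρ0.le hρ.le) (by positivity)
      · have hne : a ≠ a₀ := by
          rintro rfl
          rw [ha₀] at hra
          exact absurd hra (by simp)
        rw [if_neg hne, mul_one]
        simp only [hRw]
        rw [map_mul, map_mul, map_pow]
        calc w (y a ν) * w (x a) ^ (p : ℕ) * w (φ l ν p) ≤ Y * 1 * Φ := by
              refine mul_le_mul (mul_le_mul (hy _ _) (pow_le_one₀ (w.nonneg _) ((hx a).trans hρ.le))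
                (pow_nonneg (w.nonneg _) _) hY) (hφ _ _ _) (w.nonneg _) (by positivity)
          _ = Y * Φ := by ring)
    refine h1.trans (le_of_eq ?_)
    rw [Finset.prod_mul_distrib, Finset.prod_const, Finset.card_univ, Fintype.card_fin, Finset.prod_ite_eq']
    simp
  · push Not at hnone
    have hsome : ∀ a, ∃ q : J × Fin S, r a = some q := fun a => Option.ne_none_iff_exists'.1 (hnone a)
    choose q hq using hsome
    have hdet : (Matrix.of fun a => Rw a (r a)).det =
        (∏ a, (y a (q a).1 * x a ^ ((q a).2 : ℕ))) * (Matrix.of fun a l => φ l (q a).1 (q a).2).det := by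
      rw [← Matrix.det_mul_column]
      congr 1
      ext a l
      simp only [Matrix.of_apply, hq, hRw]
    rw [hdet]
    by_cases hinj : Function.Injective q
    · have hsum := sum_inj q hinj
      have hSle : (S : ℤ) ≤ ∑ a, ((q a).2 : ℤ) := by
        have h1 : 2 * (Fintype.card J : ℤ) * S ≤ 2 * Fintype.card J * ∑ a, ((q a).2 : ℤ) := hS.trans hsum
        have h2 : 0 < 2 * (Fintype.card J : ℤ) := by
          have : 0 < (Fintype.card J : ℤ) := by exact_mod_cast hJ
          positivity
        exact le_of_mul_le_mul_left h1 h2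
      have hSle' : S ≤ ∑ a, ((q a).2 : ℕ) := by exact_mod_cast hSle
      rw [map_mul, map_prod]
      have h2 := w_det_le hw (Matrix.of fun a l => φ l (q a).1 (q a).2) (fun _ => Φ) (fun a l => hφ _ _ _)
      rw [Finset.prod_const, Finset.card_univ, Fintype.card_fin] at h2
      have h3 : ∏ a, w (y a (q a).1 * x a ^ ((q a).2 : ℕ)) ≤ ∏ a, (Y * ρ ^ ((q a).2 : ℕ)) := by
        refine Finset.prod_le_prod (fun _ _ => w.nonneg _) fun a _ => ?_
        rw [map_mul, map_pow]
        exact mul_le_mul (hy _ _) (pow_le_pow_left₀ (w.nonneg _) (hx a) _) (pow_nonneg (w.nonneg _) _) hY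
      rw [Finset.prod_mul_distrib, Finset.prod_const, Finset.card_univ, Fintype.card_fin,
        Finset.prod_pow_eq_pow_sum] at h3
      calc (∏ a, w (y a (q a).1 * x a ^ ((q a).2 : ℕ))) * w (Matrix.of fun a l => φ l (q a).1 (q a).2).det
          ≤ (Y ^ N * ρ ^ (∑ a, ((q a).2 : ℕ))) * Φ ^ N := mul_le_mul h3 h2 (w.nonneg _) (by positivity)
        _ ≤ (Y ^ N * ρ ^ S) * Φ ^ N := by
            refine mul_le_mul_of_nonneg_right (mul_le_mul_of_nonneg_left ?_ (by positivity)) (by positivity)
            exact pow_le_pow_of_le_one hρ0.le hρ.le hSle'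
        _ = (Y * Φ) ^ N * ρ ^ S := by rw [mul_pow]; ring
    · have hzero : (Matrix.of fun a l => φ l (q a).1 (q a).2).det = 0 := by
        obtain ⟨a, b, hab, hne⟩ : ∃ a b, q a = q b ∧ a ≠ b := by
          simpa [Function.Injective] using hinj
        refine Matrix.det_zero_of_row_eq hne ?_
        funext l
        simp only [Matrix.of_apply, hab]
      rw [hzero, mul_zero, map_zero]
      exact hB0

/-- functions which are linearly independent on `A`: there are points of `A` with a nonzero determinant -/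
theorem exists_points {N : ℕ} (A : Set ℕ) (f : Fin N → ℕ → K)
    (h : ∀ l : Fin N → K, (∀ k ∈ A, ∑ i, l i * f i k = 0) → l = 0) :
    ∃ pts : Fin N → ℕ, (∀ a, pts a ∈ A) ∧ (Matrix.of fun a l => f l (pts a)).det ≠ 0 := by
  classical
  set V : Set (Fin N → K) := (fun k => fun i => f i k) '' A with hV
  have hspan : Submodule.span K V = ⊤ := by
    by_contra hne
    obtain ⟨g, hg0, hg⟩ := Submodule.exists_le_ker_of_lt_top (Submodule.span K V) (lt_top_iff_ne_top.2 hne)
    apply hg0
    have hl : (fun i => g (Pi.single i 1)) = 0 := by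
      apply h
      intro k hk
      have h1 : g (fun i => f i k) = 0 := by
        have : (fun i => f i k) ∈ Submodule.span K V := Submodule.subset_span ⟨k, hk, rfl⟩
        exact hg this
      have h2 : (fun i => f i k) = ∑ i, f i k • (Pi.single i (1 : K) : Fin N → K) := by
        funext i
        simp [Finset.sum_apply, Pi.single_apply]
      rw [h2, map_sum] at h1
      rw [← h1]
      refine Finset.sum_congr rfl fun i _ => ?_
      rw [map_smul, smul_eq_mul, mul_comm]
    refine LinearMap.pi_ext' fun i => ?_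
    refine LinearMap.ext_ring ?_
    have := congrFun hl i
    simpa using this
  obtain ⟨b, hbV, hbspan, hbli⟩ := exists_linearIndependent K V
  rw [hspan] at hbspan
  set B : Module.Basis b K (Fin N → K) := Module.Basis.mk hbli (by
    rw [Subtype.range_coe_subtype, Set.ofPred_mem_eq, hbspan]) with hB
  have : Fintype b := FiniteDimensional.fintypeBasisIndex B
  have hcard : Fintype.card b = N := by
    have := Module.finrank_eq_card_basis B
    rw [Module.finrank_fin_fun] at this
    exact this.symm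
  set e : Fin N ≃ b := (Fintype.equivFinOfCardEq hcard).symm with he
  have hmem : ∀ a : Fin N, ∃ k ∈ A, (fun i => f i k) = (e a : Fin N → K) := fun a => hbV (e a).2
  choose pts hpts hpe using hmem
  refine ⟨pts, hpts, ?_⟩
  have hli : LinearIndependent K (fun a : Fin N => ((e a : b) : Fin N → K)) := hbli.comp e e.injective
  have h1 : (Matrix.of fun a l => f l (pts a)) = Matrix.of (fun a : Fin N => ((e a : b) : Fin N → K)) := by
    ext a l
    simp only [Matrix.of_apply]
    exact congrFun (hpe a) l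
  rw [h1]
  have h2 : IsUnit (Matrix.of (fun a : Fin N => ((e a : b) : Fin N → K))) :=
    Matrix.linearIndependent_rows_iff_isUnit.1 hli
  exact ((Matrix.isUnit_iff_isUnit_det _).1 h2).ne_zero

end Pool.Agent.Y120
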