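import Pool.Agent.Y120.Star

/-!
# Arithmetic: separation of points and lower bound for determinants
-/

set_option autoImplicit false

open Finset

namespace Pool.Agent.Y120

/-- the nonzero elements of `R ⊂ ℂ^(g+1)` have norm at least one -/
def NormRing {g : ℕ} (R : Subring (Fin (g + 1) → ℂ)) : Prop := ∀ x ∈ R, x ≠ 0 → 1 ≤ ∏ s, ‖x s‖

/-- quotients of two elements of `R` of size at most `T` -/
def Pt {g : ℕ} (R : Subring (Fin (g + 1) → ℂ)) (T : ℝ) (t : ℂ) : Prop :=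
  ∃ a ∈ R, ∃ b ∈ R, b 0 ≠ 0 ∧ (∀ s, ‖a s‖ ≤ T) ∧ (∀ s, ‖b s‖ ≤ T) ∧ t = a 0 / b 0

variable {g : ℕ} {R : Subring (Fin (g + 1) → ℂ)}

theorem low_zero (hR : NormRing R) {x : Fin (g + 1) → ℂ} (hx : x ∈ R) (hx0 : x ≠ 0) {H : ℝ}
    (hH : ∀ s, ‖x s‖ ≤ H) : 1 ≤ ‖x 0‖ * H ^ g := by
  have h1 := hR x hx hx0
  rw [Fin.prod_univ_succ] at h1
  have h2 : ∏ i : Fin g, ‖x i.succ‖ ≤ H ^ g := by
    calc ∏ i : Fin g, ‖x i.succ‖ ≤ ∏ _i : Fin g, H := Finset.prod_le_prod (fun _ _ => norm_nonneg _) fun i _ => hH _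
      _ = H ^ g := by simp
  exact h1.trans (mul_le_mul_of_nonneg_left h2 (norm_nonneg _))

theorem sep (hR : NormRing R) {T : ℝ} (hT : 1 ≤ T) {t t' : ℂ} (ht : Pt R T t) (ht' : Pt R T t') (hne : t ≠ t') :
    (2 ^ g)⁻¹ * (T ^ (2 * (g + 1)))⁻¹ ≤ ‖t - t'‖ := by
  obtain ⟨a, ha, b, hb, hb0, haT, hbT, rfl⟩ := ht
  obtain ⟨a', ha', b', hb', hb0', haT', hbT', rfl⟩ := ht'
  have hTp : 0 < T := by linarith
  set x : Fin (g + 1) → ℂ := a * b' - a' * b with hx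
  have hxR : x ∈ R := R.sub_mem (R.mul_mem ha hb') (R.mul_mem ha' hb)
  have hxe : a 0 / b 0 - a' 0 / b' 0 = x 0 / (b 0 * b' 0) := by
    simp only [hx, Pi.sub_apply, Pi.mul_apply]
    field_simp
  have hx0 : x ≠ 0 := by
    intro h
    apply hne
    rw [← sub_eq_zero, hxe, h]
    simp
  have hxH : ∀ s, ‖x s‖ ≤ 2 * T ^ 2 := by
    intro s
    simp only [hx, Pi.sub_apply, Pi.mul_apply]
    calc ‖a s * b' s - a' s * b s‖ ≤ ‖a s * b' s‖ + ‖a' s * b s‖ := norm_sub_le _ _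
      _ = ‖a s‖ * ‖b' s‖ + ‖a' s‖ * ‖b s‖ := by rw [norm_mul, norm_mul]
      _ ≤ T * T + T * T := add_le_add (mul_le_mul (haT s) (hbT' s) (norm_nonneg _) hTp.le)
          (mul_le_mul (haT' s) (hbT s) (norm_nonneg _) hTp.le)
      _ = 2 * T ^ 2 := by ring
  have h1 := low_zero hR hxR hx0 hxH
  rw [hxe, norm_div, norm_mul]
  have hb1 : 0 < ‖b 0‖ := norm_pos_iff.2 hb0
  have hb2 : 0 < ‖b' 0‖ := norm_pos_iff.2 hb0'
  rw [le_div_iff₀ (by positivity)]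
  have h2 : ‖b 0‖ * ‖b' 0‖ ≤ T ^ 2 := by
    rw [sq]
    exact mul_le_mul (hbT 0) (hbT' 0) (norm_nonneg _) hTp.le
  calc (2 ^ g)⁻¹ * (T ^ (2 * (g + 1)))⁻¹ * (‖b 0‖ * ‖b' 0‖) ≤ (2 ^ g)⁻¹ * (T ^ (2 * (g + 1)))⁻¹ * T ^ 2 :=
        mul_le_mul_of_nonneg_left h2 (by positivity)
    _ = ((2 * T ^ 2) ^ g)⁻¹ := by
        rw [mul_pow, ← pow_mul, mul_inv, show 2 * (g + 1) = 2 * g + 2 by ring, pow_add]
        field_simp
    _ = 1 * ((2 * T ^ 2) ^ g)⁻¹ := (one_mul _).symm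
    _ ≤ (‖x 0‖ * (2 * T ^ 2) ^ g) * ((2 * T ^ 2) ^ g)⁻¹ := mul_le_mul_of_nonneg_right h1 (by positivity)
    _ = ‖x 0‖ := by field_simp

theorem norm_det_le {N : ℕ} (M : Matrix (Fin N) (Fin N) ℂ) (x : ℝ) (h : ∀ i j, ‖M i j‖ ≤ x) :
    ‖M.det‖ ≤ N.factorial * x ^ N := by
  rw [Matrix.det_apply']
  calc ‖∑ σ : Equiv.Perm (Fin N), ((Equiv.Perm.sign σ : ℤ) : ℂ) * ∏ i, M (σ i) i‖
      ≤ ∑ σ : Equiv.Perm (Fin N), x ^ N := by
        refine norm_sum_le_of_le _ fun σ _ => ?_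
        rw [norm_mul, norm_prod]
        have h1 : ‖((Equiv.Perm.sign σ : ℤ) : ℂ)‖ = 1 := by
          rcases Int.units_eq_one_or (Equiv.Perm.sign σ) with h | h <;> simp [h]
        rw [h1, one_mul]
        calc ∏ i, ‖M (σ i) i‖ ≤ ∏ _i : Fin N, x := Finset.prod_le_prod (fun _ _ => norm_nonneg _) fun i _ => h _ _
          _ = x ^ N := by simp
    _ = N.factorial * x ^ N := by
        rw [Finset.sum_const, Finset.card_univ, Fintype.card_perm, Fintype.card_fin, nsmul_eq_mul]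

theorem map_cm {A B ι : Type} [Fintype ι] [CommRing A] [CommRing B] (f : A →+* B) (c : ι → A) (μ : ι → ℕ) :
    f (cm c μ) = cm (fun i => f (c i)) μ := by
  simp [cm, map_prod, map_pow]

theorem det_low (hR : NormRing R) {N : ℕ} {ι : Type} [Fintype ι] {T : ℝ} (hT : 1 ≤ T) (A D δ : ℕ)
    (a b : Fin N → (Fin (g + 1) → ℂ)) (ha : ∀ i, a i ∈ R) (hb : ∀ i, b i ∈ R) (hb0 : ∀ i, b i 0 ≠ 0)
    (haT : ∀ i s, ‖a i s‖ ≤ T) (hbT : ∀ i s, ‖b i s‖ ≤ T)
    (c : Fin N → ι → (Fin (g + 1) → ℂ)) (hc : ∀ i x, c i x ∈ R) (hcT : ∀ i x s, ‖c i x s‖ ≤ T ^ A)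
    (m : Fin N → ℕ × (ι → ℕ)) (hm1 : ∀ l, (m l).1 < D) (hm2 : ∀ l, ∑ x, (m l).2 x = δ)
    (hdet : (Matrix.of fun i l => (a i 0 / b i 0) ^ (m l).1 * cm (fun x => c i x 0) (m l).2).det ≠ 0) :
    ((N.factorial : ℝ) ^ g)⁻¹ * (T ^ (N * (g + 1) * (D + A * δ)))⁻¹ ≤
      ‖(Matrix.of fun i l => (a i 0 / b i 0) ^ (m l).1 * cm (fun x => c i x 0) (m l).2).det‖ := by
  classical
  have hTp : 0 < T := by linarith
  set M : Matrix (Fin N) (Fin N) R := Matrix.of fun i l =>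
    (⟨a i, ha i⟩ : R) ^ (m l).1 * (⟨b i, hb i⟩ : R) ^ (D - (m l).1) * cm (fun x => (⟨c i x, hc i x⟩ : R)) (m l).2
    with hM
  set ev : Fin (g + 1) → (R →+* ℂ) := fun s => (Pi.evalRingHom (fun _ : Fin (g + 1) => ℂ) s).comp R.subtype with hev
  have hMs : ∀ s, (M.det : Fin (g + 1) → ℂ) s = (Matrix.of fun i l =>
      (a i s) ^ (m l).1 * (b i s) ^ (D - (m l).1) * cm (fun x => c i x s) (m l).2).det := by
    intro s
    have h1 : (M.det : Fin (g + 1) → ℂ) s = ev s M.det := rfl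
    rw [h1, RingHom.map_det]
    congr 1
    ext i l
    simp only [RingHom.mapMatrix_apply, Matrix.map_apply, hM, Matrix.of_apply, map_mul, map_pow, map_cm]
    rfl
  have hbd : ∀ s, ‖(M.det : Fin (g + 1) → ℂ) s‖ ≤ N.factorial * (T ^ (D + A * δ)) ^ N := by
    intro s
    rw [hMs]
    refine norm_det_le _ _ fun i l => ?_
    rw [Matrix.of_apply, norm_mul, norm_mul, norm_pow, norm_pow, pow_add]
    have h1 : ‖a i s‖ ^ (m l).1 * ‖b i s‖ ^ (D - (m l).1) ≤ T ^ D := by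
      calc ‖a i s‖ ^ (m l).1 * ‖b i s‖ ^ (D - (m l).1) ≤ T ^ (m l).1 * T ^ (D - (m l).1) :=
            mul_le_mul (pow_le_pow_left₀ (norm_nonneg _) (haT i s) _) (pow_le_pow_left₀ (norm_nonneg _) (hbT i s) _)
              (pow_nonneg (norm_nonneg _) _) (by positivity)
        _ = T ^ D := by
            rw [← pow_add]
            congr 1
            have := hm1 l
            omega
    have h2 : ‖cm (fun x => c i x s) (m l).2‖ ≤ T ^ (A * δ) := by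
      rw [cm, norm_prod]
      calc ∏ x, ‖c i x s ^ (m l).2 x‖ ≤ ∏ x, (T ^ A) ^ (m l).2 x := by
            refine Finset.prod_le_prod (fun _ _ => norm_nonneg _) fun x _ => ?_
            rw [norm_pow]
            exact pow_le_pow_left₀ (norm_nonneg _) (hcT i x s) _
        _ = T ^ (A * δ) := by rw [Finset.prod_pow_eq_pow_sum, hm2, pow_mul]
    exact mul_le_mul h1 h2 (norm_nonneg _) (by positivity)
  have hM0 : (M.det : Fin (g + 1) → ℂ) 0 = (∏ i, b i 0 ^ D) *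
      (Matrix.of fun i l => (a i 0 / b i 0) ^ (m l).1 * cm (fun x => c i x 0) (m l).2).det := by
    rw [hMs, ← Matrix.det_mul_column]
    congr 1
    ext i l
    simp only [Matrix.of_apply]
    have h1 : b i 0 ^ D = b i 0 ^ (D - (m l).1) * b i 0 ^ (m l).1 := by
      rw [← pow_add]
      congr 1
      have := hm1 l
      omega
    rw [h1, div_pow]
    have := hb0 i
    field_simp
  have hMne : (M.det : Fin (g + 1) → ℂ) ≠ 0 := by
    intro h
    have h1 := congrFun h 0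
    rw [hM0] at h1
    rcases mul_eq_zero.1 h1 with h2 | h2
    · rw [Finset.prod_eq_zero_iff] at h2
      obtain ⟨i, _, hi⟩ := h2
      exact (pow_ne_zero D (hb0 i)) hi
    · exact hdet h2
  have h1 := low_zero hR M.det.2 hMne hbd
  rw [hM0, norm_mul] at h1
  set Z := ‖(Matrix.of fun i l => (a i 0 / b i 0) ^ (m l).1 * cm (fun x => c i x 0) (m l).2).det‖ with hZ
  have h2 : ‖∏ i, b i 0 ^ D‖ ≤ T ^ (N * D) := by
    rw [norm_prod]
    calc ∏ i, ‖b i 0 ^ D‖ ≤ ∏ _i : Fin N, T ^ D := by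
          refine Finset.prod_le_prod (fun _ _ => norm_nonneg _) fun i _ => ?_
          rw [norm_pow]
          exact pow_le_pow_left₀ (norm_nonneg _) (hbT i 0) _
      _ = T ^ (N * D) := by
          rw [Finset.prod_const, Finset.card_univ, Fintype.card_fin, ← pow_mul, mul_comm]
  have hZ0 : 0 ≤ Z := norm_nonneg _
  have hfac : (0 : ℝ) < N.factorial := by exact_mod_cast N.factorial_pos
  have h3 : 1 ≤ T ^ (N * D) * Z * ((N.factorial : ℝ) * (T ^ (D + A * δ)) ^ N) ^ g := by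
    refine h1.trans (mul_le_mul_of_nonneg_right (mul_le_mul_of_nonneg_right h2 hZ0) (by positivity))
  have h4 : T ^ (N * D) * Z * ((N.factorial : ℝ) * (T ^ (D + A * δ)) ^ N) ^ g ≤
      ((N.factorial : ℝ) ^ g * T ^ (N * (g + 1) * (D + A * δ))) * Z := by
    rw [mul_pow, ← pow_mul, ← pow_mul]
    have h5 : T ^ (N * D) * T ^ ((D + A * δ) * (N * g)) ≤ T ^ (N * (g + 1) * (D + A * δ)) := by
      rw [← pow_add]
      refine pow_le_pow_right₀ hT ?_
      have : N * (g + 1) * (D + A * δ) = N * D + (D + A * δ) * (N * g) + N * (A * δ) := by ring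
      omega
    calc T ^ (N * D) * Z * ((N.factorial : ℝ) ^ g * T ^ ((D + A * δ) * (N * g)))
        = (N.factorial : ℝ) ^ g * (T ^ (N * D) * T ^ ((D + A * δ) * (N * g))) * Z := by ring
      _ ≤ (N.factorial : ℝ) ^ g * T ^ (N * (g + 1) * (D + A * δ)) * Z := by
          refine mul_le_mul_of_nonneg_right (mul_le_mul_of_nonneg_left h5 (by positivity)) hZ0
  have h5 := h3.trans h4
  rw [← mul_inv]
  have h6 : 0 < (N.factorial : ℝ) ^ g * T ^ (N * (g + 1) * (D + A * δ)) := by positivity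
  rw [inv_le_iff_one_le_mul₀ h6]
  exact h5.trans (le_of_eq (mul_comm _ _))

end Pool.Agent.Y120
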