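import Pool.Agent.Y120.RealCh
import Pool.Agent.TH818.AP.Multi

/-!
# One rational variable: at most C T^ε exceptional points
-/

set_option autoImplicit false
set_option linter.unusedSectionVars false

open Set Filter Topology

namespace Pool.Agent.Y120

open Pool.Agent.TH818.AR Pool.Agent.TH818.AP

/-- the integers -/
def ZR : Subring (Fin (0 + 1) → ℂ) := (Int.castRingHom (Fin (0 + 1) → ℂ)).range

theorem ZR_mem {x : Fin (0 + 1) → ℂ} (hx : x ∈ ZR) : ∃ z : ℤ, ∀ i, x i = z := by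
  obtain ⟨z, hz⟩ := hx
  exact ⟨z, fun i => by rw [← hz]; simp⟩

theorem ZR_int (z : ℤ) : (fun _ => (z : ℂ)) ∈ ZR := ⟨z, by funext i; simp⟩

theorem ZR_norm : NormRing ZR := by
  intro x hx hx0
  obtain ⟨z, hz⟩ := ZR_mem hx
  have hz0 : z ≠ 0 := by
    rintro rfl
    apply hx0
    funext i
    rw [hz i]
    simp
  have h1 : (1 : ℝ) ≤ |(z : ℝ)| := by
    have := Int.one_le_abs hz0
    exact_mod_cast this
  simp only [hz]
  rw [Finset.prod_const, Finset.card_univ, Fintype.card_fin]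
  simpa using h1

section enc
variable {σ : Type} [Fintype σ] [DecidableEq σ] {d : ℕ}

/-- exponents -/
noncomputable def enc (e : σ → Fin (d + 1)) : σ →₀ ℕ := Finsupp.equivFunOnFinite.symm fun i => (e i : ℕ)

theorem enc_inj : Function.Injective (enc (σ := σ) (d := d)) := by
  intro e e' h
  funext i
  have := DFunLike.congr_fun h i
  exact Fin.ext (by simpa [enc] using this)

/-- the set of exponents -/
noncomputable def EE0 (σ : Type) [Fintype σ] [DecidableEq σ] (d : ℕ) : Finset (σ →₀ ℕ) :=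
  Finset.univ.image (enc (σ := σ) (d := d))

/-- the enumeration -/
noncomputable def encE (σ : Type) [Fintype σ] [DecidableEq σ] (d : ℕ) : (σ → Fin (d + 1)) ≃ EE0 σ d :=
  Equiv.ofBijective (fun e => ⟨enc e, Finset.mem_image_of_mem _ (Finset.mem_univ _)⟩)
    ⟨fun _ _ h => enc_inj (congrArg Subtype.val h), fun ⟨x, hx⟩ => by
      obtain ⟨e, _, he⟩ := Finset.mem_image.1 hx
      exact ⟨e, Subtype.ext he⟩⟩

theorem encE_val (e : σ → Fin (d + 1)) : ((encE σ d e : EE0 σ d) : σ →₀ ℕ) = enc e := rfl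

theorem mv_enc (v : σ → ℂ) (e : σ → Fin (d + 1)) : mv v (enc e) = ∏ i, v i ^ (e i : ℕ) := by
  rw [mv]
  have h1 : ∏ i ∈ (enc e).support, v i ^ (enc e) i = ∏ i, v i ^ (enc e) i := by
    refine Finset.prod_subset (Finset.subset_univ _) fun i _ hi => ?_
    rw [Finsupp.notMem_support_iff.1 hi, pow_zero]
  rw [h1]
  rfl

end enc

theorem cover_count {a b r : ℝ} (hab : a < b) (hr : 0 < r) (F : Finset ℚ) (hF : ∀ q ∈ F, (q : ℝ) ∈ Icc a b) (C : ℕ)
    (hC : ∀ τ ∈ Icc a b, (F.filter fun q : ℚ => |(q : ℝ) - τ| ≤ r).card ≤ C) :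
    (F.card : ℝ) ≤ C * ((b - a) / r + 1) := by
  classical
  have hmaps : ∀ q ∈ F, (fun q : ℚ => ⌊((q : ℝ) - a) / r⌋₊) q ∈ Finset.range (⌊(b - a) / r⌋₊ + 1) := by
    intro q hq
    rw [Finset.mem_range]
    refine Nat.lt_succ_of_le (Nat.floor_le_floor ?_)
    have := (hF q hq).2
    exact div_le_div_of_nonneg_right (by linarith) hr.le
  have h1 := Finset.card_le_mul_card_image_of_maps_to hmaps C (by
    intro k _
    rcases (F.filter fun q : ℚ => ⌊((q : ℝ) - a) / r⌋₊ = k).eq_empty_or_nonempty with hemp | ⟨q0, hq0⟩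
    · rw [hemp]; simp
    · have hq0' := Finset.mem_filter.1 hq0
      have hb0 : ∀ q ∈ F, ⌊((q : ℝ) - a) / r⌋₊ = k → a + k * r ≤ q ∧ |(q : ℝ) - (a + k * r)| ≤ r := by
        intro q hq hk
        have h2 : 0 ≤ ((q : ℝ) - a) / r := div_nonneg (by have := (hF q hq).1; linarith) hr.le
        have h3 := Nat.floor_le h2
        have h4 := Nat.lt_floor_add_one (((q : ℝ) - a) / r)
        rw [hk] at h3 h4
        rw [le_div_iff₀ hr] at h3
        rw [div_lt_iff₀ hr] at h4
        refine ⟨by linarith, ?_⟩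
        rw [abs_of_nonneg (by linarith)]
        linarith
      have hτ : a + k * r ∈ Icc a b := by
        refine ⟨by have : 0 ≤ (k : ℝ) * r := by positivity
                   linarith, ((hb0 q0 hq0'.1 hq0'.2).1).trans (hF q0 hq0'.1).2⟩
      refine (Finset.card_le_card ?_).trans (hC _ hτ)
      intro q hq
      rw [Finset.mem_filter] at hq ⊢
      exact ⟨hq.1, (hb0 q hq.1 hq.2).2⟩)
  rw [Finset.card_range] at h1
  have h2 : (F.card : ℝ) ≤ C * (⌊(b - a) / r⌋₊ + 1) := by exact_mod_cast h1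
  refine h2.trans (mul_le_mul_of_nonneg_left ?_ (by positivity))
  have := Nat.floor_le (show 0 ≤ (b - a) / r from div_nonneg (by linarith) hr.le)
  linarith

variable {σ : Type} [Fintype σ] [DecidableEq σ]

/-- the monomials with exponents at most `d` -/
noncomputable def gm (d : ℕ) (f : σ → ℝ → ℝ) (e : σ → Fin (d + 1)) (t : ℝ) : ℝ := ∏ i, f i t ^ (e i : ℕ)

/-- at most `C T^ε` exceptional points, uniformly in the constants -/
theorem uniform_eps (f : σ → ℝ → ℝ) (a b : ℝ) (hab : a < b) (han : ∀ i, AnalyticOnNhd ℝ (f i) (Icc a b))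
    (hf : AInd f a b) (h : Type) [Fintype h] (d : ℕ) (A ε : ℝ) (hε : 0 < ε) :
    ∃ κ : ℝ, ∀ B1 : ℝ, ∃ B C T2 : ℝ, 0 < C ∧ 1 ≤ T2 ∧ ∀ T : ℝ, T2 ≤ T → ∀ ξ : h → ℝ, (∀ e, |ξ e| ≤ T ^ B1) →
      ScaleMeas ξ κ B1 T → (ExcC (gm d f) a b A B T ξ).Finite ∧
        ((ExcC (gm d f) a b A B T ξ).ncard : ℝ) ≤ C * T ^ ε := by
  classical
  set Ch := realCharts f a b hab han hf with hCh
  set A₀ : ℕ := ⌈A⌉₊ with hA₀
  set M : ℝ := max (max |a| |b|) 1 with hM
  have hM1 : 1 ≤ M := le_max_right _ _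
  have hM0 : 0 < M := by linarith
  refine ⟨2 * A₀, fun B1 => ?_⟩
  set B₀ : ℕ := ⌈max B1 0⌉₊ + 1 with hB₀
  have hB1lt : B1 < B₀ := by
    have h1 : max B1 0 ≤ ⌈max B1 0⌉₊ := Nat.le_ceil _
    have h2 : B1 ≤ max B1 0 := le_max_left _ _
    rw [hB₀]
    push_cast
    linarith
  obtain ⟨B₂, C₂, T₀, hT₀2, hloc⟩ := local_thm (g := 0) (σ := σ) (S := h) Ch (EE0 σ d) ε hε A₀ B₀
  refine ⟨2 * B₂, C₂ * ((b - a) * M ^ ε + 1) + 1, max T₀ M, ?_, le_max_of_le_right hM1, ?_⟩
  · have : 0 ≤ (b - a) * M ^ ε := mul_nonneg (by linarith) (by positivity)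
    positivity
  intro T hT ξ hξ hmeas
  have hTT₀ : T₀ ≤ T := (le_max_left _ _).trans hT
  have hTM : M ≤ T := (le_max_right _ _).trans hT
  have hT2 : 2 ≤ T := hT₀2.trans hTT₀
  have hT1 : 1 ≤ T := by linarith
  have hTp : 0 < T := by linarith
  set T' : ℝ := M * T with hT'
  have hTT' : T ≤ T' := by rw [hT']; nlinarith
  have hT'p : 0 < T' := by positivity
  have hT'1 : 1 ≤ T' := hT1.trans hTT'
  have hT'T : T' ≤ T ^ 2 := by rw [hT', sq]; exact mul_le_mul_of_nonneg_right hTM hTp.le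
  have hgood : GoodC ZR T' A₀ B₀ (fun s => ((ξ s : ℝ) : ℂ)) := by
    intro c hc hc0 hcT
    choose z hz using fun s => ZR_mem (hc s)
    have h1 : (z : h → ℤ) ≠ 0 := by
      intro h0
      apply hc0
      funext s i
      rw [hz s i, h0]
      simp
    have h2 := hmeas z h1 (by
      intro s
      have h3 := hcT s 0
      rw [hz s 0, Complex.norm_intCast] at h3
      refine h3.trans ?_
      calc T' ^ A₀ ≤ (T ^ 2) ^ A₀ := pow_le_pow_left₀ hT'p.le hT'T _
        _ = T ^ ((2 : ℝ) * A₀) := by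
            rw [← pow_mul, ← Real.rpow_natCast]
            push_cast
            rfl)
    have h3 : ‖∑ s, ((ξ s : ℝ) : ℂ) * c s 0‖ = |∑ e, (z e : ℝ) * ξ e| := by
      have h4 : ∑ s, ((ξ s : ℝ) : ℂ) * c s 0 = ((∑ e, (z e : ℝ) * ξ e : ℝ) : ℂ) := by
        push_cast
        refine Finset.sum_congr rfl fun s _ => ?_
        rw [hz s 0, mul_comm]
      rw [h4, Complex.norm_real, Real.norm_eq_abs]
    rw [h3]
    refine lt_of_lt_of_le ?_ h2
    rw [Real.rpow_neg hTp.le]
    refine inv_strictAnti₀ (Real.rpow_pos_of_pos hTp _) ?_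
    calc T ^ B1 < T ^ (B₀ : ℝ) := Real.rpow_lt_rpow_of_exponent_lt (by linarith) hB1lt
      _ = T ^ B₀ := Real.rpow_natCast _ _
      _ ≤ T' ^ B₀ := pow_le_pow_left₀ hTp.le hTT' _
  have hκb : ∀ s, ‖((ξ s : ℝ) : ℂ)‖ ≤ T' ^ B₀ := by
    intro s
    rw [Complex.norm_real, Real.norm_eq_abs]
    calc |ξ s| ≤ T ^ B1 := hξ s
      _ ≤ T ^ (B₀ : ℝ) := Real.rpow_le_rpow_of_exponent_le hT1 hB1lt.le
      _ = T ^ B₀ := Real.rpow_natCast _ _
      _ ≤ T' ^ B₀ := pow_le_pow_left₀ hTp.le hTT' _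
  -- the exceptional set
  have hsub : ExcC (gm d f) a b A (2 * B₂) T ξ ⊆ (RT a b T : Finset ℚ) := by
    intro q hq
    rw [Finset.mem_coe]
    exact mem_RT.2 ⟨hq.1, hq.2.1⟩
  have hfin : (ExcC (gm d f) a b A (2 * B₂) T ξ).Finite := (Finset.finite_toSet _).subset hsub
  refine ⟨hfin, ?_⟩
  rw [Set.ncard_eq_toFinset_card _ hfin]
  set F := hfin.toFinset with hF
  have hFmem : ∀ q ∈ F, q ∈ ExcC (gm d f) a b A (2 * B₂) T ξ := fun q hq => hfin.mem_toFinset.1 hq
  have hrpos : 0 < T' ^ (-ε) := Real.rpow_pos_of_pos hT'p _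
  have hcount := cover_count hab hrpos F (fun q hq => (hFmem q hq).1) C₂ (by
    intro τ hτ
    have h1 := hloc T' (hTT₀.trans hTT') ZR ZR_norm _ hκb hgood ⟨τ, hτ⟩
      ((F.filter fun q : ℚ => |(q : ℝ) - τ| ≤ T' ^ (-ε)).image fun q : ℚ => (((q : ℝ) : ℂ))) (by
      intro t ht
      rw [Finset.mem_image] at ht
      obtain ⟨q, hq, rfl⟩ := ht
      rw [Finset.mem_filter] at hq
      obtain ⟨hqI, hqd, c, hc0, hcA, hcs⟩ := hFmem q hq.1
      refine ⟨⟨by simp, by simpa using hqI⟩, ?_, ?_, ?_⟩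
      · change ‖((q : ℝ) : ℂ) - ((τ : ℝ) : ℂ)‖ ≤ _
        rw [← Complex.ofReal_sub, Complex.norm_real, Real.norm_eq_abs]
        exact hq.2
      · refine ⟨fun _ => (q.num : ℂ), ZR_int _, fun _ => ((q.den : ℤ) : ℂ), ZR_int _, ?_, ?_, ?_, ?_⟩
        · have := q.den_ne_zero
          simp
        · intro s
          rw [Complex.norm_intCast]
          have h2 : (q.num : ℝ) = q * q.den := by
            have := Rat.mul_den_eq_num q
            exact_mod_cast this.symm
          rw [h2, abs_mul, Nat.abs_cast]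
          have h3 : |(q : ℝ)| ≤ M := (abs_le_max_abs_abs hqI.1 hqI.2).trans (le_max_left _ _)
          exact mul_le_mul h3 hqd (by positivity) hM0.le
        · intro s
          rw [Complex.norm_intCast]
          have h2 : |((q.den : ℤ) : ℝ)| = (q.den : ℝ) := by simp
          rw [h2]
          exact hqd.trans hTT'
        · have := Rat.num_div_den q
          have h3 : ((q : ℝ) : ℂ) = ((q : ℚ) : ℂ) := by simp
          rw [h3]
          conv_lhs => rw [← this]
          push_cast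
          rfl
      · refine ⟨fun x _ => ((c ((encE σ d).symm x.2, x.1) : ℤ) : ℂ), fun x => ZR_int _, ?_, ?_, ?_⟩
        · intro h0
          apply hc0
          funext l
          have := congrFun (congrFun h0 (l.2, encE σ d l.1)) 0
          simpa using this
        · intro x j
          rw [Complex.norm_intCast]
          refine (hcA _).trans ?_
          calc T ^ A ≤ T ^ (A₀ : ℝ) := Real.rpow_le_rpow_of_exponent_le hT1 (Nat.le_ceil _)
            _ = T ^ A₀ := Real.rpow_natCast _ _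
            _ ≤ T' ^ A₀ := pow_le_pow_left₀ hTp.le hTT' _
        · have h2 : ∑ e : EE0 σ d, (∑ s, ((ξ s : ℝ) : ℂ) * ((c ((encE σ d).symm e, s) : ℤ) : ℂ)) *
              mv (fun i => ((f i (((q : ℝ) : ℂ)).re : ℝ) : ℂ)) (e : σ →₀ ℕ) =
              ((∑ l, (c l : ℝ) * (ξ l.2 * gm d f l.1 q) : ℝ) : ℂ) := by
            simp only [Complex.ofReal_re]
            rw [← Equiv.sum_comp (encE σ d), Fintype.sum_prod_type]
            push_cast
            refine Finset.sum_congr rfl fun e _ => ?_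
            rw [encE_val, mv_enc, Finset.sum_mul]
            refine Finset.sum_congr rfl fun s _ => ?_
            simp only [Equiv.symm_apply_apply, gm]
            push_cast
            ring
          have h3 : ‖∑ e : EE0 σ d, (∑ s, ((ξ s : ℝ) : ℂ) * ((c ((encE σ d).symm e, s) : ℤ) : ℂ)) *
              mv (fun i => ((f i (((q : ℝ) : ℂ)).re : ℝ) : ℂ)) (e : σ →₀ ℕ)‖ ≤ (T' ^ B₂)⁻¹ := by
            rw [h2, Complex.norm_real, Real.norm_eq_abs]
            refine hcs.trans ?_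
            rw [Real.rpow_neg hTp.le]
            refine inv_anti₀ (pow_pos hT'p _) ?_
            calc T' ^ B₂ ≤ (T ^ 2) ^ B₂ := pow_le_pow_left₀ hT'p.le hT'T _
              _ = T ^ ((2 : ℝ) * B₂) := by
                  rw [← pow_mul, ← Real.rpow_natCast]
                  push_cast
                  rfl
          exact h3)
    rwa [Finset.card_image_of_injective] at h1
    intro q q' hqq
    have h2 : ((q : ℝ) : ℂ) = ((q' : ℝ) : ℂ) := hqq
    exact_mod_cast h2)
  refine hcount.trans ?_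
  have h5 : (b - a) / T' ^ (-ε) = (b - a) * M ^ ε * T ^ ε := by
    rw [Real.rpow_neg hT'p.le, div_inv_eq_mul, hT', Real.mul_rpow hM0.le hTp.le]
    ring
  rw [h5]
  have h6 : 1 ≤ T ^ ε := Real.one_le_rpow hT1 hε.le
  have h7 : (0 : ℝ) ≤ C₂ := by positivity
  have h8 : 0 ≤ (b - a) * M ^ ε := mul_nonneg (by linarith) (by positivity)
  have h9 : (C₂ : ℝ) * ((b - a) * M ^ ε * T ^ ε + 1) ≤ C₂ * ((b - a) * M ^ ε * T ^ ε + T ^ ε) :=
    mul_le_mul_of_nonneg_left (by linarith) h7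
  calc (C₂ : ℝ) * ((b - a) * M ^ ε * T ^ ε + 1) ≤ C₂ * ((b - a) * M ^ ε * T ^ ε + T ^ ε) := h9
    _ = C₂ * ((b - a) * M ^ ε + 1) * T ^ ε := by ring
    _ ≤ (C₂ * ((b - a) * M ^ ε + 1) + 1) * T ^ ε := by
        refine mul_le_mul_of_nonneg_right (by linarith) (by positivity)

end Pool.Agent.Y120
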