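import Pool.Agent.Y120.Loc
import Pool.Agent.Y120.RealUni

/-!
# Blocks: a calculus for families of numbers without small polynomial relations
-/

set_option autoImplicit false
set_option linter.unusedSectionVars false

open Finset

namespace Pool.Agent.Y120

variable {g : ℕ}

/-- no small value of a polynomial of degree at most `d` in each variable, with coefficients in `R` of size at most
`T^A` -/
def PG (R : Subring (Fin (g + 1) → ℂ)) (T : ℝ) (d A B : ℕ) {V : Type} [Fintype V] [DecidableEq V] (z : V → ℂ) : Prop :=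
  ∀ c : (V → Fin (d + 1)) → (Fin (g + 1) → ℂ), (∀ e, c e ∈ R) → c ≠ 0 → (∀ e s, ‖c e s‖ ≤ T ^ A) →
    (T ^ B)⁻¹ < ‖∑ e, c e 0 * ∏ v, z v ^ (e v : ℕ)‖

theorem PG_reindex {R : Subring (Fin (g + 1) → ℂ)} {T : ℝ} {d A B : ℕ} {V V' : Type} [Fintype V] [DecidableEq V]
    [Fintype V'] [DecidableEq V'] (f : V ≃ V') {z : V' → ℂ} (h : PG R T d A B z) :
    PG R T d A B (fun v => z (f v)) := by
  intro c hcR hc0 hcT
  set F : (V → Fin (d + 1)) ≃ (V' → Fin (d + 1)) := Equiv.arrowCongr f (Equiv.refl _) with hF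
  have h1 := h (fun e => c (F.symm e)) (fun e => hcR _) (by
    intro h0
    apply hc0
    funext e
    have := congrFun h0 (F e)
    simpa using this) (fun e s => hcT _ _)
  have h2 : ∑ e, c e 0 * ∏ v, z (f v) ^ (e v : ℕ) = ∑ e, c (F.symm e) 0 * ∏ v, z v ^ (e v : ℕ) := by
    rw [← Equiv.sum_comp F]
    refine Finset.sum_congr rfl fun e _ => ?_
    rw [Equiv.symm_apply_apply, ← Equiv.prod_comp f]
    simp [hF]
  rw [h2]
  exact h1

theorem PG_mono {R : Subring (Fin (g + 1) → ℂ)} {T : ℝ} (hT : 1 ≤ T) {d A B B' : ℕ} (hB : B ≤ B') {V : Type}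
    [Fintype V] [DecidableEq V] {z : V → ℂ} (h : PG R T d A B z) : PG R T d A B' z := by
  intro c hcR hc0 hcT
  refine lt_of_le_of_lt ?_ (h c hcR hc0 hcT)
  exact inv_anti₀ (pow_pos (by linarith) _) (pow_le_pow_right₀ hT hB)

open scoped Classical in
/-- blocks of dimension `D`: parameters `x ∈ Xs T`, points `y ∈ Ys T`, numbers `w x y` -/
def Blk (R : Subring (Fin (g + 1) → ℂ)) (N : ℝ → ℝ) {X Y W : Type} [Fintype W] [DecidableEq W] (Xs : ℝ → Set X)
    (Ys : ℝ → Finset Y) (D : ℕ) (w : X → Y → W → ℂ) : Prop :=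
  (∀ T, 1 ≤ T → ((Ys T).card : ℝ) ≤ N T ^ D) ∧
  (∃ M : ℝ, ∀ T, ∀ x ∈ Xs T, ∀ y ∈ Ys T, ∀ i, ‖w x y i‖ ≤ M) ∧
  ∀ (V : Type) [Fintype V] [DecidableEq V] (d A B' : ℕ) (ε : ℝ), 0 < ε → ∃ (B : ℕ) (C T₀ : ℝ), 0 ≤ C ∧ 1 ≤ T₀ ∧
    ∀ T, T₀ ≤ T → ∀ x ∈ Xs T, ∀ z : V → ℂ, (∀ v, ‖z v‖ ≤ T) → PG R T d A B' z →
      (#{y ∈ Ys T | ¬ PG R T d A B (Sum.elim z (w x y))} : ℝ) * N T ≤ C * T ^ ε * N T ^ D

section
variable {R : Subring (Fin (g + 1) → ℂ)} {N : ℝ → ℝ} {X Y W : Type} [Fintype W] [DecidableEq W]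

theorem Blk.comp {Y₁ Y₂ W₁ W₂ : Type} [Fintype W₁] [DecidableEq W₁] [Fintype W₂] [DecidableEq W₂]
    (hN : ∀ T, 1 ≤ T → 1 ≤ N T) {Xs : ℝ → Set X} {Ys₁ : ℝ → Finset Y₁} {Ys₂ : ℝ → Finset Y₂} {D₁ D₂ : ℕ}
    {w₁ : X → Y₁ → W₁ → ℂ} {w₂ : X × Y₁ → Y₂ → W₂ → ℂ} (h₁ : Blk R N Xs Ys₁ D₁ w₁)
    (h₂ : Blk R N (fun T => {p : X × Y₁ | p.1 ∈ Xs T ∧ p.2 ∈ Ys₁ T}) Ys₂ D₂ w₂) :
    Blk R N Xs (fun T => Ys₁ T ×ˢ Ys₂ T) (D₁ + D₂) (fun x y => Sum.elim (w₁ x y.1) (w₂ (x, y.1) y.2)) := by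
  classical
  obtain ⟨hc₁, ⟨M₁, hM₁⟩, hb₁⟩ := h₁
  obtain ⟨hc₂, ⟨M₂, hM₂⟩, hb₂⟩ := h₂
  refine ⟨?_, ⟨max M₁ M₂, ?_⟩, ?_⟩
  · intro T hT
    rw [Finset.card_product, pow_add]
    push_cast
    exact mul_le_mul (hc₁ T hT) (hc₂ T hT) (by positivity) (by have := hN T hT; positivity)
  · intro T x hx y hy i
    rw [Finset.mem_product] at hy
    rcases i with i | i
    · exact (hM₁ T x hx y.1 hy.1 i).trans (le_max_left _ _)
    · exact (hM₂ T (x, y.1) ⟨hx, hy.1⟩ y.2 hy.2 i).trans (le_max_right _ _)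
  · intro V _ _ d A B' ε hε
    obtain ⟨B₁, C₁, T₁, hC₁, hT₁, h₁⟩ := hb₁ V d A B' ε hε
    obtain ⟨B₂, C₂, T₂, hC₂, hT₂, h₂⟩ := hb₂ (V ⊕ W₁) d A B₁ ε hε
    refine ⟨B₂, C₁ + C₂, max (max T₁ T₂) M₁, by positivity, le_max_of_le_left (le_max_of_le_left hT₁), ?_⟩
    intro T hT x hx z hz hPG
    have hTT₁ : T₁ ≤ T := (le_max_left _ _).trans ((le_max_left _ _).trans hT)
    have hTT₂ : T₂ ≤ T := (le_max_right _ _).trans ((le_max_left _ _).trans hT)
    have hTM : M₁ ≤ T := (le_max_right _ _).trans hT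
    have hT1 : 1 ≤ T := hT₁.trans hTT₁
    have hTp : 0 < T := by linarith
    have hNT := hN T hT1
    have hN0 : 0 < N T := by linarith
    set bad := (Ys₁ T ×ˢ Ys₂ T).filter (fun y => ¬ PG R T d A B₂ (Sum.elim z (Sum.elim (w₁ x y.1) (w₂ (x, y.1) y.2))))
      with hbad
    set bad₁ := (Ys₁ T).filter (fun y => ¬ PG R T d A B₁ (Sum.elim z (w₁ x y))) with hbad₁
    set P1 := bad.filter (fun y => y.1 ∈ bad₁) with hP1
    set P2 := bad.filter (fun y => ¬ y.1 ∈ bad₁) with hP2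
    have hsplit : #(bad) = #P1 + #P2 := (Finset.card_filter_add_card_filter_not _).symm
    have hp1 : (#P1 : ℝ) * N T ≤ C₁ * T ^ ε * N T ^ (D₁ + D₂) := by
      have h3 : #P1 ≤ #(bad₁ ×ˢ Ys₂ T) := by
        refine Finset.card_le_card fun y hy => ?_
        rw [hP1, Finset.mem_filter, hbad, Finset.mem_filter, Finset.mem_product] at hy
        rw [Finset.mem_product]
        exact ⟨hy.2, hy.1.1.2⟩
      rw [Finset.card_product] at h3
      have h4 : (#P1 : ℝ) ≤ #(bad₁) * #(Ys₂ T) := by exact_mod_cast h3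
      calc (#P1 : ℝ) * N T ≤ (#(bad₁) * #(Ys₂ T)) * N T := mul_le_mul_of_nonneg_right h4 hN0.le
        _ = (#(bad₁) * N T) * #(Ys₂ T) := by ring
        _ ≤ (C₁ * T ^ ε * N T ^ D₁) * N T ^ D₂ :=
            mul_le_mul (h₁ T hTT₁ x hx z hz hPG) (hc₂ T hT1) (by positivity) (by positivity)
        _ = C₁ * T ^ ε * N T ^ (D₁ + D₂) := by rw [pow_add]; ring
    have hp2 : (#P2 : ℝ) * N T ≤ C₂ * T ^ ε * N T ^ (D₁ + D₂) := by
      have hmaps : Set.MapsTo (fun y : Y₁ × Y₂ => y.1) (P2 : Set (Y₁ × Y₂)) (Ys₁ T : Set Y₁) := by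
        intro y hy
        rw [Finset.mem_coe, hP2, Finset.mem_filter, hbad, Finset.mem_filter, Finset.mem_product] at hy
        exact hy.1.1.1
      have hfib := Finset.card_eq_sum_card_fiberwise (s := P2) (t := Ys₁ T) (f := fun y => y.1) hmaps
      have h3 : ∀ y₁ ∈ Ys₁ T, ((#(P2.filter fun y => y.1 = y₁) : ℕ) : ℝ) * N T ≤ C₂ * T ^ ε * N T ^ D₂ := by
        intro y₁ hy₁
        by_cases hgood : y₁ ∈ bad₁
        · have hemp : P2.filter (fun y => y.1 = y₁) = ∅ := by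
            rw [Finset.filter_eq_empty_iff]
            intro y hy h
            rw [hP2, Finset.mem_filter] at hy
            exact hy.2 (h ▸ hgood)
          rw [hemp]
          simp only [Finset.card_empty, Nat.cast_zero, zero_mul]
          positivity
        · have hPG₁ : PG R T d A B₁ (Sum.elim z (w₁ x y₁)) := by
            by_contra hcon
            exact hgood (by rw [hbad₁, Finset.mem_filter]; exact ⟨hy₁, hcon⟩)
          have h4 := h₂ T hTT₂ (x, y₁) ⟨hx, hy₁⟩ (Sum.elim z (w₁ x y₁)) (by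
            rintro (v | v)
            · exact hz v
            · exact (hM₁ T x hx y₁ hy₁ v).trans hTM) hPG₁
          refine le_trans (mul_le_mul_of_nonneg_right ?_ hN0.le) h4
          have h5 : #(P2.filter fun y => y.1 = y₁) ≤
              #{y ∈ Ys₂ T | ¬ PG R T d A B₂ (Sum.elim (Sum.elim z (w₁ x y₁)) (w₂ (x, y₁) y))} := by
            refine Finset.card_le_card_of_injOn (fun y => y.2) ?_ ?_
            · intro y hy
              rw [Finset.mem_coe, Finset.mem_filter, hP2, Finset.mem_filter, hbad, Finset.mem_filter,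
                Finset.mem_product] at hy
              rw [Finset.mem_coe, Finset.mem_filter]
              obtain ⟨⟨⟨hy1, hy2⟩, hy3⟩, rfl⟩ := hy
              refine ⟨hy1.2, fun hcon => hy2 ?_⟩
              have h6 := PG_reindex (Equiv.sumAssoc V W₁ W₂).symm hcon
              convert h6 using 1
              funext v
              rcases v with v | v | v <;> rfl
            · intro y hy y' hy' heq
              rw [Finset.mem_coe, Finset.mem_filter] at hy hy'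
              exact Prod.ext (hy.2.trans hy'.2.symm) heq
          exact_mod_cast h5
      have h6 : (#P2 : ℝ) * N T = ∑ y₁ ∈ Ys₁ T, ((#(P2.filter fun y => y.1 = y₁) : ℕ) : ℝ) * N T := by
        rw [← Finset.sum_mul]
        congr 1
        exact_mod_cast hfib
      rw [h6]
      calc ∑ y₁ ∈ Ys₁ T, ((#(P2.filter fun y => y.1 = y₁) : ℕ) : ℝ) * N T
          ≤ ∑ _y₁ ∈ Ys₁ T, C₂ * T ^ ε * N T ^ D₂ := Finset.sum_le_sum h3
        _ = #(Ys₁ T) * (C₂ * T ^ ε * N T ^ D₂) := by rw [Finset.sum_const, nsmul_eq_mul]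
        _ ≤ N T ^ D₁ * (C₂ * T ^ ε * N T ^ D₂) := mul_le_mul_of_nonneg_right (hc₁ T hT1) (by positivity)
        _ = C₂ * T ^ ε * N T ^ (D₁ + D₂) := by rw [pow_add]; ring
    have : (#(bad) : ℝ) = #P1 + #P2 := by exact_mod_cast hsplit
    rw [this, add_mul]
    calc (#P1 : ℝ) * N T + #P2 * N T ≤ C₁ * T ^ ε * N T ^ (D₁ + D₂) + C₂ * T ^ ε * N T ^ (D₁ + D₂) :=
          add_le_add hp1 hp2
      _ = (C₁ + C₂) * T ^ ε * N T ^ (D₁ + D₂) := by ring

theorem Blk.congr {Y' W' : Type} [Fintype W'] [DecidableEq W'] (hN : ∀ T, 1 ≤ T → 1 ≤ N T) {Xs : ℝ → Set X}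
    {Ys : ℝ → Finset Y} {D : ℕ} {w : X → Y → W → ℂ}
    (h : Blk R N Xs Ys D w) {Ys' : ℝ → Finset Y'} (φ : Y' → Y) (hφ : Function.Injective φ)
    (hYs : ∀ T, ∀ y ∈ Ys' T, φ y ∈ Ys T) (ψ : W ≃ W') (w' : X → Y' → W' → ℂ)
    (hw : ∀ T, ∀ x ∈ Xs T, ∀ y ∈ Ys' T, ∀ i, w' x y (ψ i) = w x (φ y) i) : Blk R N Xs Ys' D w' := by
  classical
  obtain ⟨hc, ⟨M, hM⟩, hb⟩ := h
  refine ⟨?_, ⟨M, ?_⟩, ?_⟩
  · intro T hT
    refine le_trans ?_ (hc T hT)
    exact_mod_cast Finset.card_le_card_of_injOn φ (fun y hy => hYs T y hy) hφ.injOn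
  · intro T x hx y hy i
    obtain ⟨j, rfl⟩ := ψ.surjective i
    rw [hw T x hx y hy]
    exact hM T x hx _ (hYs T y hy) _
  · intro V _ _ d A B' ε hε
    obtain ⟨B, C, T₀, hC, hT₀, hb'⟩ := hb V d A B' ε hε
    refine ⟨B, C, T₀, hC, hT₀, fun T hT x hx z hz hPG => le_trans ?_ (hb' T hT x hx z hz hPG)⟩
    refine mul_le_mul_of_nonneg_right ?_ (by have := hN T (hT₀.trans hT); linarith)
    have h5 : #{y ∈ Ys' T | ¬ PG R T d A B (Sum.elim z (w' x y))} ≤
        #{y ∈ Ys T | ¬ PG R T d A B (Sum.elim z (w x y))} := by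
      refine Finset.card_le_card_of_injOn φ ?_ hφ.injOn
      intro y hy
      rw [Finset.mem_coe, Finset.mem_filter] at hy ⊢
      refine ⟨hYs T y hy.1, fun hcon => hy.2 ?_⟩
      have h6 := PG_reindex (Equiv.sumCongr (Equiv.refl V) ψ.symm) hcon
      convert h6 using 1
      funext v
      rcases v with v | v
      · rfl
      · obtain ⟨j, rfl⟩ := ψ.surjective v
        simp [hw T x hx y hy.1]
    exact_mod_cast h5

/-- restriction of the parameters -/
theorem Blk.param {X' : Type} {Xs : ℝ → Set X} {Xs' : ℝ → Set X'} {Ys : ℝ → Finset Y} {D : ℕ} {w : X → Y → W → ℂ}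
    (h : Blk R N Xs Ys D w) (φ : X' → X) (hφ : ∀ T, ∀ x ∈ Xs' T, φ x ∈ Xs T) :
    Blk R N Xs' Ys D (fun x => w (φ x)) := by
  obtain ⟨hc, ⟨M, hM⟩, hb⟩ := h
  refine ⟨hc, ⟨M, fun T x hx => hM T _ (hφ T x hx)⟩, ?_⟩
  intro V _ _ d A B' ε hε
  obtain ⟨B, C, T₀, hC, hT₀, hb'⟩ := hb V d A B' ε hε
  exact ⟨B, C, T₀, hC, hT₀, fun T hT x hx => hb' T hT _ (hφ T x hx)⟩

/-- powers of a block -/
theorem Blk.pow (hN : ∀ T, 1 ≤ T → 1 ≤ N T) {Xs : ℝ → Set X} {Ys : ℝ → Finset Y} {D : ℕ} {w : X → Y → W → ℂ}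
    (h : Blk R N Xs Ys D w) (m : ℕ) :
    Blk R N Xs (fun T => Fintype.piFinset fun _ : Fin m => Ys T) (m * D)
      (fun x (y : Fin m → Y) (i : Fin m × W) => w x (y i.1) i.2) := by
  classical
  induction m with
  | zero =>
    refine ⟨?_, ⟨0, fun T x hx y hy i => i.1.elim0⟩, ?_⟩
    · intro T hT
      simp
    · intro V _ _ d A B' ε hε
      refine ⟨B', 0, 1, le_rfl, le_rfl, fun T hT x hx z hz hPG => ?_⟩
      have hemp : ((Fintype.piFinset fun _ : Fin 0 => Ys T).filter fun y => ¬ PG R T d A B'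
          (Sum.elim z fun i : Fin 0 × W => w x (y i.1) i.2)) = ∅ := by
        rw [Finset.filter_eq_empty_iff]
        intro y _ hcon
        apply hcon
        have h6 := PG_reindex (Equiv.sumEmpty V (Fin 0 × W)) hPG
        convert h6 using 1
        funext v
        rcases v with v | v
        · rfl
        · exact v.1.elim0
      rw [hemp]
      simp
  | succ m ih =>
    have h2 : Blk R N (fun T => {p : X × Y | p.1 ∈ Xs T ∧ p.2 ∈ Ys T})
        (fun T => Fintype.piFinset fun _ : Fin m => Ys T) (m * D)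
        (fun x (y : Fin m → Y) (i : Fin m × W) => w x.1 (y i.1) i.2) :=
      ih.param Prod.fst (fun T x hx => hx.1)
    have h3 := Blk.comp hN h h2
    have h4 : (m + 1) * D = D + m * D := by ring
    rw [h4]
    -- the index equivalence
    set ψ : (W ⊕ (Fin m × W)) ≃ (Fin (m + 1) × W) :=
      { toFun := fun v => Sum.elim (fun i => ((0 : Fin (m + 1)), i)) (fun p => (p.1.succ, p.2)) v
        invFun := fun p => Fin.cases (Sum.inl p.2) (fun j => Sum.inr (j, p.2)) p.1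
        left_inv := by rintro (i | ⟨j, i⟩) <;> rfl
        right_inv := by
          rintro ⟨j, i⟩
          refine Fin.cases ?_ (fun j => ?_) j <;> rfl } with hψ
    refine Blk.congr hN h3 (fun y : Fin (m + 1) → Y => (y 0, fun j : Fin m => y j.succ)) ?_ ?_ ψ _ ?_
    · intro y y' hyy
      simp only [Prod.mk.injEq] at hyy
      funext j
      refine Fin.cases hyy.1 (fun i => congrFun hyy.2 i) j
    · intro T y hy
      rw [Fintype.mem_piFinset] at hy
      rw [Finset.mem_product, Fintype.mem_piFinset]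
      exact ⟨hy 0, fun j => hy j.succ⟩
    · intro T x hx y hy i
      rcases i with i | ⟨j, i⟩ <;> rfl

end

/-- one point: from charts to blocks -/
theorem blk_of_charts {R : Subring (Fin (g + 1) → ℂ)} (hR : NormRing R) {N : ℝ → ℝ} (hN : ∀ T, 1 ≤ T → 1 ≤ N T)
    {σ : Type} [Fintype σ] [DecidableEq σ] (Ch : Charts σ) {X : Type}
    (Xs : Set X) (u : X → σ → ℂ → ℂ) (𝒞 : Set ℂ)
    (hcov : ∃ c : ℝ, 0 < c ∧ ∀ x ∈ Xs, ∀ r : ℝ, 0 < r → r ≤ 1 → ∃ F : Finset Ch.Θ, (#F : ℝ) ≤ c * (r ^ 2)⁻¹ ∧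
      ∀ t ∈ 𝒞, ∃ θ ∈ F, t ∈ Ch.dom θ ∧ ‖t - Ch.τ θ‖ ≤ r ∧ Ch.u θ = u x)
    {Y : Type} (pt : Y → ℂ) (hpt : Function.Injective pt) (Ys : ℝ → Finset Y)
    (hY : ∀ T, ∀ y ∈ Ys T, pt y ∈ 𝒞 ∧ Pt R T (pt y)) (hYN : ∀ T, 1 ≤ T → (#(Ys T) : ℝ) ≤ N T) :
    Blk R N (fun _ => Xs) Ys 1 (fun x y i => u x i (pt y)) := by
  classical
  obtain ⟨c, hc0, hcov⟩ := hcov
  refine ⟨fun T hT => by rw [pow_one]; exact hYN T hT, ?_, ?_⟩
  · choose Cb hCb using fun i : σ => Ch.approx (Finsupp.single (some i) 1) 0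
    refine ⟨∑ i, |Cb i|, fun T x hx y hy i => ?_⟩
    obtain ⟨F, -, hF⟩ := hcov x hx 1 one_pos le_rfl
    obtain ⟨θ, -, hθ1, -, hθ3⟩ := hF (pt y) (hY T y hy).1
    have h1 := hCb i θ (pt y) hθ1
    have h2 : ∀ z : Option σ → ℂ, mv z (Finsupp.single (some i) 1) = z (some i) := by
      intro z
      rw [mv, Finsupp.support_single (some i) one_ne_zero, Finset.prod_singleton]
      simp
    rw [h2] at h1
    simp only [Finset.range_zero, Finset.sum_empty, sub_zero, pow_zero, mul_one] at h1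
    have h3 : yv (fun i => Ch.u θ i (pt y)) (pt y) (some i) = u x i (pt y) := by
      rw [hθ3]
      rfl
    rw [h3] at h1
    refine h1.trans ((le_abs_self _).trans ?_)
    exact Finset.single_le_sum (f := fun i => |Cb i|) (fun _ _ => abs_nonneg _) (Finset.mem_univ i)
  · intro V _ _ d A B' ε hε
    set B'' := max B' (d * Fintype.card V) with hB''
    obtain ⟨B, C, T₀, hT₀, hloc⟩ := local_thm (g := g) (σ := σ) (S := V → Fin (d + 1)) Ch (EE0 σ d) (ε / 2)
      (by positivity) A B''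
    refine ⟨B, c * C, T₀, by positivity, by linarith, ?_⟩
    intro T hT x hx z hz hPG
    have hT2 : 2 ≤ T := hT₀.trans hT
    have hT1 : 1 ≤ T := by linarith
    have hTp : 0 < T := by linarith
    have hN1 := hN T hT1
    rw [pow_one]
    refine mul_le_mul_of_nonneg_right ?_ (by linarith)
    set κ : (V → Fin (d + 1)) → ℂ := fun e => ∏ v, z v ^ (e v : ℕ) with hκ
    have hκb : ∀ e, ‖κ e‖ ≤ T ^ B'' := by
      intro e
      rw [hκ]
      simp only
      rw [norm_prod]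
      calc ∏ v, ‖z v ^ (e v : ℕ)‖ ≤ ∏ _v : V, T ^ d := by
            refine Finset.prod_le_prod (fun _ _ => norm_nonneg _) fun v _ => ?_
            rw [norm_pow]
            calc ‖z v‖ ^ (e v : ℕ) ≤ T ^ (e v : ℕ) := pow_le_pow_left₀ (norm_nonneg _) (hz v) _
              _ ≤ T ^ d := pow_le_pow_right₀ hT1 (Nat.lt_succ_iff.1 (e v).2)
        _ = T ^ (d * Fintype.card V) := by rw [Finset.prod_const, Finset.card_univ, ← pow_mul]
        _ ≤ T ^ B'' := pow_le_pow_right₀ hT1 (le_max_right _ _)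
    have hgood : GoodC R T A B'' κ := by
      intro c' hc'R hc'0 hc'T
      have h1 := PG_mono hT1 (le_max_left B' (d * Fintype.card V)) hPG c' hc'R hc'0 hc'T
      have h2 : ∑ s, κ s * c' s 0 = ∑ e, c' e 0 * ∏ v, z v ^ (e v : ℕ) :=
        Finset.sum_congr rfl fun e _ => mul_comm _ _
      rw [h2]
      exact h1
    set r : ℝ := T ^ (-(ε / 2)) with hr
    have hr0 : 0 < r := Real.rpow_pos_of_pos hTp _
    have hr1 : r ≤ 1 := by
      rw [hr, Real.rpow_neg hTp.le]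
      exact inv_le_one_of_one_le₀ (Real.one_le_rpow hT1 (by positivity))
    obtain ⟨F, hFc, hF⟩ := hcov x hx r hr0 hr1
    set bad := (Ys T).filter fun y => ¬ PG R T d A B (Sum.elim z fun i => u x i (pt y)) with hbad
    -- every fibre
    have hfib : ∀ θ ∈ F, #(bad.filter fun y => pt y ∈ Ch.dom θ ∧ ‖pt y - Ch.τ θ‖ ≤ r ∧ Ch.u θ = u x) ≤ C := by
      intro θ _
      have h1 := hloc T hT R hR κ hκb hgood θ
        ((bad.filter fun y => pt y ∈ Ch.dom θ ∧ ‖pt y - Ch.τ θ‖ ≤ r ∧ Ch.u θ = u x).image pt) (by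
        intro t ht
        rw [Finset.mem_image] at ht
        obtain ⟨y, hy, rfl⟩ := ht
        rw [Finset.mem_filter, hbad, Finset.mem_filter] at hy
        obtain ⟨⟨hyY, hyb⟩, hy1, hy2, hy3⟩ := hy
        refine ⟨hy1, hy2, (hY T y hyY).2, ?_⟩
        unfold PG at hyb
        push Not at hyb
        obtain ⟨c', hc'R, hc'0, hc'T, hc's⟩ := hyb
        refine ⟨fun p => c' (Sum.elim p.1 ((encE σ d).symm p.2)), fun p => hc'R _, ?_, fun p s => hc'T _ _, ?_⟩
        · intro h0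
          apply hc'0
          funext e
          have := congrFun h0 (fun v => e (Sum.inl v), encE σ d (fun i => e (Sum.inr i)))
          simp only [Equiv.symm_apply_apply, Pi.zero_apply] at this
          rw [Pi.zero_apply, ← this]
          congr 1
          funext v
          rcases v with v | v <;> rfl
        · refine le_trans (le_of_eq ?_) hc's
          congr 1
          rw [← Equiv.sum_comp (encE σ d), ← Equiv.sum_comp (Equiv.sumArrowEquivProdArrow V σ (Fin (d + 1))).symm,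
            Fintype.sum_prod_type_right]
          refine Finset.sum_congr rfl fun e _ => ?_
          rw [encE_val, mv_enc, Finset.sum_mul]
          refine Finset.sum_congr rfl fun s _ => ?_
          beta_reduce
          rw [Equiv.symm_apply_apply, hy3, Fintype.prod_sum_type, hκ]
          simp only [Equiv.sumArrowEquivProdArrow, Equiv.coe_fn_symm_mk, Sum.elim_inl, Sum.elim_inr]
          ring)
      rwa [Finset.card_image_of_injective _ hpt] at h1
    have hcover : bad ⊆ F.biUnion fun θ => bad.filter fun y => pt y ∈ Ch.dom θ ∧ ‖pt y - Ch.τ θ‖ ≤ r ∧ Ch.u θ = u x := by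
      intro y hy
      have hyY : y ∈ Ys T := (Finset.mem_filter.1 hy).1
      obtain ⟨θ, hθF, hθ⟩ := hF (pt y) (hY T y hyY).1
      rw [Finset.mem_biUnion]
      exact ⟨θ, hθF, Finset.mem_filter.2 ⟨hy, hθ⟩⟩
    have h3 : #(bad) ≤ #F * C := (Finset.card_le_card hcover).trans (Finset.card_biUnion_le_card_mul _ _ _ hfib)
    calc (#(bad) : ℝ) ≤ #F * C := by exact_mod_cast h3
      _ ≤ (c * (r ^ 2)⁻¹) * C := mul_le_mul_of_nonneg_right hFc (by positivity)
      _ = c * C * T ^ ε := by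
          have h4 : (r ^ 2)⁻¹ = T ^ ε := by
            rw [hr, ← Real.rpow_natCast (T ^ (-(ε / 2))) 2, ← Real.rpow_mul hTp.le, ← Real.rpow_neg hTp.le]
            congr 1
            push_cast
            ring
          rw [h4]
          ring

end Pool.Agent.Y120
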