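import Mathlib

/-!
# The field of sequences of polynomial growth modulo superpolynomially small ones (Robinson's field)
-/

set_option autoImplicit false

open Filter Topology

namespace Pool.Agent.Y120

/-- a scale: an ultrafilter and a sequence tending to infinity -/
structure Scale where
  U : Ultrafilter ℕ
  T : ℕ → ℝ
  two_le : ∀ j, 2 ≤ T j
  tend : Tendsto T U atTop

variable (s : Scale)

theorem Scale.pos (j : ℕ) : 0 < s.T j := by have := s.two_le j; linarith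
theorem Scale.one_le (j : ℕ) : 1 ≤ s.T j := by have := s.two_le j; linarith
theorem Scale.logpos (j : ℕ) : 0 < Real.log (s.T j) := Real.log_pos (by have := s.two_le j; linarith)

/-- sequences of polynomial growth -/
def OO : Subring (ℕ → ℂ) where
  carrier := {x | ∃ n : ℕ, ∀ᶠ j in s.U, ‖x j‖ ≤ s.T j ^ n}
  mul_mem' := by
    rintro x y ⟨n, hn⟩ ⟨m, hm⟩
    refine ⟨n + m, ?_⟩
    filter_upwards [hn, hm] with j h1 h2
    rw [Pi.mul_apply, norm_mul, pow_add]
    exact mul_le_mul h1 h2 (norm_nonneg _) (pow_nonneg (s.pos j).le _)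
  one_mem' := ⟨0, Eventually.of_forall fun j => by simp⟩
  add_mem' := by
    rintro x y ⟨n, hn⟩ ⟨m, hm⟩
    refine ⟨max n m + 1, ?_⟩
    filter_upwards [hn, hm] with j h1 h2
    have h3 : s.T j ^ n ≤ s.T j ^ (max n m) := pow_le_pow_right₀ (s.one_le j) (le_max_left _ _)
    have h4 : s.T j ^ m ≤ s.T j ^ (max n m) := pow_le_pow_right₀ (s.one_le j) (le_max_right _ _)
    have h5 : 0 < s.T j ^ (max n m) := pow_pos (s.pos j) _
    calc ‖(x + y) j‖ ≤ ‖x j‖ + ‖y j‖ := norm_add_le _ _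
      _ ≤ s.T j ^ (max n m) * 2 := by linarith
      _ ≤ s.T j ^ (max n m) * s.T j := mul_le_mul_of_nonneg_left (s.two_le j) h5.le
      _ = s.T j ^ (max n m + 1) := (pow_succ _ _).symm
  zero_mem' := ⟨0, Eventually.of_forall fun j => by simp⟩
  neg_mem' := by
    rintro x ⟨n, hn⟩
    refine ⟨n, ?_⟩
    filter_upwards [hn] with j h1
    simpa using h1

/-- superpolynomially small sequences -/
def II : Ideal (OO s) where
  carrier := {x | ∀ n : ℕ, ∀ᶠ j in s.U, ‖x.1 j‖ ≤ (s.T j ^ n)⁻¹}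
  add_mem' := by
    intro x y hx hy n
    filter_upwards [hx (n + 1), hy (n + 1)] with j h1 h2
    have h5 : 0 < s.T j ^ n := pow_pos (s.pos j) _
    have h6 : 2 * (s.T j ^ (n + 1))⁻¹ ≤ (s.T j ^ n)⁻¹ := by
      rw [pow_succ, mul_inv]
      have h7 : (s.T j)⁻¹ ≤ 2⁻¹ := inv_anti₀ (by norm_num) (s.two_le j)
      calc 2 * ((s.T j ^ n)⁻¹ * (s.T j)⁻¹) = (s.T j ^ n)⁻¹ * (2 * (s.T j)⁻¹) := by ring
        _ ≤ (s.T j ^ n)⁻¹ * (2 * 2⁻¹) := by
            refine mul_le_mul_of_nonneg_left ?_ (inv_nonneg.2 h5.le)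
            exact mul_le_mul_of_nonneg_left h7 (by norm_num)
        _ = (s.T j ^ n)⁻¹ := by norm_num
    calc ‖(x + y).1 j‖ ≤ ‖x.1 j‖ + ‖y.1 j‖ := norm_add_le _ _
      _ ≤ (s.T j ^ n)⁻¹ := by linarith
  zero_mem' := by
    intro n
    refine Eventually.of_forall fun j => ?_
    simp only [ZeroMemClass.coe_zero, Pi.zero_apply, norm_zero]
    exact inv_nonneg.2 (pow_nonneg (s.pos j).le _)
  smul_mem' := by
    intro c x hx n
    obtain ⟨m, hm⟩ := c.2
    filter_upwards [hm, hx (n + m)] with j h1 h2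
    have h5 : 0 < s.T j ^ n := pow_pos (s.pos j) _
    have h6 : 0 < s.T j ^ m := pow_pos (s.pos j) _
    calc ‖(c • x).1 j‖ = ‖c.1 j‖ * ‖x.1 j‖ := norm_mul _ _
      _ ≤ s.T j ^ m * (s.T j ^ (n + m))⁻¹ := mul_le_mul h1 h2 (norm_nonneg _) h6.le
      _ = (s.T j ^ n)⁻¹ := by rw [pow_add, mul_inv]; field_simp

instance : (II s).IsMaximal := by
  rw [Ideal.isMaximal_iff]
  constructor
  · intro h
    have h1 := h 1
    obtain ⟨j, hj⟩ := h1.exists
    have h2 : (1 : ℝ) ≤ (s.T j ^ 1)⁻¹ := by simpa using hj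
    have h3 : (s.T j ^ 1)⁻¹ ≤ 2⁻¹ := by
      rw [pow_one]
      exact inv_anti₀ (by norm_num) (s.two_le j)
    have h4 : (1 : ℝ) ≤ 2⁻¹ := h2.trans h3
    norm_num at h4
  · intro J x hIJ hxI hxJ
    have h1 : ∃ n : ℕ, ∀ᶠ j in s.U, (s.T j ^ n)⁻¹ < ‖x.1 j‖ := by
      by_contra hcon
      push Not at hcon
      apply hxI
      exact hcon
    obtain ⟨n, hn⟩ := h1
    have hy : (fun j => (x.1 j)⁻¹) ∈ OO s := by
      refine ⟨n, ?_⟩
      filter_upwards [hn] with j hj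
      rw [norm_inv]
      have h5 : 0 < s.T j ^ n := pow_pos (s.pos j) _
      exact (inv_anti₀ (inv_pos.2 h5) hj.le).trans (by rw [inv_inv])
    have h2 : (⟨_, hy⟩ : OO s) * x ∈ J := J.mul_mem_left _ hxJ
    have h3 : (⟨_, hy⟩ : OO s) * x - 1 ∈ J := by
      apply hIJ
      intro m
      filter_upwards [hn] with j hj
      have h5 : 0 < s.T j ^ n := pow_pos (s.pos j) _
      have h6 : x.1 j ≠ 0 := by
        intro h0
        rw [h0, norm_zero] at hj
        exact absurd hj (not_lt.2 (inv_nonneg.2 h5.le))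
      have h7 : ((⟨_, hy⟩ : OO s) * x - 1 : OO s).1 j = (x.1 j)⁻¹ * x.1 j - 1 := rfl
      rw [h7, inv_mul_cancel₀ h6, sub_self, norm_zero]
      exact inv_nonneg.2 (pow_nonneg (s.pos j).le _)
    have h4 := J.sub_mem h2 h3
    rwa [sub_sub_cancel] at h4

/-- the field -/
abbrev KK : Type := OO s ⧸ II s

noncomputable instance : Field (KK s) := Ideal.Quotient.field _

/-- normalised size -/
noncomputable def nz (x : ℕ → ℂ) (j : ℕ) : ℝ := ‖x j‖ ^ (1 / Real.log (s.T j))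

theorem nz_nonneg (x : ℕ → ℂ) (j : ℕ) : 0 ≤ nz s x j := Real.rpow_nonneg (norm_nonneg _) _

theorem T_rpow (j : ℕ) : s.T j ^ (1 / Real.log (s.T j)) = Real.exp 1 := by
  rw [Real.rpow_def_of_pos (s.pos j)]
  congr 1
  have := (s.logpos j).ne'
  field_simp

theorem nz_le {x : ℕ → ℂ} {C a : ℝ} (hC : 0 < C) {j : ℕ} {b : ℝ} (hb : 0 ≤ b) (h : ‖x j‖ ≤ C * s.T j ^ a * b) :
    nz s x j ≤ C ^ (1 / Real.log (s.T j)) * Real.exp a * b ^ (1 / Real.log (s.T j)) := by
  have h1 : 0 ≤ 1 / Real.log (s.T j) := by have := s.logpos j; positivity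
  have h2 : (0 : ℝ) ≤ s.T j ^ a := (Real.rpow_pos_of_pos (s.pos j) _).le
  calc nz s x j ≤ (C * s.T j ^ a * b) ^ (1 / Real.log (s.T j)) := Real.rpow_le_rpow (norm_nonneg _) h h1
    _ = C ^ (1 / Real.log (s.T j)) * (s.T j ^ a) ^ (1 / Real.log (s.T j)) * b ^ (1 / Real.log (s.T j)) := by
        rw [Real.mul_rpow (by positivity) hb, Real.mul_rpow hC.le h2]
    _ = C ^ (1 / Real.log (s.T j)) * Real.exp a * b ^ (1 / Real.log (s.T j)) := by
        congr 2
        rw [← Real.rpow_mul (s.pos j).le, mul_comm a, Real.rpow_mul (s.pos j).le, T_rpow, ← Real.exp_mul, one_mul]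

theorem tend_const {C : ℝ} (hC : 0 < C) : Tendsto (fun j => C ^ (1 / Real.log (s.T j))) s.U (𝓝 1) := by
  have h1 : Tendsto (fun j => 1 / Real.log (s.T j)) s.U (𝓝 0) := by
    have h2 : Tendsto (fun j => Real.log (s.T j)) s.U atTop := Real.tendsto_log_atTop.comp s.tend
    simp only [one_div]
    exact h2.inv_tendsto_atTop
  have h3 := (Real.continuous_const_rpow hC.ne').tendsto 0
  rw [Real.rpow_zero] at h3
  exact h3.comp h1

theorem exists_lim {x : ℕ → ℂ} (hx : x ∈ OO s) : ∃ l : ℝ, Tendsto (nz s x) s.U (𝓝 l) := by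
  obtain ⟨n, hn⟩ := hx
  have h1 : ∀ᶠ j in s.U, nz s x j ∈ Set.Icc (0 : ℝ) (Real.exp n) := by
    filter_upwards [hn] with j hj
    refine ⟨nz_nonneg s x j, ?_⟩
    have h2 := nz_le s (x := x) (C := 1) (a := n) (b := 1) one_pos (j := j) zero_le_one (by
      rw [one_mul, mul_one, Real.rpow_natCast]
      exact hj)
    simpa using h2
  have h3 := isCompact_Icc (a := (0 : ℝ)) (b := Real.exp n) |>.ultrafilter_le_nhds (s.U.map (nz s x)) (by
    rw [le_principal_iff]
    exact h1)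
  obtain ⟨l, _, hl⟩ := h3
  exact ⟨l, hl⟩

/-- the size of a sequence -/
noncomputable def WW (x : ℕ → ℂ) : ℝ := limUnder (s.U : Filter ℕ) (nz s x)

theorem tend_WW {x : ℕ → ℂ} (hx : x ∈ OO s) : Tendsto (nz s x) s.U (𝓝 (WW s x)) := by
  obtain ⟨l, hl⟩ := exists_lim s hx
  exact tendsto_nhds_limUnder ⟨l, hl⟩

theorem WW_nonneg {x : ℕ → ℂ} (hx : x ∈ OO s) : 0 ≤ WW s x :=
  ge_of_tendsto (tend_WW s hx) (Eventually.of_forall fun j => nz_nonneg s x j)

theorem WW_mul {x y : ℕ → ℂ} (hx : x ∈ OO s) (hy : y ∈ OO s) : WW s (x * y) = WW s x * WW s y := by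
  have h1 := (tend_WW s hx).mul (tend_WW s hy)
  have h2 := tend_WW s ((OO s).mul_mem hx hy)
  refine tendsto_nhds_unique h2 (h1.congr fun j => ?_)
  rw [nz, nz, nz, ← Real.mul_rpow (norm_nonneg _) (norm_nonneg _), ← norm_mul]
  rfl

/-- comparison -/
theorem WW_le {x y : ℕ → ℂ} (hx : x ∈ OO s) (hy : y ∈ OO s) {C a : ℝ} (hC : 0 < C)
    (h : ∀ᶠ j in s.U, ‖x j‖ ≤ C * s.T j ^ a * ‖y j‖) : WW s x ≤ Real.exp a * WW s y := by
  have h1 := tend_WW s hx
  have h2 := ((tend_const s hC).mul_const (Real.exp a)).mul (tend_WW s hy)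
  rw [one_mul] at h2
  refine le_of_tendsto_of_tendsto h1 h2 ?_
  filter_upwards [h] with j hj
  exact nz_le s hC (norm_nonneg _) hj

theorem WW_one : WW s 1 = 1 := by
  have h2 := tend_WW s (OO s).one_mem
  refine tendsto_nhds_unique h2 (tendsto_const_nhds.congr fun j => ?_)
  simp [nz]

theorem WW_add {x y : ℕ → ℂ} (hx : x ∈ OO s) (hy : y ∈ OO s) : WW s (x + y) ≤ max (WW s x) (WW s y) := by
  have h1 := tend_WW s ((OO s).add_mem hx hy)
  have h2 := ((tend_const s (C := 2) (by norm_num))).mul ((tend_WW s hx).max (tend_WW s hy))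
  rw [one_mul] at h2
  refine le_of_tendsto_of_tendsto h1 h2 (Eventually.of_forall fun j => ?_)
  have h3 : 0 ≤ 1 / Real.log (s.T j) := by have := s.logpos j; positivity
  have h4 : ‖(x + y) j‖ ≤ 2 * max ‖x j‖ ‖y j‖ := by
    calc ‖(x + y) j‖ ≤ ‖x j‖ + ‖y j‖ := norm_add_le _ _
      _ ≤ 2 * max ‖x j‖ ‖y j‖ := by
        have := le_max_left ‖x j‖ ‖y j‖
        have := le_max_right ‖x j‖ ‖y j‖
        linarith
  calc nz s (x + y) j ≤ (2 * max ‖x j‖ ‖y j‖) ^ (1 / Real.log (s.T j)) := Real.rpow_le_rpow (norm_nonneg _) h4 h3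
    _ = 2 ^ (1 / Real.log (s.T j)) * (max ‖x j‖ ‖y j‖) ^ (1 / Real.log (s.T j)) :=
        Real.mul_rpow (by norm_num) (le_max_of_le_left (norm_nonneg _))
    _ = 2 ^ (1 / Real.log (s.T j)) * max (nz s x j) (nz s y j) := by
        congr 1
        rcases le_total ‖x j‖ ‖y j‖ with h | h
        · rw [max_eq_right h, max_eq_right]
          · rfl
          · exact Real.rpow_le_rpow (norm_nonneg _) h h3
        · rw [max_eq_left h, max_eq_left]
          · rfl
          · exact Real.rpow_le_rpow (norm_nonneg _) h h3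

theorem WW_eq_zero {x : OO s} : WW s x.1 = 0 ↔ x ∈ II s := by
  constructor
  · intro h n
    have h1 := tend_WW s x.2
    rw [h] at h1
    have h2 := h1.eventually (gt_mem_nhds (show (0 : ℝ) < Real.exp (-(n : ℝ)) from Real.exp_pos _))
    filter_upwards [h2] with j hj
    have h3 := s.logpos j
    have h4 : ‖x.1 j‖ = (nz s x.1 j) ^ (Real.log (s.T j)) := by
      rw [nz, ← Real.rpow_mul (norm_nonneg _)]
      have : 1 / Real.log (s.T j) * Real.log (s.T j) = 1 := by field_simp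
      rw [this, Real.rpow_one]
    rw [h4]
    calc (nz s x.1 j) ^ (Real.log (s.T j)) ≤ (Real.exp (-(n : ℝ))) ^ (Real.log (s.T j)) :=
          Real.rpow_le_rpow (nz_nonneg s _ _) hj.le h3.le
      _ = (s.T j ^ n)⁻¹ := by
          rw [← Real.exp_mul, ← Real.rpow_natCast, ← Real.rpow_neg (s.pos j).le, Real.rpow_def_of_pos (s.pos j)]
          congr 1
          ring
  · intro h
    by_contra hne
    have hpos : 0 < WW s x.1 := lt_of_le_of_ne (WW_nonneg s x.2) (Ne.symm hne)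
    -- choose n with exp (-n) < WW
    obtain ⟨n, hn⟩ := exists_nat_gt (-Real.log (WW s x.1))
    have h1 : WW s x.1 ≤ Real.exp (-(n : ℝ)) * WW s 1 := by
      refine WW_le s x.2 (OO s).one_mem (C := 1) one_pos ?_
      filter_upwards [h n] with j hj
      rw [one_mul, Pi.one_apply, norm_one, mul_one, Real.rpow_neg (s.pos j).le, Real.rpow_natCast]
      exact hj
    rw [WW_one, mul_one] at h1
    have h2 : Real.exp (-(n : ℝ)) < WW s x.1 := by
      rw [← Real.lt_log_iff_exp_lt hpos]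
      linarith
    linarith

/-- the quotient map -/
def pr : OO s →+* KK s := Ideal.Quotient.mk (II s)

theorem WW_congr {x y : OO s} (h : pr s x = pr s y) : WW s x.1 = WW s y.1 := by
  have h1 : x - y ∈ II s := Ideal.Quotient.eq.1 h
  have h2 := (WW_eq_zero s).2 h1
  have h1' : y - x ∈ II s := Ideal.Quotient.eq.1 h.symm
  have h2' := (WW_eq_zero s).2 h1'
  refine le_antisymm ?_ ?_
  · have h3 := WW_add s y.2 (x - y).2
    rw [h2, max_eq_left (WW_nonneg s y.2)] at h3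
    have h4 : y.1 + (x - y).1 = x.1 := by
      change y.1 + (x.1 - y.1) = x.1
      ring
    rwa [h4] at h3
  · have h3 := WW_add s x.2 (y - x).2
    rw [h2', max_eq_left (WW_nonneg s x.2)] at h3
    have h4 : x.1 + (y - x).1 = y.1 := by
      change x.1 + (y.1 - x.1) = y.1
      ring
    rwa [h4] at h3

theorem pr_surj : Function.Surjective (pr s) := Ideal.Quotient.mk_surjective

/-- the size on the quotient -/
noncomputable def wf (z : KK s) : ℝ := WW s (Classical.choose (pr_surj s z)).1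

theorem wf_pr (x : OO s) : wf s (pr s x) = WW s x.1 :=
  WW_congr s (Classical.choose_spec (pr_surj s (pr s x)))

/-- the absolute value -/
noncomputable def wK : AbsoluteValue (KK s) ℝ where
  toFun := wf s
  map_mul' := by
    intro z z'
    obtain ⟨x, rfl⟩ := pr_surj s z
    obtain ⟨y, rfl⟩ := pr_surj s z'
    rw [← map_mul, wf_pr, wf_pr, wf_pr]
    exact WW_mul s x.2 y.2
  nonneg' := by
    intro z
    obtain ⟨x, rfl⟩ := pr_surj s z
    rw [wf_pr]
    exact WW_nonneg s x.2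
  eq_zero' := by
    intro z
    obtain ⟨x, rfl⟩ := pr_surj s z
    rw [wf_pr, WW_eq_zero]
    exact Ideal.Quotient.eq_zero_iff_mem.symm
  add_le' := by
    intro z z'
    obtain ⟨x, rfl⟩ := pr_surj s z
    obtain ⟨y, rfl⟩ := pr_surj s z'
    rw [← map_add, wf_pr, wf_pr, wf_pr]
    have h1 := WW_add s x.2 y.2
    have h2 := WW_nonneg s x.2
    have h3 := WW_nonneg s y.2
    refine h1.trans (max_le ?_ ?_) <;> linarith

theorem wK_pr (x : OO s) : wK s (pr s x) = WW s x.1 := wf_pr s x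

theorem wK_na : IsNonarchimedean (wK s) := by
  intro z z'
  obtain ⟨x, rfl⟩ := pr_surj s z
  obtain ⟨y, rfl⟩ := pr_surj s z'
  rw [← map_add, wK_pr, wK_pr, wK_pr]
  exact WW_add s x.2 y.2

theorem wK_le {x y : OO s} {C a : ℝ} (hC : 0 < C)
    (h : ∀ᶠ j in s.U, ‖x.1 j‖ ≤ C * s.T j ^ a * ‖y.1 j‖) : wK s (pr s x) ≤ Real.exp a * wK s (pr s y) := by
  rw [wK_pr, wK_pr]
  exact WW_le s x.2 y.2 hC h

theorem wK_le_exp {x : OO s} {C a : ℝ} (hC : 0 < C)
    (h : ∀ᶠ j in s.U, ‖x.1 j‖ ≤ C * s.T j ^ a) : wK s (pr s x) ≤ Real.exp a := by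
  have h1 := wK_le s (x := x) (y := 1) (a := a) hC (by
    filter_upwards [h] with j hj
    have : ((1 : OO s) : ℕ → ℂ) j = 1 := rfl
    rw [this, norm_one, mul_one]
    exact hj)
  rwa [map_one, map_one, mul_one] at h1

theorem wK_ge_exp {x : OO s} {C a : ℝ} (hC : 0 < C)
    (h : ∀ᶠ j in s.U, C * s.T j ^ a ≤ ‖x.1 j‖) : Real.exp a ≤ wK s (pr s x) := by
  have h1 := wK_le s (x := 1) (y := x) (a := -a) (C := C⁻¹) (inv_pos.2 hC) (by
    filter_upwards [h] with j hj
    have : ((1 : OO s) : ℕ → ℂ) j = 1 := rfl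
    have h5 : 0 < s.T j ^ a := Real.rpow_pos_of_pos (s.pos j) a
    rw [this, norm_one, Real.rpow_neg (s.pos j).le]
    calc (1 : ℝ) = C⁻¹ * (s.T j ^ a)⁻¹ * (C * s.T j ^ a) := by field_simp
      _ ≤ C⁻¹ * (s.T j ^ a)⁻¹ * ‖x.1 j‖ := mul_le_mul_of_nonneg_left hj (by positivity))
  rw [map_one, map_one, Real.exp_neg] at h1
  have h2 := Real.exp_pos a
  calc Real.exp a = Real.exp a * 1 := (mul_one _).symm
    _ ≤ Real.exp a * ((Real.exp a)⁻¹ * wK s (pr s x)) := mul_le_mul_of_nonneg_left h1 h2.le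
    _ = wK s (pr s x) := by field_simp

theorem pr_eq_zero {x : OO s} : pr s x = 0 ↔ ∀ n : ℕ, ∀ᶠ j in s.U, ‖x.1 j‖ ≤ (s.T j ^ n)⁻¹ :=
  Ideal.Quotient.eq_zero_iff_mem

/-- evaluation at an index -/
def evj (j : ℕ) : OO s →+* ℂ := (Pi.evalRingHom (fun _ : ℕ => ℂ) j).comp (OO s).subtype

theorem evj_apply (j : ℕ) (x : OO s) : evj s j x = x.1 j := rfl

end Pool.Agent.Y120
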