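import Mathlib

/-!
# Non-archimedean lemmas: sums, determinants, approximate zeros of polynomials
-/

set_option autoImplicit false

open Finset Polynomial

namespace Pool.Agent.Y120

variable {K : Type} [Field K] {w : AbsoluteValue K ℝ}

theorem w_sum_le (hw : IsNonarchimedean w) {J : Type*} (s : Finset J) (f : J → K) (M : ℝ) (hM : 0 ≤ M)
    (h : ∀ i ∈ s, w (f i) ≤ M) : w (∑ i ∈ s, f i) ≤ M := by
  classical
  induction s using Finset.induction_on with
  | empty => simpa using hM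
  | insert a s ha ih =>
    rw [Finset.sum_insert ha]
    refine (hw _ _).trans (max_le (h a (Finset.mem_insert_self a s)) (ih fun i hi => h i (Finset.mem_insert_of_mem hi)))

theorem w_neg (x : K) : w (-x) = w x := AbsoluteValue.map_neg w x

theorem w_sub_le (hw : IsNonarchimedean w) (x y : K) : w (x - y) ≤ max (w x) (w y) := by
  rw [sub_eq_add_neg]
  exact (hw _ _).trans (by rw [w_neg])

theorem w_add_ge (hw : IsNonarchimedean w) {x y : K} (h : w y < w x) : w x ≤ w (x + y) := by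
  have h1 : w x ≤ max (w (x + y)) (w y) := by
    have := w_sub_le hw (x + y) y
    rwa [add_sub_cancel_right] at this
  rcases le_max_iff.1 h1 with h2 | h2
  · exact h2
  · exact absurd h2 (not_le.2 h)

theorem w_det_le (hw : IsNonarchimedean w) {N : ℕ} (A : Matrix (Fin N) (Fin N) K) (R : Fin N → ℝ)
    (hR : ∀ a l, w (A a l) ≤ R a) : w A.det ≤ ∏ a, R a := by
  rw [Matrix.det_apply']
  have hR0 : ∀ a, 0 ≤ R a := fun a => (w.nonneg _).trans (hR a a)
  refine w_sum_le hw _ _ _ (Finset.prod_nonneg fun a _ => hR0 a) fun σ _ => ?_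
  rw [map_mul, map_prod]
  have h1 : w ((Equiv.Perm.sign σ : ℤ) : K) = 1 := by
    rcases Int.units_eq_one_or (Equiv.Perm.sign σ) with h | h <;> simp [h]
  rw [h1, one_mul, ← Equiv.prod_comp σ R]
  exact Finset.prod_le_prod (fun i _ => w.nonneg _) fun i _ => hR _ _

theorem w_eval_le (hw : IsNonarchimedean w) {ρ : ℝ} (hρ1 : ρ ≤ 1) (P : K[X]) (M : ℝ) (hM : 0 ≤ M)
    (hP : ∀ i, w (P.coeff i) ≤ M) (x : K) (hx : w x ≤ ρ) : w (P.eval x) ≤ M := by
  rw [Polynomial.eval_eq_sum_range]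
  refine w_sum_le hw _ _ _ hM fun i _ => ?_
  rw [map_mul, map_pow]
  calc w (P.coeff i) * w x ^ i ≤ M * 1 := by
        refine mul_le_mul (hP i) (pow_le_one₀ (w.nonneg _) (hx.trans hρ1)) (pow_nonneg (w.nonneg _) _) hM
    _ = M := mul_one M

/-- a polynomial with a large coefficient of index at most `N` has at most `N` approximate zeros -/
theorem zeros (hw : IsNonarchimedean w) {ρ s : ℝ} (hρ0 : 0 ≤ ρ) (hρ : ρ < 1) (hs0 : 0 < s) (hs1 : s ≤ 1) :
    ∀ (N : ℕ) (P : K[X]) (M : ℝ), 0 < M → (∀ i, w (P.coeff i) ≤ M) → ∀ p₀ ≤ N, M ≤ w (P.coeff p₀) →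
    ∀ x : ℕ → K, (∀ k ≤ N, w (x k) ≤ ρ) → (∀ k ≤ N, ∀ l ≤ N, k ≠ l → s ≤ w (x k - x l)) →
    ∃ k ≤ N, M * s ^ N ≤ w (P.eval (x k)) := by
  intro N
  -- the case of a large constant coefficient
  have h0 : ∀ (P : K[X]) (M : ℝ), 0 < M → (∀ i, w (P.coeff i) ≤ M) → M ≤ w (P.coeff 0) →
      ∀ x : K, w x ≤ ρ → M ≤ w (P.eval x) := by
    intro P M hM hP h x hx
    have h1 : P.eval x = P.coeff 0 + P.divX.eval x * x := by
      conv_lhs => rw [← Polynomial.divX_mul_X_add P]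
      simp [add_comm]
    rw [h1]
    refine h.trans (w_add_ge hw ?_)
    rw [map_mul]
    have h2 : w (P.divX.eval x) ≤ M := w_eval_le hw hρ.le _ M hM.le (fun i => by
      rw [Polynomial.coeff_divX]
      exact hP _) x hx
    calc w (P.divX.eval x) * w x ≤ M * ρ := mul_le_mul h2 hx (w.nonneg _) hM.le
      _ < M * 1 := by nlinarith
      _ = M := mul_one M
      _ ≤ _ := h
  induction N with
  | zero =>
    intro P M hM hP p₀ hp₀ hge x hx _
    obtain rfl : p₀ = 0 := by omega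
    exact ⟨0, le_rfl, by simpa using h0 P M hM hP hge (x 0) (hx 0 le_rfl)⟩
  | succ N ih =>
    intro P M hM hP p₀ hp₀ hge x hx hsep
    have hsN : s ^ (N + 1) ≤ 1 := pow_le_one₀ hs0.le hs1
    rcases Nat.eq_zero_or_pos p₀ with rfl | hpos
    · refine ⟨0, Nat.zero_le _, le_trans ?_ (h0 P M hM hP hge (x 0) (hx 0 (Nat.zero_le _)))⟩
      nlinarith
    obtain ⟨q, rfl⟩ : ∃ q, p₀ = q + 1 := ⟨p₀ - 1, by omega⟩
    set Q := P /ₘ (X - C (x 0)) with hQ
    have hx0 : w (x 0) ≤ ρ := hx 0 (Nat.zero_le _)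
    have hQM : ∀ n, w (Q.coeff n) ≤ M := by
      intro n
      rw [hQ, Polynomial.coeff_divByMonic_X_sub_C]
      refine w_sum_le hw _ _ _ hM.le fun i _ => ?_
      rw [map_mul, map_pow]
      calc w (x 0) ^ (i - (n + 1)) * w (P.coeff i) ≤ 1 * M :=
            mul_le_mul (pow_le_one₀ (w.nonneg _) (hx0.trans hρ.le)) (hP i) (w.nonneg _) zero_le_one
        _ = M := one_mul M
    have hQq : M ≤ w (Q.coeff q) := by
      rw [hQ, Polynomial.coeff_divByMonic_X_sub_C_rec]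
      refine hge.trans (w_add_ge hw ?_)
      rw [map_mul, ← hQ]
      calc w (x 0) * w (Q.coeff (q + 1)) ≤ ρ * M := mul_le_mul hx0 (hQM _) (w.nonneg _) hρ0
        _ < 1 * M := by nlinarith
        _ = M := one_mul M
        _ ≤ _ := hge
    obtain ⟨k, hk, hkM⟩ := ih Q M hM hQM q (by omega) hQq (fun k => x (k + 1)) (fun k hk => hx _ (by omega))
      (fun k hk l hl hne => hsep _ (by omega) _ (by omega) (by omega))
    have hdiv : P.eval (x (k + 1)) - P.eval (x 0) = (x (k + 1) - x 0) * Q.eval (x (k + 1)) := by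
      have h1 := Polynomial.modByMonic_add_div P (X - C (x 0))
      rw [Polynomial.modByMonic_X_sub_C_eq_C_eval] at h1
      have h2 := congrArg (Polynomial.eval (x (k + 1))) h1
      simp only [eval_add, eval_mul, eval_sub, eval_X, eval_C] at h2
      rw [← h2, ← hQ]
      ring
    have h3 : s * (M * s ^ N) ≤ max (w (P.eval (x (k + 1)))) (w (P.eval (x 0))) := by
      refine le_trans ?_ (w_sub_le hw _ _)
      rw [hdiv, map_mul]
      exact mul_le_mul (hsep _ (by omega) _ (Nat.zero_le _) (by omega)) hkM (by positivity) (w.nonneg _)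
    have h4 : M * s ^ (N + 1) = s * (M * s ^ N) := by ring
    rcases le_max_iff.1 h3 with h5 | h5
    · exact ⟨k + 1, by omega, by rw [h4]; exact h5⟩
    · exact ⟨0, Nat.zero_le _, by rw [h4]; exact h5⟩

/-- finiteness of the set of indices at which a combination is small -/
theorem combo_small (hw : IsNonarchimedean w) {ρ s : ℝ} (hρ0 : 0 < ρ) (hρ : ρ < 1) (hs0 : 0 < s) (hs1 : s ≤ 1)
    {J : Type*} (x : ℕ → K) (hx : ∀ k, w (x k) ≤ ρ) (hsep : ∀ k l, k ≠ l → s ≤ w (x k - x l))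
    (f : J → ℕ → K) (a : J → ℕ → K) (ha : ∀ j p, w (a j p) ≤ 1)
    (hf : ∀ j P k, w (f j k - ∑ p ∈ range P, a j p * x k ^ p) ≤ ρ ^ P)
    (𝓜 : Finset J) (N₀ : ℕ) (g : J → K)
    (hND : ∃ p ≤ N₀, ∀ j ∈ 𝓜, w (g j) ≤ w (∑ j' ∈ 𝓜, g j' * a j' p)) (j₀ : J) (hj₀ : j₀ ∈ 𝓜) (hg : g j₀ ≠ 0) :
    ∃ h : ℝ, 0 < h ∧ {k | w (∑ j ∈ 𝓜, g j * f j k) < h}.Finite := by
  classical
  obtain ⟨p₀, hp₀, hp⟩ := hND
  obtain ⟨j₁, hj₁, hmax⟩ := Finset.exists_max_image 𝓜 (fun j => w (g j)) ⟨j₀, hj₀⟩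
  set M := w (g j₁) with hMdef
  have hM : 0 < M := lt_of_lt_of_le (w.pos hg) (hmax j₀ hj₀)
  obtain ⟨P, hPN, hPs⟩ : ∃ P, N₀ < P ∧ ρ ^ P < s ^ N₀ := by
    obtain ⟨P, hP⟩ := exists_pow_lt_of_lt_one (show 0 < s ^ N₀ by positivity) hρ
    refine ⟨max P (N₀ + 1), lt_of_lt_of_le (Nat.lt_succ_self _) (le_max_right _ _), lt_of_le_of_lt ?_ hP⟩
    exact pow_le_pow_of_le_one hρ0.le hρ.le (le_max_left _ _)
  set b : ℕ → K := fun p => ∑ j ∈ 𝓜, g j * a j p with hb
  have hbM : ∀ p, w (b p) ≤ M := fun p => w_sum_le hw _ _ _ hM.le fun j hj => by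
    rw [map_mul]
    calc w (g j) * w (a j p) ≤ M * 1 := mul_le_mul (hmax j hj) (ha j p) (w.nonneg _) hM.le
      _ = M := mul_one M
  set Pl : K[X] := ∑ p ∈ range P, C (b p) * X ^ p with hPl
  have hcoeff : ∀ i, Pl.coeff i = if i < P then b i else 0 := by
    intro i
    rw [hPl, Polynomial.finsetSum_coeff]
    simp only [Polynomial.coeff_C_mul, Polynomial.coeff_X_pow, mul_ite, mul_one, mul_zero]
    rw [Finset.sum_ite_eq]
    simp
  refine ⟨M * s ^ N₀, by positivity, ?_⟩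
  by_contra hinf
  have hinf' : {k | w (∑ j ∈ 𝓜, g j * f j k) < M * s ^ N₀}.Infinite := hinf
  set em := hinf'.natEmbedding with hem
  obtain ⟨k, hk, hkM⟩ := zeros hw hρ0.le hρ hs0 hs1 N₀ Pl M hM (fun i => by
      rw [hcoeff]
      split_ifs
      · exact hbM i
      · simpa using hM.le) p₀ hp₀ (by
      rw [hcoeff, if_pos (by omega)]
      exact hp j₁ hj₁) (fun k => x (em k)) (fun k _ => hx _) (fun k _ l _ hne => hsep _ _ fun hcon =>
        hne (em.injective (Subtype.ext hcon)))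
  have h1 : w (∑ j ∈ 𝓜, g j * f j (em k)) < M * s ^ N₀ := (em k).2
  have h2 : Pl.eval (x (em k)) = ∑ j ∈ 𝓜, g j * (∑ p ∈ range P, a j p * x (em k) ^ p) := by
    rw [hPl, Polynomial.eval_finsetSum]
    simp only [eval_mul, eval_C, eval_pow, eval_X, hb, Finset.sum_mul, Finset.mul_sum]
    rw [Finset.sum_comm]
    refine Finset.sum_congr rfl fun j _ => Finset.sum_congr rfl fun p _ => by ring
  have h3 : w (∑ j ∈ 𝓜, g j * f j (em k) - Pl.eval (x (em k))) < M * s ^ N₀ := by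
    rw [h2, ← Finset.sum_sub_distrib]
    refine lt_of_le_of_lt (w_sum_le hw _ _ (M * ρ ^ P) (by positivity) fun j hj => ?_) ?_
    · rw [← mul_sub, map_mul]
      exact mul_le_mul (hmax j hj) (hf j P _) (w.nonneg _) hM.le
    · exact mul_lt_mul_of_pos_left hPs hM
  have h4 : w (Pl.eval (x (em k))) ≤ max (w (∑ j ∈ 𝓜, g j * f j (em k)))
      (w (∑ j ∈ 𝓜, g j * f j (em k) - Pl.eval (x (em k)))) := by
    have := w_sub_le hw (∑ j ∈ 𝓜, g j * f j (em k)) (∑ j ∈ 𝓜, g j * f j (em k) - Pl.eval (x (em k)))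
    rwa [sub_sub_cancel] at this
  exact absurd (hkM.trans h4) (not_le.2 (max_lt h1 h3))

end Pool.Agent.Y120
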