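import Pool.Agent.Y120.Blk
import Pool.Agent.TH659.AQ.StrRank
import Pool.Agent.TH818.AP.Api

/-!
# Number fields: the ring of integers, heights, the measure of transcendence of `2πi`
-/

set_option autoImplicit false
set_option linter.unusedSectionVars false

open Finset NumberField

namespace Pool.Agent.Y120

variable (K : Type) [Field K] [NumberField K] (ι : K →+* ℂ)

/-- the degree minus one -/
noncomputable def gK : ℕ := Fintype.card (K →+* ℂ) - 1

theorem card_eq : Fintype.card (K →+* ℂ) = gK K + 1 := by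
  have : 0 < Fintype.card (K →+* ℂ) := Fintype.card_pos
  unfold gK
  omega

open scoped Classical in
/-- enumeration of the embeddings, starting from `ι` -/
noncomputable def en : Fin (gK K + 1) ≃ (K →+* ℂ) :=
  (Fintype.equivFinOfCardEq (card_eq K)).symm.trans
    (Equiv.swap ((Fintype.equivFinOfCardEq (card_eq K)).symm 0) ι)

theorem en_zero : en K ι 0 = ι := by
  simp [en]

/-- the canonical embedding of the ring of integers -/
noncomputable def hK : 𝓞 K →+* (Fin (gK K + 1) → ℂ) :=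
  RingHom.pi fun s => (en K ι s).comp (algebraMap (𝓞 K) K)

theorem hK_apply (x : 𝓞 K) (s : Fin (gK K + 1)) : hK K ι x s = en K ι s (x : K) := rfl

/-- the integers of `K` -/
noncomputable def RK : Subring (Fin (gK K + 1) → ℂ) := (hK K ι).range

theorem house_ge (x : K) (φ : K →+* ℂ) : ‖φ x‖ ≤ house x := norm_le_pi_norm (canonicalEmbedding K x) φ

theorem house_le {x : K} {H : ℝ} (hH : 0 ≤ H) (h : ∀ φ : K →+* ℂ, ‖φ x‖ ≤ H) : house x ≤ H :=
  (pi_norm_le_iff_of_nonneg hH).2 h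

theorem prod_emb (x : 𝓞 K) (hx : x ≠ 0) : 1 ≤ ∏ φ : K →+* ℂ, ‖φ (x : K)‖ := by
  have h1 : (1 : ℝ) ≤ ‖Algebra.norm ℚ (x : K)‖ := by
    have h3 : ((Algebra.norm ℤ x : ℤ) : ℚ) = Algebra.norm ℚ (x : K) := Algebra.coe_norm_int x
    rw [← h3]
    have h4 : Algebra.norm ℤ x ≠ 0 := by
      rw [Algebra.norm_ne_zero_iff]
      exact hx
    have h5 : (1 : ℝ) ≤ |((Algebra.norm ℤ x : ℤ) : ℝ)| := by
      have := Int.one_le_abs h4
      exact_mod_cast this
    have h6 : ‖((Algebra.norm ℤ x : ℤ) : ℚ)‖ = |((Algebra.norm ℤ x : ℤ) : ℝ)| := by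
      rw [← Real.norm_eq_abs]
      simp only [Int.norm_cast_rat]
      exact Int.norm_eq_abs _
    rw [h6]
    exact h5
  refine h1.trans (le_of_eq ?_)
  have h2 := congrArg (fun z : ℂ => ‖z‖) (Algebra.norm_eq_prod_embeddings ℚ ℂ (x : K))
  simp only [norm_prod] at h2
  rw [← Fintype.prod_equiv (RingHom.equivRatAlgHom (R := K) (S := ℂ)).symm (fun σ : K →ₐ[ℚ] ℂ => ‖σ (x : K)‖)
    (fun φ : K →+* ℂ => ‖φ (x : K)‖) (fun σ => rfl), ← h2]
  have h7 : ∀ q : ℚ, ‖q‖ = ‖(algebraMap ℚ ℂ) q‖ := by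
    intro q
    rw [← Rat.norm_cast_real, eq_ratCast, ← Complex.norm_real]
    simp
  exact h7 _

theorem RK_norm : NormRing (RK K ι) := by
  rintro _ ⟨x, rfl⟩ hx0
  have hx : x ≠ 0 := by
    rintro rfl
    exact hx0 (map_zero _)
  simp only [hK_apply]
  rw [Equiv.prod_comp (en K ι) (fun φ => ‖φ (x : K)‖)]
  exact prod_emb K x hx

/-- quotients of two integers of house at most `T` -/
def HtLe (T : ℝ) (x : K) : Prop :=
  ∃ a b : 𝓞 K, b ≠ 0 ∧ house (a : K) ≤ T ∧ house (b : K) ≤ T ∧ x = a / b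

theorem Pt_of_HtLe {T : ℝ} {x : K} (h : HtLe K T x) : Pt (RK K ι) T (ι x) := by
  obtain ⟨a, b, hb, haT, hbT, rfl⟩ := h
  refine ⟨hK K ι a, ⟨a, rfl⟩, hK K ι b, ⟨b, rfl⟩, ?_, fun s => ?_, fun s => ?_, ?_⟩
  · rw [hK_apply]
    intro h0
    apply hb
    have h1 : (b : K) = 0 := (map_eq_zero (en K ι 0)).1 h0
    exact_mod_cast h1
  · exact (house_ge K _ _).trans haT
  · exact (house_ge K _ _).trans hbT
  · rw [hK_apply, hK_apply, en_zero, map_div₀]

theorem house_fin (T : ℝ) : {a : 𝓞 K | house (a : K) ≤ T}.Finite := by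
  have h1 := Embeddings.finite_of_norm_le K ℂ T
  refine Set.Finite.of_finite_image (f := fun a : 𝓞 K => (a : K)) (h1.subset ?_) ?_
  · rintro _ ⟨a, ha, rfl⟩
    exact ⟨a.2, fun φ => (house_ge K _ φ).trans ha⟩
  · intro a _ b _ hab
    exact RingOfIntegers.ext hab

theorem HtLe_fin (T : ℝ) : {x : K | HtLe K T x}.Finite := by
  refine (((house_fin K T).prod (house_fin K T)).image fun p : 𝓞 K × 𝓞 K => (p.1 : K) / p.2).subset ?_
  rintro x ⟨a, b, -, ha, hb, rfl⟩
  exact ⟨(a, b), ⟨ha, hb⟩, rfl⟩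

/-- the number of elements of `K` of height at most `T` -/
noncomputable def NK (T : ℝ) : ℝ := ({x : K | HtLe K T x}.ncard : ℝ)

theorem NK_ge (T : ℝ) (hT : 1 ≤ T) : 1 ≤ NK K T := by
  have h1 : (0 : K) ∈ {x : K | HtLe K T x} := by
    refine ⟨0, 1, one_ne_zero, ?_, ?_, by simp⟩
    · refine house_le K (by linarith) fun φ => ?_
      simp
      linarith
    · refine house_le K (by linarith) fun φ => ?_
      simpa using hT
  have h2 : 0 < {x : K | HtLe K T x}.ncard := (Set.ncard_pos (HtLe_fin K T)).2 ⟨0, h1⟩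
  unfold NK
  exact_mod_cast h2

/-- a measure of transcendence over `ℤ`, polynomial in the height for each degree -/
def MeasZ (ξ : ℂ) : Prop := ∀ d A : ℕ, ∃ (B : ℕ) (T₀ : ℝ), 1 ≤ T₀ ∧ ∀ T : ℝ, T₀ ≤ T → ∀ c : Fin (d + 1) → ℤ, c ≠ 0 →
  (∀ e, |(c e : ℝ)| ≤ T ^ A) → (T ^ B)⁻¹ < ‖∑ e, (c e : ℂ) * ξ ^ (e : ℕ)‖

/-- the integral basis, indexed by the embeddings -/
noncomputable def bK : Module.Basis (Fin (gK K + 1)) ℤ (𝓞 K) :=
  (RingOfIntegers.basis K).reindex (Fintype.equivFinOfCardEq (by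
    rw [← Module.finrank_eq_card_chooseBasisIndex, RingOfIntegers.rank, ← card_eq K, Embeddings.card]))

/-- the matrix of the conjugates of the basis -/
noncomputable def VK : Matrix (Fin (gK K + 1)) (Fin (gK K + 1)) ℂ := fun s l => en K ι s (bK K l : K)

theorem en_zsmul (s : Fin (gK K + 1)) (z : ℤ) (y : 𝓞 K) :
    en K ι s ((z • y : 𝓞 K) : K) = (z : ℂ) * en K ι s (y : K) := by
  have h1 : ((z • y : 𝓞 K) : K) = (z : K) * (y : K) := by
    rw [zsmul_eq_mul]
    push_cast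
    rfl
  rw [h1, map_mul]
  simp

theorem VK_mul (x : 𝓞 K) : VK K ι * (Algebra.leftMulMatrix (bK K) x).map (Int.cast : ℤ → ℂ) =
    Matrix.diagonal (fun s => en K ι s (x : K)) * VK K ι := by
  ext s l
  rw [Matrix.mul_apply, Matrix.diagonal_mul]
  have h1 : ∑ m, (bK K).repr (x * bK K l) m • bK K m = x * bK K l := (bK K).sum_repr _
  have h2 := congrArg (fun y : 𝓞 K => en K ι s (y : K)) h1
  simp only [map_sum, map_mul] at h2
  simp only [VK, Matrix.map_apply, Algebra.leftMulMatrix_eq_repr_mul]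
  rw [← h2]
  refine Finset.sum_congr rfl fun m _ => ?_
  rw [en_zsmul, mul_comm]

theorem VK_det : (VK K ι).det ≠ 0 := by
  intro h0
  obtain ⟨a, ha0, ha⟩ := Matrix.exists_vecMul_eq_zero_iff.2 h0
  have h1 : ∀ l, ∑ s, a s * en K ι s (bK K l : K) = 0 := by
    intro l
    have := congrFun ha l
    simpa [Matrix.vecMul, dotProduct, VK] using this
  have h2 : ∀ x : 𝓞 K, ∑ s, a s * en K ι s (x : K) = 0 := by
    intro x
    have h3 := congrArg (fun y : 𝓞 K => ∑ s, a s * en K ι s (y : K)) ((bK K).sum_repr x)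
    beta_reduce at h3
    rw [← h3]
    have h4 : ∀ s, en K ι s ((∑ m, (bK K).repr x m • bK K m : 𝓞 K) : K) =
        ∑ m, ((bK K).repr x m : ℂ) * en K ι s (bK K m : K) := by
      intro s
      simp only [map_sum]
      refine Finset.sum_congr rfl fun m _ => ?_
      rw [en_zsmul]
    simp only [h4, Finset.mul_sum]
    rw [Finset.sum_comm]
    refine Finset.sum_eq_zero fun m _ => ?_
    have h5 := h1 m
    calc ∑ s, a s * (((bK K).repr x m : ℂ) * en K ι s (bK K m : K)) =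
        ((bK K).repr x m : ℂ) * ∑ s, a s * en K ι s (bK K m : K) := by
          rw [Finset.mul_sum]
          refine Finset.sum_congr rfl fun s _ => by ring
      _ = 0 := by rw [h5, mul_zero]
  -- independence of characters
  have h3 := linearIndependent_monoidHom (𝓞 K) ℂ
  set χ : Fin (gK K + 1) → (𝓞 K →* ℂ) := fun s => (((en K ι s).comp (algebraMap (𝓞 K) K) : 𝓞 K →+* ℂ) : 𝓞 K →* ℂ)
    with hχ
  have hinj : Function.Injective χ := by
    intro s t hst
    apply (en K ι).injective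
    apply IsLocalization.ringHom_ext (nonZeroDivisors (𝓞 K))
    ext x
    exact DFunLike.congr_fun hst x
  have h4 := (h3.comp χ hinj)
  apply ha0
  have h5 := Fintype.linearIndependent_iff.1 h4 a (by
    funext x
    simp only [Finset.sum_apply, Pi.smul_apply, smul_eq_mul, Function.comp_apply, Pi.zero_apply]
    exact h2 x)
  funext s
  exact h5 s

/-- the norm polynomial -/
noncomputable def NPoly {d : ℕ} (c : Fin (d + 1) → 𝓞 K) : Polynomial ℤ :=
  (∑ e : Fin (d + 1), (Algebra.leftMulMatrix (bK K) (c e)).map (fun z : ℤ => Polynomial.monomial (e : ℕ) z) :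
    Matrix (Fin (gK K + 1)) (Fin (gK K + 1)) (Polynomial ℤ)).det

theorem NPoly_eval {d : ℕ} (c : Fin (d + 1) → 𝓞 K) (x : ℂ) :
    Polynomial.aeval x (NPoly K c) = ∏ s, ∑ e, en K ι s (c e : K) * x ^ (e : ℕ) := by
  have h1 : Polynomial.aeval x (NPoly K c) = (∑ e : Fin (d + 1), x ^ (e : ℕ) •
      (Algebra.leftMulMatrix (bK K) (c e)).map (Int.cast : ℤ → ℂ)).det := by
    rw [NPoly, AlgHom.map_det]
    congr 1
    ext i j
    simp only [AlgHom.mapMatrix_apply, Matrix.map_apply, Matrix.sum_apply, map_sum, Matrix.smul_apply,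
      Polynomial.aeval_monomial, smul_eq_mul]
    refine Finset.sum_congr rfl fun e _ => ?_
    simp [mul_comm]
  have h2 : VK K ι * (∑ e : Fin (d + 1), x ^ (e : ℕ) •
      (Algebra.leftMulMatrix (bK K) (c e)).map (Int.cast : ℤ → ℂ)) =
      Matrix.diagonal (fun s => ∑ e, en K ι s (c e : K) * x ^ (e : ℕ)) * VK K ι := by
    rw [Matrix.mul_sum]
    simp only [Matrix.mul_smul, VK_mul]
    ext s l
    rw [Matrix.diagonal_mul, Matrix.sum_apply, Finset.sum_mul]
    refine Finset.sum_congr rfl fun e _ => ?_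
    rw [Matrix.smul_apply, Matrix.diagonal_mul, smul_eq_mul]
    ring
  have h3 := congrArg Matrix.det h2
  rw [Matrix.det_mul, Matrix.det_mul, Matrix.det_diagonal, mul_comm] at h3
  rw [h1]
  exact mul_right_cancel₀ (VK_det K ι) h3

/-- complex version of the norm polynomial -/
theorem NPoly_map {d : ℕ} (c : Fin (d + 1) → 𝓞 K) :
    (NPoly K c).map (algebraMap ℤ ℂ) =
      ∏ s, ∑ e : Fin (d + 1), Polynomial.C (en K ι s (c e : K)) * Polynomial.X ^ (e : ℕ) := by
  refine Polynomial.funext fun x => ?_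
  rw [Polynomial.eval_map_algebraMap, NPoly_eval K ι, Polynomial.eval_prod]
  refine Finset.prod_congr rfl fun s _ => ?_
  simp [Polynomial.eval_finsetSum]

theorem prod_coeff_le {n d : ℕ} (f : Fin n → Fin (d + 1) → ℂ) (H : ℝ) (hH : 0 ≤ H) (hf : ∀ s e, ‖f s e‖ ≤ H) (k : ℕ) :
    ‖(∏ s, ∑ e : Fin (d + 1), Polynomial.C (f s e) * Polynomial.X ^ (e : ℕ)).coeff k‖ ≤ ((d + 1 : ℕ) : ℝ) ^ n * H ^ n := by
  classical
  rw [Finset.prod_univ_sum]
  have h1 : ∀ p : Fin n → Fin (d + 1), ∏ s, (Polynomial.C (f s (p s)) * Polynomial.X ^ (p s : ℕ) : Polynomial ℂ) =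
      Polynomial.C (∏ s, f s (p s)) * Polynomial.X ^ (∑ s, (p s : ℕ)) := by
    intro p
    rw [Finset.prod_mul_distrib, map_prod, Finset.prod_pow_eq_pow_sum]
  simp only [h1]
  rw [Polynomial.finsetSum_coeff]
  have h2 : ∀ p ∈ Fintype.piFinset fun _ : Fin n => (Finset.univ : Finset (Fin (d + 1))),
      ‖(Polynomial.C (∏ s, f s (p s)) * Polynomial.X ^ (∑ s, (p s : ℕ)) : Polynomial ℂ).coeff k‖ ≤ H ^ n := by
    intro p _
    rw [Polynomial.coeff_C_mul, Polynomial.coeff_X_pow]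
    split_ifs
    · rw [mul_one, norm_prod]
      calc ∏ s, ‖f s (p s)‖ ≤ ∏ _s : Fin n, H := Finset.prod_le_prod (fun _ _ => norm_nonneg _) fun s _ => hf _ _
        _ = H ^ n := by simp
    · rw [mul_zero, norm_zero]
      positivity
  refine (norm_sum_le_of_le _ h2).trans (le_of_eq ?_)
  rw [Finset.sum_const, Fintype.card_piFinset]
  simp

/-- the measure over the integers of `K` -/
theorem PG_of_MeasZ {ξ : ℂ} (hξ : MeasZ ξ) (d A : ℕ) : ∃ (B : ℕ) (T₀ : ℝ), 1 ≤ T₀ ∧ ∀ T : ℝ, T₀ ≤ T →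
    PG (RK K ι) T d A B (fun _ : Unit => ξ) := by
  classical
  set n := gK K + 1 with hn
  obtain ⟨B, T₁, hT₁, h⟩ := hξ (n * d) (A * n + 1)
  -- bound for the conjugate factors
  set X : ℝ := ((d + 1 : ℕ) : ℝ) * (max 1 ‖ξ‖) ^ d with hX
  have hX0 : 0 < X := by positivity
  refine ⟨B + (A + 1) * gK K, max (max T₁ (((d + 1 : ℕ) : ℝ) ^ n)) X, le_max_of_le_left (le_max_of_le_left hT₁), ?_⟩
  intro T hT c hcR hc0 hcT
  have hTT₁ : T₁ ≤ T := (le_max_left _ _).trans ((le_max_left _ _).trans hT)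
  have hTd : ((d + 1 : ℕ) : ℝ) ^ n ≤ T := (le_max_right _ _).trans ((le_max_left _ _).trans hT)
  have hTX : X ≤ T := (le_max_right _ _).trans hT
  have hT1 : 1 ≤ T := hT₁.trans hTT₁
  have hTp : 0 < T := by linarith
  choose x hx using hcR
  set c' : Fin (d + 1) → 𝓞 K := fun e => x (fun _ => e) with hc'
  have hcx : ∀ (e : Fin (d + 1)) s, en K ι s (c' e : K) = c (fun _ => e) s := fun e s => congrFun (hx _) s
  have hcb : ∀ s (e : Fin (d + 1)), ‖en K ι s (c' e : K)‖ ≤ T ^ A := by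
    intro s e
    rw [hcx]
    exact hcT _ _
  -- the norm polynomial
  set P := NPoly K c' with hP
  have hPmap := NPoly_map K ι c'
  have hPdeg : P.natDegree ≤ n * d := by
    have h1 : P.natDegree = (P.map (algebraMap ℤ ℂ)).natDegree :=
      (Polynomial.natDegree_map_eq_of_injective (algebraMap ℤ ℂ).injective_int P).symm
    rw [h1, hPmap]
    refine (Polynomial.natDegree_prod_le _ _).trans ?_
    have h2 : ∀ s ∈ (Finset.univ : Finset (Fin n)),
        (∑ e : Fin (d + 1), Polynomial.C (en K ι s (c' e : K)) * Polynomial.X ^ (e : ℕ)).natDegree ≤ d :=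
      fun s _ => Polynomial.natDegree_sum_le_of_forall_le _ _ fun e _ =>
        (Polynomial.natDegree_C_mul_X_pow_le _ _).trans (Nat.lt_succ_iff.1 e.2)
    refine (Finset.sum_le_sum h2).trans ?_
    simp
  have hPcoef : ∀ k, |(P.coeff k : ℝ)| ≤ T ^ (A * n + 1) := by
    intro k
    have h1 : ‖((P.coeff k : ℤ) : ℂ)‖ = |(P.coeff k : ℝ)| := Complex.norm_intCast _
    have h2 : ((P.coeff k : ℤ) : ℂ) = (P.map (algebraMap ℤ ℂ)).coeff k := by
      rw [Polynomial.coeff_map]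
      rfl
    rw [← h1, h2, hPmap]
    refine (prod_coeff_le _ (T ^ A) (by positivity) hcb k).trans ?_
    calc ((d + 1 : ℕ) : ℝ) ^ n * (T ^ A) ^ n ≤ T * (T ^ A) ^ n := mul_le_mul_of_nonneg_right hTd (by positivity)
      _ = T ^ (A * n + 1) := by rw [← pow_mul, pow_succ]; ring
  have hPne : P ≠ 0 := by
    intro h0
    have h1 : (P.map (algebraMap ℤ ℂ)) = 0 := by rw [h0, Polynomial.map_zero]
    rw [hPmap, Finset.prod_eq_zero_iff] at h1
    obtain ⟨s, _, hs⟩ := h1
    apply hc0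
    funext e
    have h2 : (e : Unit → Fin (d + 1)) = fun _ => e () := funext fun _ => rfl
    have h3 := congrArg (fun q : Polynomial ℂ => q.coeff (e () : ℕ)) hs
    simp only [Polynomial.finsetSum_coeff, Polynomial.coeff_zero] at h3
    rw [Finset.sum_eq_single (e ())] at h3
    · rw [Polynomial.coeff_C_mul, Polynomial.coeff_X_pow_self, mul_one] at h3
      have h4 : (c' (e ()) : K) = 0 := (map_eq_zero (en K ι s)).1 h3
      have h5 : c' (e ()) = 0 := by exact_mod_cast h4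
      rw [h2, ← hx]
      change hK K ι (c' (e ())) = 0
      rw [h5, map_zero]
    · intro e' _ hne
      rw [Polynomial.coeff_C_mul, Polynomial.coeff_X_pow, if_neg, mul_zero]
      intro h
      exact hne (Fin.ext h.symm)
    · simp
  have hmeas := h T hTT₁ (fun e : Fin (n * d + 1) => P.coeff (e : ℕ)) (by
    intro h0
    apply hPne
    ext k
    rcases Nat.lt_or_ge k (n * d + 1) with hk | hk
    · exact congrFun h0 ⟨k, hk⟩
    · rw [Polynomial.coeff_eq_zero_of_natDegree_lt (by omega), Polynomial.coeff_zero]) (fun e => hPcoef _)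
  have hval : ∑ e : Fin (n * d + 1), ((P.coeff (e : ℕ) : ℤ) : ℂ) * ξ ^ (e : ℕ) = Polynomial.aeval ξ P := by
    rw [Polynomial.aeval_eq_sum_range' (show P.natDegree < n * d + 1 by omega), Finset.sum_range]
    refine Finset.sum_congr rfl fun e _ => ?_
    rw [zsmul_eq_mul]
  rw [hval, NPoly_eval K ι, norm_prod, Fin.prod_univ_succ] at hmeas
  have h1 : ∏ i : Fin (gK K), ‖∑ e, en K ι i.succ (c' e : K) * ξ ^ (e : ℕ)‖ ≤ (T ^ (A + 1)) ^ gK K := by
    calc ∏ i : Fin (gK K), ‖∑ e, en K ι i.succ (c' e : K) * ξ ^ (e : ℕ)‖ ≤ ∏ _i : Fin (gK K), T ^ (A + 1) := by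
          refine Finset.prod_le_prod (fun _ _ => norm_nonneg _) fun i _ => ?_
          have h2 : ∀ e ∈ (Finset.univ : Finset (Fin (d + 1))), ‖en K ι i.succ (c' e : K) * ξ ^ (e : ℕ)‖ ≤
              T ^ A * (max 1 ‖ξ‖) ^ d := by
            intro e _
            rw [norm_mul, norm_pow]
            refine mul_le_mul (hcb _ _) ?_ (by positivity) (by positivity)
            calc ‖ξ‖ ^ (e : ℕ) ≤ (max 1 ‖ξ‖) ^ (e : ℕ) := pow_le_pow_left₀ (norm_nonneg _) (le_max_right _ _) _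
              _ ≤ (max 1 ‖ξ‖) ^ d := pow_le_pow_right₀ (le_max_left _ _) (Nat.lt_succ_iff.1 e.2)
          refine (norm_sum_le_of_le _ h2).trans ?_
          rw [Finset.sum_const, Finset.card_univ, Fintype.card_fin, nsmul_eq_mul]
          calc ((d + 1 : ℕ) : ℝ) * (T ^ A * (max 1 ‖ξ‖) ^ d) = T ^ A * X := by rw [hX]; ring
            _ ≤ T ^ A * T := mul_le_mul_of_nonneg_left hTX (by positivity)
            _ = T ^ (A + 1) := (pow_succ _ _).symm
      _ = (T ^ (A + 1)) ^ gK K := by simp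
  have hsum : ∑ e : Unit → Fin (d + 1), c e 0 * ∏ v : Unit, ξ ^ (e v : ℕ) =
      ∑ e, en K ι 0 (c' e : K) * ξ ^ (e : ℕ) := by
    rw [← Equiv.sum_comp (Equiv.funUnique Unit (Fin (d + 1))).symm]
    refine Finset.sum_congr rfl fun e _ => ?_
    rw [hcx]
    have he : (Equiv.funUnique Unit (Fin (d + 1))).symm e = fun _ => e := funext fun _ => rfl
    rw [he]
    simp
  rw [hsum]
  set Z := ‖∑ e, en K ι 0 (c' e : K) * ξ ^ (e : ℕ)‖ with hZ
  have h2 : (T ^ B)⁻¹ < Z * (T ^ (A + 1)) ^ gK K :=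
    lt_of_lt_of_le hmeas (mul_le_mul_of_nonneg_left h1 (norm_nonneg _))
  rw [pow_add, mul_inv]
  have h3 : 0 < (T ^ (A + 1)) ^ gK K := by positivity
  have h4 : T ^ ((A + 1) * gK K) = (T ^ (A + 1)) ^ gK K := pow_mul _ _ _
  rw [h4]
  calc (T ^ B)⁻¹ * ((T ^ (A + 1)) ^ gK K)⁻¹ < (Z * (T ^ (A + 1)) ^ gK K) * ((T ^ (A + 1)) ^ gK K)⁻¹ :=
        mul_lt_mul_of_pos_right h2 (inv_pos.2 h3)
    _ = Z := by field_simp

/-- the measure of `2πi` -/
theorem meas_twoPiI : MeasZ (2 * (Real.pi : ℂ) * Complex.I) := by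
  intro d A
  obtain ⟨B, T₀, hT₀⟩ := Pool.Agent.TH818.AP.goodConst_pi d ((A + 1 : ℕ) : ℝ)
  refine ⟨⌈max B 0⌉₊ + 1, max T₀ (2 ^ d + 1), le_max_of_le_right (by
    have : (0 : ℝ) < 2 ^ d := by positivity
    linarith), ?_⟩
  intro T hT c hc0 hcT
  have hTT₀ : T₀ ≤ T := (le_max_left _ _).trans hT
  have hTd : (2 : ℝ) ^ d + 1 ≤ T := (le_max_right _ _).trans hT
  have h2d : (0 : ℝ) < 2 ^ d := by positivity
  have hT1 : 1 < T := by linarith
  have hTp : 0 < T := by linarith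
  have hm := hT₀ T hTT₀
  -- real and imaginary parts
  have hz : ∑ e : Fin (d + 1), (c e : ℂ) * (2 * (Real.pi : ℂ) * Complex.I) ^ (e : ℕ) =
      ∑ e : Fin (d + 1), (((c e : ℝ) * 2 ^ (e : ℕ) * Real.pi ^ (e : ℕ) : ℝ) : ℂ) * Complex.I ^ (e : ℕ) := by
    refine Finset.sum_congr rfl fun e _ => ?_
    rw [mul_pow, mul_pow]
    push_cast
    ring
  have key : ∀ (ρ : ℕ → ℤ), (∀ k, |ρ k| ≤ 1) → (fun e : Fin (d + 1) => c e * 2 ^ (e : ℕ) * ρ e) ≠ 0 →
      (T ^ (⌈max B 0⌉₊ + 1))⁻¹ < |∑ e : Fin (d + 1), ((c e * 2 ^ (e : ℕ) * ρ e : ℤ) : ℝ) * Real.pi ^ (e : ℕ)| := by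
    intro ρ hρ hne
    have h1 := hm _ hne (by
      intro e
      push_cast
      rw [abs_mul, abs_mul]
      have h2 : |((ρ e : ℤ) : ℝ)| ≤ 1 := by exact_mod_cast hρ e
      have h3 : |(2 : ℝ) ^ (e : ℕ)| ≤ T := by
        rw [abs_of_pos (by positivity)]
        have : (2 : ℝ) ^ (e : ℕ) ≤ 2 ^ d := pow_le_pow_right₀ (by norm_num) (Nat.lt_succ_iff.1 e.2)
        linarith
      calc |(c e : ℝ)| * |(2 : ℝ) ^ (e : ℕ)| * |((ρ e : ℤ) : ℝ)| ≤ T ^ A * T * 1 :=
            mul_le_mul (mul_le_mul (hcT e) h3 (abs_nonneg _) (by positivity)) h2 (abs_nonneg _) (by positivity)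
        _ = T ^ ((A : ℝ) + 1) := by
            rw [Real.rpow_add hTp, Real.rpow_natCast, Real.rpow_one, mul_one])
    refine lt_of_lt_of_le ?_ h1
    have h4 : B < ((⌈max B 0⌉₊ + 1 : ℕ) : ℝ) := by
      have h5 : max B 0 ≤ ⌈max B 0⌉₊ := Nat.le_ceil _
      have h6 : B ≤ max B 0 := le_max_left _ _
      push_cast
      linarith
    rw [Real.rpow_neg hTp.le]
    refine inv_strictAnti₀ (Real.rpow_pos_of_pos hTp _) ?_
    rw [← Real.rpow_natCast]
    exact Real.rpow_lt_rpow_of_exponent_lt hT1 h4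
  rw [hz]
  obtain ⟨e0, he0⟩ := Function.ne_iff.1 hc0
  have he0' : c e0 ≠ 0 := he0
  rcases Pool.Agent.TH659.AQ.rp_or_ip (e0 : ℕ) with hr | hi
  · refine lt_of_lt_of_le (key _ Pool.Agent.TH659.AQ.rp_le ?_) (le_trans (le_of_eq ?_) (Complex.abs_re_le_norm _))
    · intro h
      have := congrFun h e0
      simp only [Pi.zero_apply, mul_eq_zero] at this
      rcases this with (h | h) | h
      · exact he0' h
      · exact absurd h (by positivity)
      · exact hr h
    · rw [Complex.re_sum]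
      congr 1
      refine Finset.sum_congr rfl fun e _ => ?_
      rw [Complex.re_ofReal_mul, (Pool.Agent.TH659.AQ.I_pow _).1]
      push_cast
      ring
  · refine lt_of_lt_of_le (key _ Pool.Agent.TH659.AQ.ip_le ?_) (le_trans (le_of_eq ?_) (Complex.abs_im_le_norm _))
    · intro h
      have := congrFun h e0
      simp only [Pi.zero_apply, mul_eq_zero] at this
      rcases this with (h | h) | h
      · exact he0' h
      · exact absurd h (by positivity)
      · exact hi h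
    · rw [Complex.im_sum]
      congr 1
      refine Finset.sum_congr rfl fun e _ => ?_
      rw [Complex.im_ofReal_mul, (Pool.Agent.TH659.AQ.I_pow _).2]
      push_cast
      ring

end Pool.Agent.Y120
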