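import Pool.Agent.Y120.Loc
import Pool.Agent.TH818.AR.Ord
import Pool.Agent.TH818.AR.Taylor
import Pool.Agent.TH818.AP.Unif

/-!
# Charts from real analytic functions on a compact interval
-/

set_option autoImplicit false

set_option linter.unusedSectionVars false

open Set Filter Topology

namespace Pool.Agent.Y120

open Pool.Agent.TH818.AR Pool.Agent.TH818.AP

variable {σ : Type} [Fintype σ] [DecidableEq σ]

/-- all monomials are linearly independent over `ℝ[t]` on `[a,b]` -/
def AInd (f : σ → ℝ → ℝ) (a b : ℝ) : Prop :=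
  ∀ d : ℕ, RIndep (fun (e : σ → Fin (d + 1)) (t : ℝ) => ∏ i, f i t ^ (e i : ℕ)) a b

/-- the monomial functions -/
noncomputable def Wm (f : σ → ℝ → ℝ) (j : Option σ →₀ ℕ) (t : ℝ) : ℝ := t ^ j none * ∏ i, f i t ^ j (some i)

theorem Wm_an (f : σ → ℝ → ℝ) {a b : ℝ} (han : ∀ i, AnalyticOnNhd ℝ (f i) (Icc a b)) (j : Option σ →₀ ℕ) :
    AnalyticOnNhd ℝ (Wm f j) (Icc a b) := by
  intro t ht
  have h1 : AnalyticAt ℝ (fun t : ℝ => t ^ j none) t := analyticAt_id.pow _
  have h2 : AnalyticAt ℝ (fun t : ℝ => ∏ i, f i t ^ j (some i)) t :=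
    Finset.analyticAt_fun_prod _ fun i _ => (han i t ht).pow _
  exact h1.mul h2

theorem Wm_mv (f : σ → ℝ → ℝ) (j : Option σ →₀ ℕ) (t : ℝ) :
    mv (yv (fun i => ((f i t : ℝ) : ℂ)) (t : ℂ)) j = ((Wm f j t : ℝ) : ℂ) := by
  classical
  have h1 : mv (yv (fun i => ((f i t : ℝ) : ℂ)) (t : ℂ)) j =
      ∏ o : Option σ, (yv (fun i => ((f i t : ℝ) : ℂ)) (t : ℂ) o) ^ j o := by
    rw [mv]
    refine Finset.prod_subset (Finset.subset_univ _) fun o _ ho => ?_
    rw [Finsupp.notMem_support_iff.1 ho, pow_zero]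
  rw [h1, Fintype.prod_option, Wm]
  simp [yv]

theorem good_Wm (f : σ → ℝ → ℝ) {a b : ℝ} (hab : a < b) (han : ∀ i, AnalyticOnNhd ℝ (f i) (Icc a b))
    (hf : AInd f a b) {n : ℕ} (e : Fin n → (Option σ →₀ ℕ)) (he : Function.Injective e) :
    Good a b (fun i => Wm f (e i)) := by
  classical
  refine ⟨hab, fun i => Wm_an f han _, ?_⟩
  intro x hx
  -- a bound for the exponents
  obtain ⟨d, hd⟩ : ∃ d : ℕ, ∀ (k : Fin n) (i : σ), e k (some i) < d + 1 := by
    refine ⟨∑ k, ∑ i, e k (some i), fun k i => ?_⟩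
    have h1 : e k (some i) ≤ ∑ i, e k (some i) :=
      Finset.single_le_sum (f := fun i => e k (some i)) (fun _ _ => Nat.zero_le _) (Finset.mem_univ i)
    have h2 : ∑ i, e k (some i) ≤ ∑ k, ∑ i, e k (some i) :=
      Finset.single_le_sum (f := fun k => ∑ i, e k (some i)) (fun _ _ => Nat.zero_le _) (Finset.mem_univ k)
    omega
  set ex : Fin n → (σ → Fin (d + 1)) := fun k i => ⟨e k (some i), hd k i⟩ with hex
  have h1 := hf d (fun l => ∑ k, if ex k = l then Polynomial.C (x k) * Polynomial.X ^ (e k none) else 0) (by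
    intro t ht
    have h2 := hx t ht
    simp only [comb] at h2
    rw [← h2]
    simp only [Polynomial.eval_finsetSum, Finset.sum_mul]
    rw [Finset.sum_comm]
    refine Finset.sum_congr rfl fun k _ => ?_
    rw [Finset.sum_eq_single (ex k)]
    · simp [Wm, hex]
      ring
    · intro l _ hl
      rw [if_neg (Ne.symm hl)]
      simp
    · simp)
  funext k
  have h3 := congrFun h1 (ex k)
  have h4 := congrArg (fun q : Polynomial ℝ => q.coeff (e k none)) h3
  simp only [Polynomial.finsetSum_coeff, Pi.zero_apply, Polynomial.coeff_zero] at h4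
  rw [Finset.sum_eq_single k] at h4
  · simpa using h4
  · intro k' _ hk'
    split_ifs with h
    · rw [Polynomial.coeff_C_mul, Polynomial.coeff_X_pow, if_neg, mul_zero]
      intro h5
      apply hk'
      apply he
      ext o
      rcases o with _ | i
      · exact h5.symm
      · have := congrFun h i
        simpa [hex] using this
    · simp
  · simp

/-- the charts -/
noncomputable def realCharts (f : σ → ℝ → ℝ) (a b : ℝ) (hab : a < b)
    (han : ∀ i, AnalyticOnNhd ℝ (f i) (Icc a b)) (hf : AInd f a b) : Charts σ where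
  Θ := Icc a b
  τ θ := ((θ : ℝ) : ℂ)
  dom _ := {t : ℂ | t.im = 0 ∧ t.re ∈ Icc a b}
  u _ i t := ((f i t.re : ℝ) : ℂ)
  a θ j p := ((iteratedDeriv p (Wm f j) (θ : ℝ) / (p.factorial : ℝ) : ℝ) : ℂ)
  τb := by
    refine ⟨max |a| |b|, fun θ => ?_⟩
    rw [Complex.norm_real, Real.norm_eq_abs]
    exact abs_le_max_abs_abs θ.2.1 θ.2.2
  ab := by
    intro j p
    have hG := good_Wm f hab han hf (fun _ : Fin 1 => j) (fun a b _ => Subsingleton.elim a b)
    obtain ⟨B, hB, h⟩ := bd a b 1 _ hG p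
    refine ⟨B * ‖(fun _ : Fin 1 => (1 : ℝ))‖, fun θ => ?_⟩
    have h1 := h (fun _ => 1) θ θ.2 p le_rfl
    have h2 : iteratedDeriv p (comb (fun _ : Fin 1 => Wm f j) (fun _ => 1)) (θ : ℝ) = iteratedDeriv p (Wm f j) θ := by
      rw [OrdX.itd hG _ _ θ.2]
      simp
    rw [h2] at h1
    rw [Complex.norm_real, Real.norm_eq_abs, abs_div, Nat.abs_cast]
    exact (div_le_self (abs_nonneg _) (by exact_mod_cast p.factorial_pos)).trans h1
  approx := by
    intro j P
    have hG := good_Wm f hab han hf (fun _ : Fin 1 => j) (fun a b _ => Subsingleton.elim a b)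
    have hcomb : comb (fun _ : Fin 1 => Wm f j) (fun _ => 1) = Wm f j := by
      funext t
      simp [comb]
    rcases Nat.eq_zero_or_pos P with rfl | hP
    · obtain ⟨B, hB, h⟩ := bd a b 1 _ hG 0
      refine ⟨B * ‖(fun _ : Fin 1 => (1 : ℝ))‖, fun θ t ht => ?_⟩
      have h1 := h (fun _ => 1) t.re ht.2 0 le_rfl
      rw [iteratedDeriv_zero, hcomb] at h1
      have htre : t = ((t.re : ℝ) : ℂ) := by
        apply Complex.ext
        · simp
        · simp [ht.1]
      have h2 : mv (yv (fun i => ((f i t.re : ℝ) : ℂ)) t) j = ((Wm f j t.re : ℝ) : ℂ) := by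
        conv_lhs => rw [htre]
        rw [Complex.ofReal_re]
        exact Wm_mv f j t.re
      rw [h2]
      simp only [Finset.range_zero, Finset.sum_empty, sub_zero, pow_zero, mul_one]
      rw [Complex.norm_real, Real.norm_eq_abs]
      exact h1
    · obtain ⟨k, rfl⟩ : ∃ k, P = k + 1 := ⟨P - 1, by omega⟩
      obtain ⟨B, hB, h⟩ := taylor a b 1 _ hG k
      refine ⟨B * ‖(fun _ : Fin 1 => (1 : ℝ))‖, fun θ t ht => ?_⟩
      have h1 := h (fun _ => 1) θ t.re θ.2 ht.2 k le_rfl
      rw [hcomb] at h1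
      have htre : t = ((t.re : ℝ) : ℂ) := by
        apply Complex.ext
        · simp
        · simp [ht.1]
      have h2 : mv (yv (fun i => ((f i t.re : ℝ) : ℂ)) t) j = ((Wm f j t.re : ℝ) : ℂ) := by
        conv_lhs => rw [htre]
        rw [Complex.ofReal_re]
        exact Wm_mv f j t.re
      rw [h2]
      have h3 : ((Wm f j t.re : ℝ) : ℂ) - ∑ p ∈ Finset.range (k + 1),
          ((iteratedDeriv p (Wm f j) (θ : ℝ) / (p.factorial : ℝ) : ℝ) : ℂ) * (t - ((θ : ℝ) : ℂ)) ^ p =
          ((Wm f j t.re - ∑ p ∈ Finset.range (k + 1), iteratedDeriv p (Wm f j) (θ : ℝ) / (p.factorial : ℝ) *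
            (t.re - θ) ^ p : ℝ) : ℂ) := by
        conv_lhs => rw [htre]
        push_cast
        simp
      have h4 : ‖t - ((θ : ℝ) : ℂ)‖ = |t.re - θ| := by
        conv_lhs => rw [htre]
        rw [← Complex.ofReal_sub, Complex.norm_real, Real.norm_eq_abs]
      rw [h3, Complex.norm_real, Real.norm_eq_abs, h4]
      exact h1
  nd := by
    classical
    intro 𝓜
    set n := 𝓜.card with hn
    set en : Fin n ≃ 𝓜 := 𝓜.equivFin.symm with hen
    have hG := good_Wm f hab han hf (fun k : Fin n => ((en k : 𝓜) : Option σ →₀ ℕ))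
      (fun k l h => en.injective (Subtype.ext h))
    obtain ⟨N, δ, hδ, h⟩ := ord a b n _ hG
    have hfac : (0 : ℝ) < N.factorial := by exact_mod_cast N.factorial_pos
    refine ⟨N, δ / (2 * N.factorial), by positivity, fun θ g => ?_⟩
    -- real and imaginary parts
    set x : Fin n → ℝ := fun k => (g (en k)).re with hx
    set y : Fin n → ℝ := fun k => (g (en k)).im with hy
    have hsum : ∀ p, ∑ j' ∈ 𝓜, g j' * ((iteratedDeriv p (Wm f j') (θ : ℝ) / (p.factorial : ℝ) : ℝ) : ℂ) =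
        ∑ k : Fin n, g (en k) * ((iteratedDeriv p (Wm f (en k)) (θ : ℝ) / (p.factorial : ℝ) : ℝ) : ℂ) := by
      intro p
      rw [← Finset.sum_coe_sort 𝓜, ← Equiv.sum_comp en]
    have hre : ∀ p, (∑ j' ∈ 𝓜, g j' * ((iteratedDeriv p (Wm f j') (θ : ℝ) / (p.factorial : ℝ) : ℝ) : ℂ)).re =
        iteratedDeriv p (comb (fun k : Fin n => Wm f (en k)) x) (θ : ℝ) / p.factorial := by
      intro p
      rw [hsum, Complex.re_sum, OrdX.itd hG _ _ θ.2, Finset.sum_div]
      refine Finset.sum_congr rfl fun k _ => ?_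
      rw [Complex.re_mul_ofReal]
      simp only [hx]
      ring
    have him : ∀ p, (∑ j' ∈ 𝓜, g j' * ((iteratedDeriv p (Wm f j') (θ : ℝ) / (p.factorial : ℝ) : ℝ) : ℂ)).im =
        iteratedDeriv p (comb (fun k : Fin n => Wm f (en k)) y) (θ : ℝ) / p.factorial := by
      intro p
      rw [hsum, Complex.im_sum, OrdX.itd hG _ _ θ.2, Finset.sum_div]
      refine Finset.sum_congr rfl fun k _ => ?_
      rw [Complex.im_mul_ofReal]
      simp only [hy]
      ring
    have hgle : ∀ j ∈ 𝓜, ‖g j‖ ≤ ‖x‖ + ‖y‖ := by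
      intro j hj
      obtain ⟨k, hk⟩ := en.surjective ⟨j, hj⟩
      have h1 : g j = g (en k) := by rw [hk]
      rw [h1]
      refine (Complex.norm_le_abs_re_add_abs_im _).trans (add_le_add ?_ ?_)
      · exact norm_le_pi_norm x k
      · exact norm_le_pi_norm y k
    have key : ∀ z : Fin n → ℝ, ∀ s ≤ N, δ * ‖z‖ ≤ |iteratedDeriv s (comb (fun k : Fin n => Wm f (en k)) z) (θ : ℝ)| →
        δ / N.factorial * ‖z‖ ≤ |iteratedDeriv s (comb (fun k : Fin n => Wm f (en k)) z) (θ : ℝ) / s.factorial| := by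
      intro z s hs h1
      rw [abs_div, Nat.abs_cast]
      have hsf : (0 : ℝ) < s.factorial := by exact_mod_cast s.factorial_pos
      have hle : (s.factorial : ℝ) ≤ N.factorial := by exact_mod_cast Nat.factorial_le hs
      calc δ / N.factorial * ‖z‖ = δ * ‖z‖ / N.factorial := by ring
        _ ≤ δ * ‖z‖ / s.factorial := div_le_div_of_nonneg_left (by positivity) hsf hle
        _ ≤ _ := div_le_div_of_nonneg_right h1 hsf.le
    rcases le_total ‖y‖ ‖x‖ with hxy | hxy
    · obtain ⟨s, hs, h1⟩ := h x θ θ.2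
      refine ⟨s, hs, fun j hj => ?_⟩
      calc δ / (2 * N.factorial) * ‖g j‖ ≤ δ / (2 * N.factorial) * (‖x‖ + ‖x‖) :=
            mul_le_mul_of_nonneg_left ((hgle j hj).trans (by linarith)) (by positivity)
        _ = δ / N.factorial * ‖x‖ := by field_simp; ring
        _ ≤ _ := key x s hs h1
        _ = |(∑ j' ∈ 𝓜, g j' * ((iteratedDeriv s (Wm f j') (θ : ℝ) / (s.factorial : ℝ) : ℝ) : ℂ)).re| := by
            rw [hre]
        _ ≤ _ := Complex.abs_re_le_norm _
    · obtain ⟨s, hs, h1⟩ := h y θ θ.2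
      refine ⟨s, hs, fun j hj => ?_⟩
      calc δ / (2 * N.factorial) * ‖g j‖ ≤ δ / (2 * N.factorial) * (‖y‖ + ‖y‖) :=
            mul_le_mul_of_nonneg_left ((hgle j hj).trans (by linarith)) (by positivity)
        _ = δ / N.factorial * ‖y‖ := by field_simp; ring
        _ ≤ _ := key y s hs h1
        _ = |(∑ j' ∈ 𝓜, g j' * ((iteratedDeriv s (Wm f j') (θ : ℝ) / (s.factorial : ℝ) : ℝ) : ℂ)).im| := by
            rw [him]
        _ ≤ _ := Complex.abs_im_le_norm _

end Pool.Agent.Y120
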