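import Pool.Agent.Y120.RealUni
import Pool.Agent.TH818.AP.Api

/-!
# Several rational variables: at most C T^(2(n-1)+ε) exceptional tuples
-/

set_option autoImplicit false
set_option linter.unusedSectionVars false

open Set Filter Topology

namespace Pool.Agent.Y120

open Pool.Agent.TH818.AR Pool.Agent.TH818.AP

variable {σ : Type} [Fintype σ] [DecidableEq σ] {h : Type} [Fintype h]

theorem gm_an (d : ℕ) (f : σ → ℝ → ℝ) {a b : ℝ} (han : ∀ i, AnalyticOnNhd ℝ (f i) (Icc a b)) (e : σ → Fin (d + 1)) :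
    AnalyticOnNhd ℝ (gm d f e) (Icc a b) := fun t ht =>
  Finset.analyticAt_fun_prod _ fun i _ => (han i t ht).pow _

/-- products of bounded functions are bounded -/
theorem mono_bdd {n d : ℕ} (f : Fin n → σ → ℝ → ℝ) (ξ : h → ℝ) (a b : Fin n → ℝ)
    (han : ∀ j i, AnalyticOnNhd ℝ (f j i) (Icc (a j) (b j))) :
    ∃ K : ℝ, ∀ t : Fin n → ℚ, (∀ j, (t j : ℝ) ∈ Icc (a j) (b j)) → ∀ e, |mono (fun j => gm d (f j)) ξ t e| ≤ K := by
  classical
  have h1 : ∀ (j : Fin n) (l : σ → Fin (d + 1)), ∃ C : ℝ, ∀ t ∈ Icc (a j) (b j), ‖gm d (f j) l t‖ ≤ C := fun j l =>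
    isCompact_Icc.exists_bound_of_continuousOn (gm_an d (f j) (han j) l).continuousOn
  choose C hC using h1
  refine ⟨∑ e : (Fin n → σ → Fin (d + 1)) × h, (∏ j, |C j (e.1 j)|) * |ξ e.2|, fun t ht e => ?_⟩
  have h2 : |mono (fun j => gm d (f j)) ξ t e| ≤ (∏ j, |C j (e.1 j)|) * |ξ e.2| := by
    rw [mono, abs_mul, Finset.abs_prod]
    refine mul_le_mul_of_nonneg_right (Finset.prod_le_prod (fun _ _ => abs_nonneg _) fun j _ => ?_) (abs_nonneg _)
    exact (hC j (e.1 j) _ (ht j)).trans (le_abs_self _)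
  refine h2.trans (Finset.single_le_sum (f := fun e : (Fin n → σ → Fin (d + 1)) × h =>
    (∏ j, |C j (e.1 j)|) * |ξ e.2|) (fun e _ => ?_) (Finset.mem_univ e))
  exact mul_nonneg (Finset.prod_nonneg fun _ _ => abs_nonneg _) (abs_nonneg _)

/-- the induction -/
theorem multi_eps0 (d : ℕ) (ξ : h → ℝ) (hξ : GoodConst ξ) (n : ℕ) :
    ∀ (f : Fin n → σ → ℝ → ℝ) (a b : Fin n → ℝ), (∀ j, a j < b j) →
    (∀ j i, AnalyticOnNhd ℝ (f j i) (Icc (a j) (b j))) → (∀ j, AInd (f j) (a j) (b j)) →
    ∀ (A ε : ℝ), 0 < ε → ∃ B C T0 : ℝ, 0 < C ∧ 1 ≤ T0 ∧ ∀ T : ℝ, T0 ≤ T →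
      ((ExcM (fun j => gm d (f j)) ξ a b A B T).ncard : ℝ) ≤ C * T ^ (2 * ((n : ℝ) - 1) + ε) := by
  classical
  induction n with
  | zero =>
    intro f a b hab han hf A ε hε
    obtain ⟨B, T1, hs⟩ := hξ A
    refine ⟨B + 1, 1, max T1 2, one_pos, le_max_of_le_right (by norm_num), ?_⟩
    intro T hT
    have hT2 : 2 ≤ T := (le_max_right _ _).trans hT
    have hTp : 0 < T := by linarith
    have hemp : ExcM (fun j => gm d (f j)) ξ a b A (B + 1) T = ∅ := by
      rw [Set.eq_empty_iff_forall_notMem]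
      rintro t ⟨-, c, hc0, hc, hcs⟩
      have h1 := hs T ((le_max_left _ _).trans hT) (fun e => c (Fin.elim0, e)) (by
        intro hcon
        apply hc0
        funext e
        have := congrFun hcon e.2
        simp only [Pi.zero_apply] at this
        rw [Pi.zero_apply, ← this]
        congr 1
        exact Prod.ext (Subsingleton.elim _ _) rfl) (fun e => hc _)
      have h2 : ∑ e : (Fin 0 → (σ → Fin (d + 1))) × h, (c e : ℝ) * mono (fun j => gm d (f j)) ξ t e =
          ∑ e, (c (Fin.elim0, e) : ℝ) * ξ e := by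
        rw [Fintype.sum_prod_type]
        rw [Fintype.sum_subsingleton _ (Fin.elim0 : Fin 0 → (σ → Fin (d + 1)))]
        refine Finset.sum_congr rfl fun e _ => ?_
        simp [mono]
      rw [h2] at hcs
      have h3 := h1.trans hcs
      have h4 : T ^ (-(B + 1)) < T ^ (-B) := Real.rpow_lt_rpow_of_exponent_lt (by linarith) (by linarith)
      linarith
    rw [hemp, Set.ncard_empty, Nat.cast_zero]
    positivity
  | succ n ih =>
    intro f a b hab han hf A ε hε
    obtain ⟨κ, hU⟩ := uniform_eps (f 0) (a 0) (b 0) (hab 0) (han 0) (hf 0)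
      ((Fin n → (σ → Fin (d + 1))) × h) d A ε hε
    obtain ⟨B', C', T1, hC', hT1, hih⟩ := ih (fun j => f j.succ) (fun j => a j.succ) (fun j => b j.succ)
      (fun j => hab _) (fun j => han _) (fun j => hf _) (max κ 0) ε hε
    obtain ⟨Kb, hKb⟩ := mono_bdd (d := d) (fun j : Fin n => f j.succ) ξ (fun j => a j.succ) (fun j => b j.succ)
      (fun j => han _)
    obtain ⟨B, C1, T2, hC1, hT2, hU'⟩ := hU (max B' 1)
    choose K hK0 hK using fun j => card_RT_gen (a j) (b j)
    have hKp : 0 < ∏ j : Fin n, K j.succ := Finset.prod_pos fun j _ => hK0 _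
    refine ⟨B, K 0 * C' + C1 * ∏ j : Fin n, K j.succ, max (max T1 T2) Kb, by have := hK0 0; positivity,
      le_max_of_le_left (le_max_of_le_left hT1), ?_⟩
    intro T hT
    have hTT1 : T1 ≤ T := (le_max_left _ _).trans ((le_max_left _ _).trans hT)
    have hTT2 : T2 ≤ T := (le_max_right _ _).trans ((le_max_left _ _).trans hT)
    have hTK : Kb ≤ T := (le_max_right _ _).trans hT
    have hTge : 1 ≤ T := hT1.trans hTT1
    have hTp : 0 < T := by linarith
    -- the key inclusion
    have hkey : ∀ t ∈ ExcM (fun j => gm d (f j)) ξ a b A B T, (fun j : Fin n => t j.succ) ∉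
        ExcM (fun j : Fin n => gm d (f j.succ)) ξ (fun j => a j.succ) (fun j => b j.succ) (max κ 0) B' T →
        ScaleMeas (mono (fun j : Fin n => gm d (f j.succ)) ξ fun j : Fin n => t j.succ) κ (max B' 1) T ∧
        t 0 ∈ ExcC (gm d (f 0)) (a 0) (b 0) A B T
          (mono (fun j : Fin n => gm d (f j.succ)) ξ fun j : Fin n => t j.succ) := by
      rintro t ⟨ht, c, hc0, hc, hcs⟩ hnot
      constructor
      · intro c' hc'0 hc'
        by_contra hcon
        rw [not_le] at hcon
        apply hnot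
        refine ⟨fun j => ht j.succ, c', hc'0, fun e => (hc' e).trans ?_, hcon.le.trans ?_⟩
        · exact Real.rpow_le_rpow_of_exponent_le hTge (le_max_left _ _)
        · exact Real.rpow_le_rpow_of_exponent_le hTge (neg_le_neg (le_max_left _ _))
      · refine ⟨(ht 0).1, (ht 0).2, fun l => c ((eqG n (σ → Fin (d + 1)) h).symm l), ?_, fun l => hc _, ?_⟩
        · intro hcon
          apply hc0
          funext e
          have := congrFun hcon (eqG n (σ → Fin (d + 1)) h e)
          simpa using this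
        · rw [← Equiv.sum_comp (eqG n (σ → Fin (d + 1)) h)]
          refine le_trans (le_of_eq ?_) hcs
          congr 1
          refine Finset.sum_congr rfl fun e _ => ?_
          rw [mono_succ]
          simp only [Equiv.symm_apply_apply]
    set S := (ExcM_fin (fun j => gm d (f j)) ξ a b A B T).toFinset with hS
    set S0 := (ExcM_fin (fun j : Fin n => gm d (f j.succ)) ξ (fun j => a j.succ) (fun j => b j.succ)
      (max κ 0) B' T).toFinset with hS0
    have hSmem : ∀ t, t ∈ S ↔ t ∈ ExcM (fun j => gm d (f j)) ξ a b A B T := fun t =>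
      (ExcM_fin _ _ _ _ _ _ _).mem_toFinset
    have hS0mem : ∀ t, t ∈ S0 ↔ t ∈ ExcM (fun j : Fin n => gm d (f j.succ)) ξ (fun j => a j.succ)
      (fun j => b j.succ) (max κ 0) B' T := fun t => (ExcM_fin _ _ _ _ _ _ _).mem_toFinset
    rw [Set.ncard_eq_toFinset_card _ (ExcM_fin (fun j => gm d (f j)) ξ a b A B T)]
    have hsplit := Finset.card_filter_add_card_filter_not (s := S)
      (p := fun t : Fin (n + 1) → ℚ => (fun j : Fin n => t j.succ) ∈ S0)
    -- first part
    have hp1 : ((S.filter fun t : Fin (n + 1) → ℚ => (fun j : Fin n => t j.succ) ∈ S0).card : ℝ) ≤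
        (K 0 * C') * T ^ (2 * (((n + 1 : ℕ) : ℝ) - 1) + ε) := by
      have hle : (S.filter fun t : Fin (n + 1) → ℚ => (fun j : Fin n => t j.succ) ∈ S0).card ≤
          (RT (a 0) (b 0) T ×ˢ S0).card := by
        refine Finset.card_le_card_of_injOn (fun t => (t 0, fun j : Fin n => t j.succ)) ?_ ?_
        · intro t ht
          rw [Finset.mem_coe, Finset.mem_filter] at ht
          rw [Finset.mem_coe, Finset.mem_product]
          exact ⟨mem_RT.2 (((hSmem t).1 ht.1).1 0), ht.2⟩
        · intro t _ t' _ heq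
          simp only [Prod.mk.injEq] at heq
          funext j
          refine Fin.cases heq.1 (fun i => congrFun heq.2 i) j
      rw [Finset.card_product] at hle
      have h0 : (S0.card : ℝ) ≤ C' * T ^ (2 * ((n : ℝ) - 1) + ε) := by
        have := hih T hTT1
        rwa [Set.ncard_eq_toFinset_card _ (ExcM_fin _ _ _ _ _ _ _)] at this
      calc ((S.filter fun t : Fin (n + 1) → ℚ => (fun j : Fin n => t j.succ) ∈ S0).card : ℝ)
          ≤ ((RT (a 0) (b 0) T).card : ℝ) * (S0.card : ℝ) := by exact_mod_cast hle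
        _ ≤ (K 0 * T ^ (2 : ℝ)) * (C' * T ^ (2 * ((n : ℝ) - 1) + ε)) :=
            mul_le_mul (hK 0 T hTge) h0 (by positivity) (by have := hK0 0; positivity)
        _ = (K 0 * C') * (T ^ (2 : ℝ) * T ^ (2 * ((n : ℝ) - 1) + ε)) := by ring
        _ = (K 0 * C') * T ^ (2 * (((n + 1 : ℕ) : ℝ) - 1) + ε) := by
            rw [← Real.rpow_add hTp]
            congr 2
            push_cast
            ring
    -- second part
    have hp2 : ((S.filter fun t : Fin (n + 1) → ℚ => ¬ (fun j : Fin n => t j.succ) ∈ S0).card : ℝ) ≤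
        (C1 * ∏ j : Fin n, K j.succ) * T ^ (2 * (((n + 1 : ℕ) : ℝ) - 1) + ε) := by
      set F := S.filter fun t : Fin (n + 1) → ℚ => ¬ (fun j : Fin n => t j.succ) ∈ S0 with hF
      have hmaps : ∀ t ∈ F, (fun t : Fin (n + 1) → ℚ => fun j : Fin n => t j.succ) t ∈
          Fintype.piFinset fun j : Fin n => RT (a j.succ) (b j.succ) T := by
        intro t ht
        rw [Fintype.mem_piFinset]
        exact fun j => mem_RT.2 (((hSmem t).1 (Finset.mem_filter.1 ht).1).1 j.succ)
      have hfib : ∀ t' ∈ Fintype.piFinset fun j : Fin n => RT (a j.succ) (b j.succ) T,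
          (F.filter fun t => (fun j : Fin n => t j.succ) = t').card ≤ ⌊C1 * T ^ ε⌋₊ := by
        intro t' _
        rcases (F.filter fun t => (fun j : Fin n => t j.succ) = t').eq_empty_or_nonempty with hemp | ⟨t1, ht1⟩
        · rw [hemp]; simp
        rw [Finset.mem_filter] at ht1
        have hmemF : ∀ t ∈ F, t ∈ ExcM (fun j => gm d (f j)) ξ a b A B T ∧
            (fun j : Fin n => t j.succ) ∉ ExcM (fun j : Fin n => gm d (f j.succ)) ξ (fun j => a j.succ)
              (fun j => b j.succ) (max κ 0) B' T := by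
          intro t ht
          rw [hF, Finset.mem_filter] at ht
          exact ⟨(hSmem t).1 ht.1, fun hcon => ht.2 ((hS0mem _).2 hcon)⟩
        have hsm := (hkey t1 (hmemF t1 ht1.1).1 (hmemF t1 ht1.1).2).1
        have hbd : ∀ e, |mono (fun j : Fin n => gm d (f j.succ)) ξ (fun j : Fin n => t1 j.succ) e| ≤
            T ^ (max B' 1) := by
          intro e
          refine (hKb _ (fun j => ((hmemF t1 ht1.1).1.1 j.succ).1) e).trans (hTK.trans ?_)
          calc T = T ^ (1 : ℝ) := (Real.rpow_one T).symm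
            _ ≤ T ^ (max B' 1) := Real.rpow_le_rpow_of_exponent_le hTge (le_max_right _ _)
        rw [ht1.2] at hsm hbd
        obtain ⟨hfin, hnc⟩ := hU' T hTT2 _ hbd hsm
        rw [Set.ncard_eq_toFinset_card _ hfin] at hnc
        refine le_trans ?_ (Nat.le_floor hnc)
        refine Finset.card_le_card_of_injOn (fun t => t 0) ?_ ?_
        · intro t ht
          rw [Finset.mem_coe, Finset.mem_filter] at ht
          rw [Finset.mem_coe, Set.Finite.mem_toFinset]
          have := (hkey t (hmemF t ht.1).1 (hmemF t ht.1).2).2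
          rwa [ht.2] at this
        · intro t ht t2 ht2 heq
          rw [Finset.mem_coe, Finset.mem_filter] at ht ht2
          funext j
          refine Fin.cases heq (fun i => ?_) j
          exact congrFun (ht.2.trans ht2.2.symm) i
      have hcardF := Finset.card_le_mul_card_image_of_maps_to hmaps _ hfib
      rw [Fintype.card_piFinset] at hcardF
      have h1 : (F.card : ℝ) ≤ (⌊C1 * T ^ ε⌋₊ : ℝ) * ∏ j : Fin n, ((RT (a j.succ) (b j.succ) T).card : ℝ) := by
        exact_mod_cast hcardF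
      have h2 : (⌊C1 * T ^ ε⌋₊ : ℝ) ≤ C1 * T ^ ε := Nat.floor_le (by positivity)
      have h3 : ∏ j : Fin n, ((RT (a j.succ) (b j.succ) T).card : ℝ) ≤ ∏ j : Fin n, (K j.succ * T ^ (2 : ℝ)) :=
        Finset.prod_le_prod (fun j _ => by positivity) (fun j _ => hK j.succ T hTge)
      calc (F.card : ℝ) ≤ (⌊C1 * T ^ ε⌋₊ : ℝ) * ∏ j : Fin n, ((RT (a j.succ) (b j.succ) T).card : ℝ) := h1
        _ ≤ (C1 * T ^ ε) * ∏ j : Fin n, (K j.succ * T ^ (2 : ℝ)) :=
            mul_le_mul h2 h3 (Finset.prod_nonneg fun j _ => by positivity) (by positivity)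
        _ = (C1 * ∏ j : Fin n, K j.succ) * (T ^ ε * (T ^ (2 : ℝ)) ^ n) := by
            rw [Finset.prod_mul_distrib, Finset.prod_const, Finset.card_univ, Fintype.card_fin]; ring
        _ = (C1 * ∏ j : Fin n, K j.succ) * T ^ (2 * (((n + 1 : ℕ) : ℝ) - 1) + ε) := by
            rw [← Real.rpow_natCast (T ^ (2 : ℝ)) n, ← Real.rpow_mul hTp.le, ← Real.rpow_add hTp]
            congr 2
            push_cast
            ring
    have hsum : (S.card : ℝ) = ((S.filter fun t : Fin (n + 1) → ℚ => (fun j : Fin n => t j.succ) ∈ S0).card : ℝ) +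
        ((S.filter fun t : Fin (n + 1) → ℚ => ¬ (fun j : Fin n => t j.succ) ∈ S0).card : ℝ) := by
      exact_mod_cast hsplit.symm
    rw [hsum, add_mul]
    exact add_le_add hp1 hp2

/-- Several parameters, monomials with exponents at most `d` in analytic functions which are algebraically
independent over `ℝ(t)`: at most `C T^(2(n-1)+ε)` exceptional tuples. -/
theorem multi_eps (d : ℕ) (ξ : h → ℝ) (hξ : GoodConst ξ) (n : ℕ) (hn : 1 ≤ n)
    (f : Fin n → σ → ℝ → ℝ) (a b : Fin n → ℝ) (hab : ∀ j, a j < b j)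
    (han : ∀ j i, AnalyticOnNhd ℝ (f j i) (Icc (a j) (b j))) (hf : ∀ j, AInd (f j) (a j) (b j))
    (A ε : ℝ) (hε : 0 < ε) :
    ∃ B C : ℝ, ∀ T : ℝ, 1 ≤ T → (ExcM (fun j => gm d (f j)) ξ a b A B T).Finite ∧
      ((ExcM (fun j => gm d (f j)) ξ a b A B T).ncard : ℝ) ≤ C * T ^ (2 * ((n : ℝ) - 1) + ε) := by
  classical
  obtain ⟨B, C, T0, hC, hT0, h⟩ := multi_eps0 d ξ hξ n f a b hab han hf A ε hε
  set C0 : ℝ := ((Fintype.piFinset fun j : Fin n => RT (a j) (b j) T0).card : ℝ) with hC0
  refine ⟨B, C + C0, ?_⟩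
  intro T hT
  refine ⟨ExcM_fin _ ξ a b A B T, ?_⟩
  have hn1 : (1 : ℝ) ≤ n := by exact_mod_cast hn
  have hTβ : 1 ≤ T ^ (2 * ((n : ℝ) - 1) + ε) := Real.one_le_rpow hT (by nlinarith)
  have hC00 : 0 ≤ C0 := by positivity
  rcases lt_or_ge T T0 with hlt | hge
  · have h1 : ExcM (fun j => gm d (f j)) ξ a b A B T ⊆
        (Fintype.piFinset fun j : Fin n => RT (a j) (b j) T0 : Finset (Fin n → ℚ)) := by
      intro t ht
      rw [Finset.mem_coe, Fintype.mem_piFinset]
      exact fun j => mem_RT.2 ⟨(ht.1 j).1, (ht.1 j).2.trans hlt.le⟩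
    have h2 := Set.ncard_le_ncard h1 (Finset.finite_toSet _)
    rw [Set.ncard_coe_finset] at h2
    have h3 : ((ExcM (fun j => gm d (f j)) ξ a b A B T).ncard : ℝ) ≤ C0 := by rw [hC0]; exact_mod_cast h2
    nlinarith
  · have := h T hge
    nlinarith

end Pool.Agent.Y120
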