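import Pool.Agent.Y120.RealMulti
import Pool.Agent.TH659.AQ.PolysC

/-!
# Polynomial relations in `π` and the values of analytic functions: T^ε bounds
-/

set_option autoImplicit false
set_option linter.unusedSectionVars false

namespace Pool.Agent.Y120

open Pool.Agent.TH818.AP Pool.Agent.TH659.AQ

variable {κ : Type} [Fintype κ] [DecidableEq κ] {n d : ℕ}

theorem aeval_eqR (f : Option (Fin n × κ) → ℝ) (P : MvPolynomial (Option (Fin n × κ)) ℤ)
    (hP : ∀ x, P.degreeOf x ≤ d) : MvPolynomial.aeval f P =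
      ∑ e : (Fin n → κ → Fin (d + 1)) × Fin (d + 1), ((P.coeff (sG e) : ℤ) : ℝ) *
        ((∏ j, ∏ i, f (some (j, i)) ^ (e.1 j i : ℕ)) * f none ^ (e.2 : ℕ)) := by
  classical
  have h1 : ∀ e : (Fin n → κ → Fin (d + 1)) × Fin (d + 1),
      (∏ j, ∏ i, f (some (j, i)) ^ (e.1 j i : ℕ)) * f none ^ (e.2 : ℕ) = ∏ x, f x ^ (sG e x) := by
    intro e
    rw [Fintype.prod_option, Fintype.prod_prod_type, mul_comm]
    simp [sG]
  simp only [h1]
  rw [MvPolynomial.aeval_def, MvPolynomial.eval₂_eq']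
  rw [← Finset.sum_image (f := fun u : Option (Fin n × κ) →₀ ℕ => ((P.coeff u : ℤ) : ℝ) * ∏ x, f x ^ (u x))
    (fun a _ b _ hab => sG_inj hab)]
  refine Finset.sum_subset_zero_on_sdiff ?_ ?_ ?_
  · intro u hu
    rw [Finset.mem_image]
    obtain ⟨e, he⟩ := exists_sG P hP u hu
    exact ⟨e, Finset.mem_univ _, he⟩
  · intro u hu
    rw [Finset.mem_sdiff, MvPolynomial.notMem_support_iff] at hu
    rw [hu.2]
    simp
  · intro u _
    simp

/-- the values -/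
noncomputable def vR (f : Fin n → κ → ℝ → ℝ) (q : Fin n → ℚ) (x : Option (Fin n × κ)) : ℝ :=
  x.elim Real.pi fun y => f y.1 y.2 (q y.1)

/-- the exceptional tuples -/
def ExR (d : ℕ) (f : Fin n → κ → ℝ → ℝ) (a b : Fin n → ℝ) (A B T : ℝ) : Set (Fin n → ℚ) :=
  {q | (∀ j, a j ≤ q j ∧ q j ≤ b j ∧ ((q j).den : ℝ) ≤ T) ∧ ∃ P : MvPolynomial (Option (Fin n × κ)) ℤ, P ≠ 0 ∧
    (∀ x, P.degreeOf x ≤ d) ∧ (∀ u, |((P.coeff u : ℤ) : ℝ)| ≤ T ^ A) ∧ |MvPolynomial.aeval (vR f q) P| ≤ T ^ (-B)}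

/-- The functions `f_(j,i)`, `i ∈ κ`, are analytic on `[a_j,b_j]` and algebraically independent over `ℝ(t)`:
for all `n`-tuples of rationals of denominators at most `T` except at most `C T^(2(n-1)+ε)`, every nonzero integer
polynomial of degree at most `d` in each variable, with coefficients at most `T^A`, takes at `π` and the
`f_(j,i)(q_j)` a value larger than `T^(-B)` in absolute value. -/
theorem polys_eps (f : Fin n → κ → ℝ → ℝ) (a b : Fin n → ℝ) (hab : ∀ j, a j < b j)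
    (han : ∀ j i, AnalyticOnNhd ℝ (f j i) (Set.Icc (a j) (b j))) (hf : ∀ j, AInd (f j) (a j) (b j))
    (hn : 1 ≤ n) (A ε : ℝ) (hε : 0 < ε) :
    ∃ B C : ℝ, ∀ T : ℝ, 1 ≤ T → (ExR d f a b A B T).Finite ∧
      ((ExR d f a b A B T).ncard : ℝ) ≤ C * T ^ (2 * ((n : ℝ) - 1) + ε) := by
  classical
  obtain ⟨B, C, h⟩ := multi_eps d (fun e : Fin (d + 1) => Real.pi ^ (e : ℕ)) (goodConst_pi d) n hn f a b hab han hf
    A ε hε
  refine ⟨B, C, fun T hT => ?_⟩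
  obtain ⟨hfin, hle⟩ := h T hT
  have hsub : ExR d f a b A B T ⊆ ExcM (fun j => gm d (f j)) (fun e : Fin (d + 1) => Real.pi ^ (e : ℕ)) a b A B T := by
    rintro q ⟨hq, P, hP0, hPd, hPc, hPs⟩
    refine ⟨fun j => ⟨⟨(hq j).1, (hq j).2.1⟩, (hq j).2.2⟩, fun e => P.coeff (sG e), ?_, fun e => hPc _, ?_⟩
    · intro h0
      obtain ⟨v, hv⟩ := MvPolynomial.ne_zero_iff.1 hP0
      obtain ⟨e0, he0⟩ := exists_sG P hPd v (MvPolynomial.mem_support_iff.2 hv)
      have := congrFun h0 e0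
      simp only [Pi.zero_apply] at this
      rw [he0] at this
      exact hv this
    · rw [aeval_eqR _ P hPd] at hPs
      refine le_trans (le_of_eq ?_) hPs
      congr 1
  refine ⟨hfin.subset hsub, le_trans ?_ hle⟩
  exact_mod_cast Set.ncard_le_ncard hsub hfin

/-- some imaginary values: the values `i^(s k) f_(j,k)(q_j)` -/
noncomputable def vCx (f : Fin n → κ → ℝ → ℝ) (s : κ → ℕ) (q : Fin n → ℚ) (x : Option (Fin n × κ)) : ℂ :=
  x.elim (Real.pi : ℂ) fun y => Complex.I ^ s y.2 * ((f y.1 y.2 (q y.1) : ℝ) : ℂ)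

/-- the exceptional tuples, complex version -/
def ExCx (d : ℕ) (f : Fin n → κ → ℝ → ℝ) (s : κ → ℕ) (a b : Fin n → ℝ) (A B T : ℝ) : Set (Fin n → ℚ) :=
  {q | (∀ j, a j ≤ q j ∧ q j ≤ b j ∧ ((q j).den : ℝ) ≤ T) ∧ ∃ P : MvPolynomial (Option (Fin n × κ)) ℤ, P ≠ 0 ∧
    (∀ x, P.degreeOf x ≤ d) ∧ (∀ u, |((P.coeff u : ℤ) : ℝ)| ≤ T ^ A) ∧ ‖MvPolynomial.aeval (vCx f s q) P‖ ≤ T ^ (-B)}

theorem partx (f : Fin n → κ → ℝ → ℝ) (s : κ → ℕ) (q : Fin n → ℚ) (P : MvPolynomial (Option (Fin n × κ)) ℤ)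
    (hP : ∀ x, P.degreeOf x ≤ d) :
    (MvPolynomial.aeval (vCx f s q) P).re = ∑ e : (Fin n → κ → Fin (d + 1)) × Fin (d + 1),
      ((P.coeff (sG e) * rp (∑ j, ∑ i, s i * (e.1 j i : ℕ)) : ℤ) : ℝ) *
        mono (fun j => gm d (f j)) (fun e : Fin (d + 1) => Real.pi ^ (e : ℕ)) q e ∧
    (MvPolynomial.aeval (vCx f s q) P).im = ∑ e : (Fin n → κ → Fin (d + 1)) × Fin (d + 1),
      ((P.coeff (sG e) * ip (∑ j, ∑ i, s i * (e.1 j i : ℕ)) : ℤ) : ℝ) *
        mono (fun j => gm d (f j)) (fun e : Fin (d + 1) => Real.pi ^ (e : ℕ)) q e := by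
  have h1 : MvPolynomial.aeval (vCx f s q) P = ∑ e : (Fin n → κ → Fin (d + 1)) × Fin (d + 1),
      (((((P.coeff (sG e) : ℤ) : ℝ) * mono (fun j => gm d (f j))
          (fun e : Fin (d + 1) => Real.pi ^ (e : ℕ)) q e : ℝ)) : ℂ) *
        Complex.I ^ (∑ j, ∑ i, s i * (e.1 j i : ℕ)) := by
    rw [aeval_eqG _ P hP]
    refine Finset.sum_congr rfl fun e _ => ?_
    simp only [vCx, Option.elim, mul_pow, Finset.prod_mul_distrib, ← pow_mul, Finset.prod_pow_eq_pow_sum, mono, gm]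
    push_cast
    ring
  rw [h1, Complex.re_sum, Complex.im_sum]
  refine ⟨Finset.sum_congr rfl fun e _ => ?_, Finset.sum_congr rfl fun e _ => ?_⟩
  · rw [Complex.re_ofReal_mul, (I_pow _).1]
    push_cast
    ring
  · rw [Complex.im_ofReal_mul, (I_pow _).2]
    push_cast
    ring

theorem polysC_eps (f : Fin n → κ → ℝ → ℝ) (s : κ → ℕ) (a b : Fin n → ℝ) (hab : ∀ j, a j < b j)
    (han : ∀ j i, AnalyticOnNhd ℝ (f j i) (Set.Icc (a j) (b j))) (hf : ∀ j, AInd (f j) (a j) (b j))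
    (hn : 1 ≤ n) (A ε : ℝ) (hε : 0 < ε) :
    ∃ B C : ℝ, ∀ T : ℝ, 1 ≤ T → (ExCx d f s a b A B T).Finite ∧
      ((ExCx d f s a b A B T).ncard : ℝ) ≤ C * T ^ (2 * ((n : ℝ) - 1) + ε) := by
  classical
  obtain ⟨B, C, h⟩ := multi_eps d (fun e : Fin (d + 1) => Real.pi ^ (e : ℕ)) (goodConst_pi d) n hn f a b hab han hf
    A ε hε
  refine ⟨B, C, fun T hT => ?_⟩
  obtain ⟨hfin, hle⟩ := h T hT
  have hsub : ExCx d f s a b A B T ⊆
      ExcM (fun j => gm d (f j)) (fun e : Fin (d + 1) => Real.pi ^ (e : ℕ)) a b A B T := by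
    rintro q ⟨hq, P, hP0, hPd, hPc, hPs⟩
    refine ⟨fun j => ⟨⟨(hq j).1, (hq j).2.1⟩, (hq j).2.2⟩, ?_⟩
    obtain ⟨h1, h2⟩ := partx f s q P hPd
    obtain ⟨v, hv⟩ := MvPolynomial.ne_zero_iff.1 hP0
    obtain ⟨e0, he0⟩ := exists_sG P hPd v (MvPolynomial.mem_support_iff.2 hv)
    have hbound : ∀ ρ : ℕ → ℤ, (∀ k, |ρ k| ≤ 1) → ∀ e : (Fin n → κ → Fin (d + 1)) × Fin (d + 1),
        |((P.coeff (sG e) * ρ (∑ j, ∑ i, s i * (e.1 j i : ℕ)) : ℤ) : ℝ)| ≤ T ^ A := by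
      intro ρ hρ e
      push_cast
      rw [abs_mul]
      have h3 : |((ρ (∑ j, ∑ i, s i * (e.1 j i : ℕ)) : ℤ) : ℝ)| ≤ 1 := by exact_mod_cast hρ _
      calc |((P.coeff (sG e) : ℤ) : ℝ)| * |((ρ (∑ j, ∑ i, s i * (e.1 j i : ℕ)) : ℤ) : ℝ)|
          ≤ |((P.coeff (sG e) : ℤ) : ℝ)| * 1 := by gcongr
        _ ≤ T ^ A := by rw [mul_one]; exact hPc _
    rcases rp_or_ip (∑ j, ∑ i, s i * (e0.1 j i : ℕ)) with hr | hi
    · refine ⟨fun e => P.coeff (sG e) * rp (∑ j, ∑ i, s i * (e.1 j i : ℕ)), ?_, hbound rp rp_le, ?_⟩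
      · intro h0
        have := congrFun h0 e0
        simp only [Pi.zero_apply, mul_eq_zero] at this
        rcases this with h | h
        · rw [he0] at h
          exact hv h
        · exact hr h
      · rw [← h1]
        exact (Complex.abs_re_le_norm _).trans hPs
    · refine ⟨fun e => P.coeff (sG e) * ip (∑ j, ∑ i, s i * (e.1 j i : ℕ)), ?_, hbound ip ip_le, ?_⟩
      · intro h0
        have := congrFun h0 e0
        simp only [Pi.zero_apply, mul_eq_zero] at this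
        rcases this with h | h
        · rw [he0] at h
          exact hv h
        · exact hi h
      · rw [← h2]
        exact (Complex.abs_im_le_norm _).trans hPs
  refine ⟨hfin.subset hsub, le_trans ?_ hle⟩
  exact_mod_cast Set.ncard_le_ncard hsub hfin

end Pool.Agent.Y120
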