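import Mathlib

/-!
# Hilbert functions and a relation: the algebra behind the T^ε bound
-/

set_option autoImplicit false

open Finset

namespace Pool.Agent.Y120

/-- monomials -/
def cm {ι Ω : Type} [Fintype ι] [CommMonoid Ω] (c : ι → Ω) (μ : ι → ℕ) : Ω := ∏ i, c i ^ μ i

theorem cm_add {ι Ω : Type} [Fintype ι] [CommMonoid Ω] (c : ι → Ω) (μ ν : ι → ℕ) :
    cm c (μ + ν) = cm c μ * cm c ν := by
  simp [cm, pow_add, Finset.prod_mul_distrib]

theorem cm_single {ι Ω : Type} [Fintype ι] [DecidableEq ι] [CommMonoid Ω] (c : ι → Ω) (i : ι) :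
    cm c (Pi.single i 1) = c i := by
  classical
  rw [cm, Finset.prod_eq_single i]
  · simp
  · intro j _ hj
    simp [hj]
  · simp

/-- common denominators -/
theorem common_denom {F Ω σ ι : Type} [Field F] [Field Ω] [Algebra F Ω] (y : σ → Ω)
    (s : Finset ι) (μ : ι → Ω) (hμ : ∀ i ∈ s, μ i ∈ IntermediateField.adjoin F (Set.range y)) :
    ∃ q : MvPolynomial σ F, MvPolynomial.aeval y q ≠ 0 ∧ ∃ R : ι → MvPolynomial σ F,
      ∀ i ∈ s, μ i * MvPolynomial.aeval y q = MvPolynomial.aeval y (R i) := by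
  classical
  induction s using Finset.induction_on with
  | empty => exact ⟨1, by simp, fun _ => 0, by simp⟩
  | insert a s ha ih =>
    obtain ⟨q, hq, R, hR⟩ := ih fun i hi => hμ i (Finset.mem_insert_of_mem hi)
    obtain ⟨r, t, hrt⟩ := (IntermediateField.mem_adjoin_range_iff F y (μ a)).1 (hμ a (Finset.mem_insert_self a s))
    by_cases ht : MvPolynomial.aeval y t = 0
    · refine ⟨q, hq, Function.update R a 0, ?_⟩
      intro i hi
      rcases Finset.mem_insert.1 hi with rfl | hi'
      · rw [hrt, ht]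
        simp
      · have : i ≠ a := by
          rintro rfl
          exact ha hi'
        rw [Function.update_of_ne this]
        exact hR i hi'
    · refine ⟨q * t, by rw [map_mul]; exact mul_ne_zero hq ht, Function.update (fun i => R i * t) a (r * q), ?_⟩
      intro i hi
      rcases Finset.mem_insert.1 hi with rfl | hi'
      · rw [Function.update_self, hrt, map_mul, map_mul]
        field_simp
      · have : i ≠ a := by
          rintro rfl
          exact ha hi'
        rw [Function.update_of_ne this]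
        simp only [map_mul]
        rw [← mul_assoc, hR i hi']

section
variable {F Ω σ ι : Type} [Field F] [Field Ω] [Algebra F Ω] [Fintype ι]

/-- the span of the monomials of degree `δ` -/
def VV (F : Type) {Ω ι : Type} [Field F] [Field Ω] [Algebra F Ω] [Fintype ι] (c : ι → Ω) (δ : ℕ) : Submodule F Ω :=
  Submodule.span F (cm c '' {μ | ∑ i, μ i = δ})

theorem fin_deg (δ : ℕ) : {μ : ι → ℕ | ∑ i, μ i = δ}.Finite := by
  classical
  refine (Set.Finite.subset (Finset.finite_toSet (Fintype.piFinset fun _ : ι => Finset.range (δ + 1))) ?_)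
  intro μ hμ
  rw [Finset.mem_coe, Fintype.mem_piFinset]
  intro i
  rw [Finset.mem_range]
  have : μ i ≤ ∑ i, μ i := Finset.single_le_sum (fun _ _ => Nat.zero_le _) (Finset.mem_univ i)
  have h2 : ∑ i, μ i = δ := hμ
  omega

instance (c : ι → Ω) (δ : ℕ) : FiniteDimensional F (VV F c δ) :=
  FiniteDimensional.span_of_finite F ((fin_deg δ).image _)

theorem VV_card (c : ι → Ω) (δ : ℕ) : Module.finrank F (VV F c δ) ≤ (δ + 1) ^ Fintype.card ι := by
  classical
  have h1 : Module.finrank F (VV F c δ) ≤ ((fin_deg (ι := ι) δ).image (cm c)).toFinset.card := by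
    have : Fintype (cm c '' {μ : ι → ℕ | ∑ i, μ i = δ}) := ((fin_deg δ).image _).fintype
    have h2 := finrank_span_le_card (R := F) (cm c '' {μ | ∑ i, μ i = δ})
    refine h2.trans (le_of_eq ?_)
    congr 1
    ext
    simp
  refine h1.trans ?_
  have h2 : ((fin_deg (ι := ι) δ).image (cm c)).toFinset ⊆
      (Fintype.piFinset fun _ : ι => Finset.range (δ + 1)).image (cm c) := by
    intro x hx
    rw [Set.Finite.mem_toFinset] at hx
    obtain ⟨μ, hμ, rfl⟩ := hx
    refine Finset.mem_image_of_mem _ ?_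
    rw [Fintype.mem_piFinset]
    intro i
    rw [Finset.mem_range]
    have : μ i ≤ ∑ i, μ i := Finset.single_le_sum (fun _ _ => Nat.zero_le _) (Finset.mem_univ i)
    have h2 : ∑ i, μ i = δ := hμ
    omega
  refine (Finset.card_le_card h2).trans (Finset.card_image_le.trans ?_)
  rw [Fintype.card_piFinset]
  simp

theorem VV_zero (c : ι → Ω) : 1 ≤ Module.finrank F (VV F c 0) := by
  have h1 : (1 : Ω) ∈ VV F c 0 := Submodule.subset_span ⟨0, by simp, by simp [cm]⟩
  have h2 : (⟨1, h1⟩ : VV F c 0) ≠ 0 := by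
    intro h
    exact one_ne_zero (congrArg Subtype.val h)
  have : Nontrivial (VV F c 0) := ⟨⟨_, _, h2⟩⟩
  exact Module.finrank_pos

theorem VV_mul (c : ι → Ω) (δ : ℕ) {x v : Ω} (hx : x ∈ Submodule.span F (Set.range c)) (hv : v ∈ VV F c δ) :
    x * v ∈ VV F c (δ + 1) := by
  classical
  induction hx using Submodule.span_induction with
  | mem x hx =>
    obtain ⟨i, rfl⟩ := hx
    induction hv using Submodule.span_induction with
    | mem v hv =>
      obtain ⟨μ, hμ, rfl⟩ := hv
      refine Submodule.subset_span ⟨Pi.single i 1 + μ, ?_, ?_⟩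
      · have h2 : ∑ i, μ i = δ := hμ
        simp only [Set.mem_ofPred_eq, Pi.add_apply, Finset.sum_add_distrib, h2]
        rw [Finset.sum_pi_single']
        simp [add_comm]
      · rw [cm_add, cm_single]
    | zero => simp
    | add a b _ _ ha hb => rw [mul_add]; exact Submodule.add_mem _ ha hb
    | smul r a _ ha => rw [mul_smul_comm]; exact Submodule.smul_mem _ _ ha
  | zero => simp
  | add a b _ _ ha hb => rw [add_mul]; exact Submodule.add_mem _ ha hb
  | smul r a _ ha => rw [smul_mul_assoc]; exact Submodule.smul_mem _ _ ha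

/-- the rank drop -/
theorem star_rank (u : σ → Ω) (hu : AlgebraicIndependent F u) (c : ι → Ω) (L : MvPolynomial σ Ω) (hL0 : L ≠ 0)
    (hLu : MvPolynomial.eval u L = 0) (hLc : ∀ e, L.coeff e ∈ Submodule.span F (Set.range c)) (δ : ℕ) :
    ∃ 𝒮 : Finset (ι → ℕ), (∀ ν ∈ 𝒮, ∑ i, ν i = δ + 1) ∧
      𝒮.card + Module.finrank F (VV F c δ) ≤ Module.finrank F (VV F c (δ + 1)) ∧
      ∀ μ : ι → ℕ, ∑ i, μ i = δ + 1 →
        cm c μ ∈ Submodule.span (IntermediateField.adjoin F (Set.range u)) (cm c '' (𝒮 : Set (ι → ℕ))) := by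
  classical
  set M := IntermediateField.adjoin F (Set.range u) with hM
  set H := Module.finrank F (VV F c (δ + 1)) with hH
  set H₁ := Module.finrank F (VV F c δ) with hH₁
  set b := Module.finBasis F (VV F c (δ + 1)) with hb
  set a := Module.finBasis F (VV F c δ) with ha
  have hmem : ∀ (i : Fin H₁) (e : σ →₀ ℕ), L.coeff e * (a i : Ω) ∈ VV F c (δ + 1) :=
    fun i e => VV_mul c δ (hLc e) (a i).2
  -- the polynomials
  set Pf : Fin H₁ → Fin H → MvPolynomial σ F := fun i j =>
    ∑ e ∈ L.support, MvPolynomial.monomial e (b.repr ⟨_, hmem i e⟩ j) with hPf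
  have hPcoeff : ∀ i j e, (Pf i j).coeff e = b.repr ⟨_, hmem i e⟩ j := by
    intro i j e
    rw [hPf]
    simp only [MvPolynomial.coeff_sum, MvPolynomial.coeff_monomial]
    rw [Finset.sum_ite_eq']
    split_ifs with h
    · rfl
    · have h0 : L.coeff e = 0 := MvPolynomial.notMem_support_iff.1 h
      have h1 : (⟨_, hmem i e⟩ : VV F c (δ + 1)) = 0 := by
        apply Subtype.ext
        simp [h0]
      rw [h1]
      simp
  have hPsum : ∀ i, ∑ j, MvPolynomial.map (algebraMap F Ω) (Pf i j) * MvPolynomial.C (b j : Ω) =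
      L * MvPolynomial.C (a i : Ω) := by
    intro i
    ext e
    rw [MvPolynomial.coeff_sum, mul_comm L, MvPolynomial.coeff_C_mul, mul_comm (a i : Ω)]
    have h0 : ∀ j, MvPolynomial.coeff e (MvPolynomial.map (algebraMap F Ω) (Pf i j) * MvPolynomial.C (b j : Ω)) =
        algebraMap F Ω (b.repr ⟨_, hmem i e⟩ j) * (b j : Ω) := by
      intro j
      rw [mul_comm, MvPolynomial.coeff_C_mul, MvPolynomial.coeff_map, hPcoeff, mul_comm]
    simp only [h0]
    have h1 := b.sum_repr ⟨_, hmem i e⟩
    have h2 := congrArg Subtype.val h1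
    simp only [AddSubmonoidClass.coe_finsetSum, Submodule.coe_smul, Algebra.smul_def] at h2
    exact h2
  -- evaluation
  have hPu : ∀ i, ∑ j, MvPolynomial.aeval u (Pf i j) * (b j : Ω) = 0 := by
    intro i
    have h1 := congrArg (MvPolynomial.eval u) (hPsum i)
    rw [map_mul, hLu, zero_mul, map_sum] at h1
    rw [← h1]
    refine Finset.sum_congr rfl fun j _ => ?_
    rw [map_mul, MvPolynomial.eval_C, MvPolynomial.eval_map, MvPolynomial.aeval_def]
  -- members of M
  have hmemM : ∀ p : MvPolynomial σ F, MvPolynomial.aeval u p ∈ M := by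
    intro p
    rw [hM, IntermediateField.mem_adjoin_range_iff]
    exact ⟨p, 1, by simp⟩
  set v : Fin H₁ → (Fin H → M) := fun i j => ⟨MvPolynomial.aeval u (Pf i j), hmemM _⟩ with hv
  have hvli : LinearIndependent M v := by
    rw [Fintype.linearIndependent_iff]
    intro g hg
    obtain ⟨q, hq, R, hR⟩ := common_denom (F := F) u (Finset.univ : Finset (Fin H₁)) (fun i => (g i : Ω))
      (fun i _ => (g i).2)
    have h1 : ∀ j, ∑ i, R i * Pf i j = 0 := by
      intro j
      apply (algebraicIndependent_iff_injective_aeval.1 hu)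
      rw [map_zero, map_sum]
      have h2 := congrFun hg j
      have h3 := congrArg (Subtype.val) h2
      simp only [Finset.sum_apply, Pi.smul_apply, smul_eq_mul, Pi.zero_apply, AddSubmonoidClass.coe_finsetSum,
        MulMemClass.coe_mul, ZeroMemClass.coe_zero, hv] at h3
      calc ∑ i, MvPolynomial.aeval u (R i * Pf i j)
          = ∑ i, (g i : Ω) * MvPolynomial.aeval u q * MvPolynomial.aeval u (Pf i j) := by
            refine Finset.sum_congr rfl fun i _ => ?_
            rw [map_mul, ← hR i (Finset.mem_univ i)]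
        _ = MvPolynomial.aeval u q * ∑ i, (g i : Ω) * MvPolynomial.aeval u (Pf i j) := by
            rw [Finset.mul_sum]
            refine Finset.sum_congr rfl fun i _ => by ring
        _ = 0 := by rw [h3, mul_zero]
    have h2 : L * ∑ i, MvPolynomial.map (algebraMap F Ω) (R i) * MvPolynomial.C (a i : Ω) = 0 := by
      have h3 : ∑ j, MvPolynomial.map (algebraMap F Ω) (∑ i, R i * Pf i j) * MvPolynomial.C (b j : Ω) = 0 := by
        refine Finset.sum_eq_zero fun j _ => ?_
        rw [h1 j]
        simp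
      rw [← h3, Finset.mul_sum]
      simp only [map_sum, map_mul, Finset.sum_mul]
      rw [Finset.sum_comm]
      refine Finset.sum_congr rfl fun i _ => ?_
      calc L * (MvPolynomial.map (algebraMap F Ω) (R i) * MvPolynomial.C (a i : Ω))
          = MvPolynomial.map (algebraMap F Ω) (R i) * (L * MvPolynomial.C (a i : Ω)) := by ring
        _ = MvPolynomial.map (algebraMap F Ω) (R i) *
            ∑ j, MvPolynomial.map (algebraMap F Ω) (Pf i j) * MvPolynomial.C (b j : Ω) := by rw [hPsum]
        _ = _ := by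
            rw [Finset.mul_sum]
            refine Finset.sum_congr rfl fun j _ => by ring
    have h3 : ∑ i, MvPolynomial.map (algebraMap F Ω) (R i) * MvPolynomial.C (a i : Ω) = 0 :=
      (mul_eq_zero.1 h2).resolve_left hL0
    have h4 : ∀ i, R i = 0 := by
      have h5 : ∀ e i, (R i).coeff e = 0 := by
        intro e
        have h6 := congrArg (MvPolynomial.coeff e) h3
        rw [MvPolynomial.coeff_sum] at h6
        have h0 : ∀ j, MvPolynomial.coeff e (MvPolynomial.map (algebraMap F Ω) (R j) * MvPolynomial.C (a j : Ω)) =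
            algebraMap F Ω ((R j).coeff e) * (a j : Ω) := by
          intro j
          rw [mul_comm, MvPolynomial.coeff_C_mul, MvPolynomial.coeff_map, mul_comm]
        simp only [h0, MvPolynomial.coeff_zero] at h6
        have h7 : ∑ i, (R i).coeff e • a i = 0 := by
          apply Subtype.ext
          simp only [AddSubmonoidClass.coe_finsetSum, Submodule.coe_smul, Algebra.smul_def, ZeroMemClass.coe_zero]
          exact h6
        exact (Fintype.linearIndependent_iff.1 a.linearIndependent _ h7)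
      intro i
      ext e
      simpa using h5 e i
    intro i
    have h5 := hR i (Finset.mem_univ i)
    rw [h4 i, map_zero] at h5
    have h6 : (g i : Ω) = 0 := (mul_eq_zero.1 h5).resolve_right hq
    exact Subtype.ext h6
  -- the linear map
  set Ψ : (Fin H → M) →ₗ[M] Ω := Fintype.linearCombination M (fun j => (b j : Ω)) with hΨ
  have hΨv : ∀ i, Ψ (v i) = 0 := by
    intro i
    rw [hΨ, Fintype.linearCombination_apply]
    simp only [hv]
    rw [← hPu i]
    refine Finset.sum_congr rfl fun j _ => ?_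
    rw [Algebra.smul_def]
    rfl
  have hker : H₁ ≤ Module.finrank M (LinearMap.ker Ψ) := by
    have h1 : Submodule.span M (Set.range v) ≤ LinearMap.ker Ψ := by
      rw [Submodule.span_le]
      rintro _ ⟨i, rfl⟩
      exact LinearMap.mem_ker.2 (hΨv i)
    have h2 := finrank_span_eq_card hvli
    rw [Fintype.card_fin] at h2
    rw [← h2]
    exact Submodule.finrank_mono h1
  have hrk := LinearMap.finrank_range_add_finrank_ker Ψ
  rw [Module.finrank_fin_fun] at hrk
  -- elements of the range
  have hrange : ∀ x ∈ VV F c (δ + 1), x ∈ LinearMap.range Ψ := by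
    intro x hx
    refine ⟨fun j => algebraMap F M (b.repr ⟨x, hx⟩ j), ?_⟩
    rw [hΨ, Fintype.linearCombination_apply]
    have h1 := congrArg Subtype.val (b.sum_repr ⟨x, hx⟩)
    simp only [AddSubmonoidClass.coe_finsetSum, Submodule.coe_smul] at h1
    refine Eq.trans ?_ h1
    refine Finset.sum_congr rfl fun j _ => ?_
    rw [algebraMap_smul]
  set W : Set Ω := cm c '' {μ | ∑ i, μ i = δ + 1} with hW
  obtain ⟨B, hBW, hBspan, hBli⟩ := exists_linearIndependent M W
  have hBfin : B.Finite := ((fin_deg (ι := ι) (δ + 1)).image (cm c)).subset hBW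
  have hch : ∀ x ∈ B, ∃ μ : ι → ℕ, ∑ i, μ i = δ + 1 ∧ cm c μ = x := fun x hx => hBW hx
  choose! ch hch1 hch2 using hch
  refine ⟨hBfin.toFinset.image ch, ?_, ?_, ?_⟩
  · intro ν hν
    rw [Finset.mem_image] at hν
    obtain ⟨x, hx, rfl⟩ := hν
    exact hch1 x (hBfin.mem_toFinset.1 hx)
  · have h1 : (hBfin.toFinset.image ch).card ≤ hBfin.toFinset.card := Finset.card_image_le
    have : Fintype B := hBfin.fintype
    have h2 : hBfin.toFinset.card = Fintype.card B := by
      rw [Set.Finite.card_toFinset]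
    have h3 : Fintype.card B ≤ Module.finrank M (LinearMap.range Ψ) := by
      rw [← finrank_span_eq_card hBli]
      refine Submodule.finrank_mono ?_
      rw [Submodule.span_le]
      rintro _ ⟨⟨x, hx⟩, rfl⟩
      exact hrange _ (Submodule.subset_span (hBW hx))
    omega
  · intro μ hμ
    have h1 : cm c μ ∈ Submodule.span M B := by
      rw [hBspan]
      exact Submodule.subset_span ⟨μ, hμ, rfl⟩
    refine Submodule.span_mono ?_ h1
    intro x hx
    refine ⟨ch x, ?_, hch2 x hx⟩
    rw [Finset.mem_coe]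
    exact Finset.mem_image_of_mem _ (hBfin.mem_toFinset.2 hx)

end

/-- growth -/
theorem growth (H : ℕ → ℕ) (hH0 : 1 ≤ H 0) (M : ℕ) (hM : ∀ δ, H δ ≤ (δ + 1) ^ M) (R : ℕ) :
    ∃ δ, R * H (δ + 1) ≤ H (δ + 1) + R * H δ := by
  by_contra hcon
  push Not at hcon
  rcases Nat.lt_or_ge R 2 with hR | hR
  · have h1 := hcon 0
    interval_cases R <;> omega
  -- exponential growth
  have hRR : (0 : ℝ) < R - 1 := by
    have : (2 : ℝ) ≤ R := by exact_mod_cast hR
    linarith
  have hgrow : ∀ δ, ((R : ℝ) / (R - 1)) ^ δ ≤ H δ := by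
    intro δ
    induction δ with
    | zero => simpa using hH0
    | succ δ ih =>
      have h1 := hcon δ
      have h2 : (H (δ + 1) : ℝ) + R * H δ < R * H (δ + 1) := by exact_mod_cast h1
      have h3 : (R : ℝ) / (R - 1) * H δ ≤ H (δ + 1) := by
        rw [div_mul_eq_mul_div, div_le_iff₀ hRR]
        nlinarith
      calc ((R : ℝ) / (R - 1)) ^ (δ + 1) = (R : ℝ) / (R - 1) * ((R : ℝ) / (R - 1)) ^ δ := by ring
        _ ≤ (R : ℝ) / (R - 1) * H δ := mul_le_mul_of_nonneg_left ih (by positivity)
        _ ≤ H (δ + 1) := h3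
  set q : ℝ := (R : ℝ) / (R - 1) with hq
  have hq1 : 1 < q := by
    rw [hq, lt_div_iff₀ hRR]
    linarith
  have htend := tendsto_pow_const_div_const_pow_of_one_lt M hq1
  have hev := htend.eventually (gt_mem_nhds (show (0 : ℝ) < 1 / 2 ^ (M + 1) / q by positivity))
  obtain ⟨n, hn1, hn⟩ := ((Filter.eventually_ge_atTop 1).and hev).exists
  -- n^M / q^n < 1/(2^(M+1) q); take δ = n: (n+1)^M ≤ (2n)^M
  have h1 : (q : ℝ) ^ n ≤ ((n : ℝ) + 1) ^ M := by
    refine (hgrow n).trans ?_
    exact_mod_cast hM n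
  have h2 : ((n : ℝ) + 1) ^ M ≤ (2 * n) ^ M := by
    refine pow_le_pow_left₀ (by positivity) ?_ _
    have : (1 : ℝ) ≤ n := by exact_mod_cast hn1
    linarith
  have h3 : (n : ℝ) ^ M < 1 / 2 ^ (M + 1) / q * q ^ n := by
    rwa [div_lt_iff₀ (by positivity)] at hn
  have h4 : (1 : ℝ) / 2 ^ (M + 1) / q ≤ 1 / 2 ^ (M + 1) := div_le_self (by positivity) hq1.le
  have h5 : q ^ n ≤ 2 ^ M * (1 / 2 ^ (M + 1) * q ^ n) := by
    calc q ^ n ≤ (2 * n) ^ M := h1.trans h2
      _ = 2 ^ M * (n : ℝ) ^ M := by rw [mul_pow]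
      _ ≤ 2 ^ M * (1 / 2 ^ (M + 1) * q ^ n) := by
          refine mul_le_mul_of_nonneg_left (h3.le.trans ?_) (by positivity)
          exact mul_le_mul_of_nonneg_right h4 (by positivity)
  have h6 : (2 : ℝ) ^ M * (1 / 2 ^ (M + 1) * q ^ n) = q ^ n / 2 := by
    rw [pow_succ]
    field_simp
  have h7 : 0 < q ^ n := by positivity
  linarith

end Pool.Agent.Y120
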