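import Pool.Agent.Y120.Star

/-!
# The relation over the field generated by the point and the functions
-/

set_option autoImplicit false

open Finset

namespace Pool.Agent.Y120

variable {K Ω σ ι : Type} [Field K] [Field Ω] [Algebra K Ω] [Fintype ι]

theorem star (y : Option σ → Ω) (hy : AlgebraicIndependent K y) (c : ι → Ω)
    (L : MvPolynomial σ Ω) (hL0 : L ≠ 0) (hLu : MvPolynomial.eval (fun i => y (some i)) L = 0)
    (hLc : ∀ e, L.coeff e ∈ Submodule.span K (Set.range c)) (R : ℕ) :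
    ∃ (δ : ℕ) (𝒮 𝒮₂ : Finset (ι → ℕ)), (∀ ν ∈ 𝒮, ∑ i, ν i = δ + 1) ∧ (∀ ν ∈ 𝒮₂, ∑ i, ν i = δ + 1) ∧
      R * 𝒮₂.card ≤ 𝒮.card ∧ 0 < 𝒮₂.card ∧
      (∀ D : ℕ, LinearIndependent K (fun p : Fin D × 𝒮 => y none ^ (p.1 : ℕ) * cm c (p.2 : ι → ℕ))) ∧
      ∃ q : MvPolynomial (Option σ) K, MvPolynomial.aeval y q ≠ 0 ∧
        ∃ r : (ι → ℕ) → (ι → ℕ) → MvPolynomial (Option σ) K, ∀ μ ∈ 𝒮,
          MvPolynomial.aeval y q * cm c μ = ∑ ν ∈ 𝒮₂, MvPolynomial.aeval y (r μ ν) * cm c ν := by
  classical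
  set F := IntermediateField.adjoin K {y none} with hF
  set u : σ → Ω := fun i => y (some i) with hu
  have huF : AlgebraicIndependent F u := by
    rw [hF, IntermediateField.algebraicIndependent_adjoin_iff]
    have h1 := (AlgebraicIndependent.iff_adjoin_image {(none : Option σ)}).1 hy
    have h2 := h1.2
    rw [Set.image_singleton] at h2
    exact h2.comp (fun i : σ => (⟨some i, by simp⟩ : (({none} : Set (Option σ))ᶜ : Set (Option σ))))
      (fun i j hij => by simpa using congrArg Subtype.val hij)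
  have hLcF : ∀ e, L.coeff e ∈ Submodule.span F (Set.range c) := fun e =>
    Submodule.span_le_restrictScalars K F (Set.range c) (hLc e)
  obtain ⟨δ, hδ⟩ := growth (fun δ => Module.finrank F (VV F c δ)) (VV_zero c) _ (VV_card c) R
  obtain ⟨𝒮₂, h𝒮₂, hcard, hspan⟩ := star_rank (F := F) u huF c L hL0 hLu hLcF δ
  -- the basis
  set W : Set Ω := cm c '' {μ | ∑ i, μ i = δ + 1} with hW
  obtain ⟨B, hBW, hBspan, hBli⟩ := exists_linearIndependent F W
  have hBfin : B.Finite := ((fin_deg (ι := ι) (δ + 1)).image (cm c)).subset hBW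
  have hch : ∀ x ∈ B, ∃ μ : ι → ℕ, ∑ i, μ i = δ + 1 ∧ cm c μ = x := fun x hx => hBW hx
  choose! ch hch1 hch2 using hch
  have : Fintype B := hBfin.fintype
  have hinj : Set.InjOn ch B := by
    intro x hx x' hx' h
    rw [← hch2 x hx, ← hch2 x' hx', h]
  set 𝒮 := hBfin.toFinset.image ch with h𝒮
  have h𝒮card : 𝒮.card = Module.finrank F (VV F c (δ + 1)) := by
    rw [h𝒮, Finset.card_image_of_injOn (by
      intro x hx x' hx' h
      exact hinj (by simpa using hx) (by simpa using hx') h)]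
    have h2 : hBfin.toFinset.card = Fintype.card B := by rw [Set.Finite.card_toFinset]
    rw [h2, ← finrank_span_eq_card hBli, Subtype.range_coe, hBspan]
    rfl
  -- linear independence of the monomials of 𝒮 over F
  have h𝒮li : LinearIndependent F (fun μ : 𝒮 => cm c (μ : ι → ℕ)) := by
    have hm : ∀ μ : 𝒮, cm c (μ : ι → ℕ) ∈ B := by
      intro μ
      obtain ⟨x, hx, hxμ⟩ := Finset.mem_image.1 μ.2
      rw [← hxμ, hch2 x (hBfin.mem_toFinset.1 hx)]
      exact hBfin.mem_toFinset.1 hx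
    have hci : Function.Injective (fun μ : 𝒮 => (⟨cm c (μ : ι → ℕ), hm μ⟩ : B)) := by
      intro μ μ' h
      have h1 : cm c (μ : ι → ℕ) = cm c (μ' : ι → ℕ) := congrArg Subtype.val h
      obtain ⟨x, hx, hxμ⟩ := Finset.mem_image.1 μ.2
      obtain ⟨x', hx', hxμ'⟩ := Finset.mem_image.1 μ'.2
      rw [← hxμ, hch2 x (hBfin.mem_toFinset.1 hx), ← hxμ', hch2 x' (hBfin.mem_toFinset.1 hx')] at h1
      apply Subtype.ext
      rw [← hxμ, ← hxμ', h1]
    exact hBli.comp _ hci
  refine ⟨δ, 𝒮, 𝒮₂, ?_, h𝒮₂, ?_, ?_, ?_, ?_⟩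
  · intro ν hν
    obtain ⟨x, hx, rfl⟩ := Finset.mem_image.1 hν
    exact hch1 x (hBfin.mem_toFinset.1 hx)
  · rw [h𝒮card]
    have h1 : R * 𝒮₂.card + R * Module.finrank F (VV F c δ) ≤ R * Module.finrank F (VV F c (δ + 1)) := by
      rw [← mul_add]
      exact Nat.mul_le_mul_left R hcard
    omega
  · rw [Finset.card_pos]
    by_contra hne
    rw [Finset.not_nonempty_iff_eq_empty] at hne
    rw [hne] at hspan
    have h1 : ∀ i, c i = 0 := by
      intro i
      have h2 := hspan (Pi.single i (δ + 1)) (by rw [Finset.sum_pi_single']; simp)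
      simp only [Finset.coe_empty, Set.image_empty, Submodule.span_empty, Submodule.mem_bot] at h2
      have h3 : cm c (Pi.single i (δ + 1)) = c i ^ (δ + 1) := by
        rw [cm, Finset.prod_eq_single i]
        · simp
        · intro j _ hj
          simp [hj]
        · simp
      rw [h3] at h2
      exact pow_eq_zero_iff (by omega) |>.1 h2
    apply hL0
    ext e
    have h2 := hLc e
    have h3 : Set.range c ⊆ {0} := by
      rintro _ ⟨i, rfl⟩
      exact h1 i
    have h4 : L.coeff e ∈ Submodule.span K ({0} : Set Ω) := Submodule.span_mono h3 h2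
    rw [Submodule.span_zero_singleton, Submodule.mem_bot] at h4
    simpa using h4
  · intro D
    rw [Fintype.linearIndependent_iff]
    intro g hg
    have htr : Transcendental K (y none) := hy.transcendental none
    have hFm : ∀ μ : 𝒮, (∑ i : Fin D, algebraMap K Ω (g (i, μ)) * y none ^ (i : ℕ)) ∈ F := by
      intro μ
      refine sum_mem fun i _ => mul_mem (IntermediateField.algebraMap_mem _ _) (pow_mem ?_ _)
      exact IntermediateField.subset_adjoin K _ (Set.mem_singleton _)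
    have h1 : ∑ μ : 𝒮, (⟨_, hFm μ⟩ : F) • cm c (μ : ι → ℕ) = 0 := by
      rw [← hg, Fintype.sum_prod_type_right]
      refine Finset.sum_congr rfl fun μ _ => ?_
      rw [Algebra.smul_def]
      change (∑ i : Fin D, algebraMap K Ω (g (i, μ)) * y none ^ (i : ℕ)) * _ = _
      rw [Finset.sum_mul]
      refine Finset.sum_congr rfl fun i _ => ?_
      rw [Algebra.smul_def]
      ring
    have h2 := Fintype.linearIndependent_iff.1 h𝒮li _ h1
    rintro ⟨i, μ⟩
    have h3 : ∑ i : Fin D, algebraMap K Ω (g (i, μ)) * y none ^ (i : ℕ) = 0 := congrArg Subtype.val (h2 μ)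
    set p : Polynomial K := ∑ i : Fin D, Polynomial.C (g (i, μ)) * Polynomial.X ^ (i : ℕ) with hp
    have h4 : Polynomial.aeval (y none) p = 0 := by
      rw [hp, map_sum, ← h3]
      refine Finset.sum_congr rfl fun i _ => ?_
      rw [map_mul, map_pow, Polynomial.aeval_C, Polynomial.aeval_X]
    have h5 : p = 0 := by
      by_contra hne
      exact htr ⟨p, hne, h4⟩
    have h6 : p.coeff (i : ℕ) = g (i, μ) := by
      rw [hp, Polynomial.finsetSum_coeff, Finset.sum_eq_single i]
      · simp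
      · intro j _ hj
        rw [Polynomial.coeff_C_mul, Polynomial.coeff_X_pow, if_neg, mul_zero]
        intro h
        exact hj (Fin.ext h.symm)
      · simp
    rw [← h6, h5, Polynomial.coeff_zero]
  · -- the relation
    have hrel : ∀ μ ∈ 𝒮, ∃ ρ : (ι → ℕ) → Ω, (∀ ν, ρ ν ∈ IntermediateField.adjoin K (Set.range y)) ∧
        cm c μ = ∑ ν ∈ 𝒮₂, ρ ν * cm c ν := by
      intro μ hμ
      obtain ⟨x, hx, hxμ⟩ := Finset.mem_image.1 hμ
      have h1 : ∑ i, μ i = δ + 1 := by
        rw [← hxμ]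
        exact hch1 x (hBfin.mem_toFinset.1 hx)
      have h2 := hspan μ h1
      obtain ⟨f, hf⟩ := Submodule.mem_span_image_finset_iff_exists_fun _ |>.1 h2
      refine ⟨fun ν => if h : ν ∈ 𝒮₂ then (f ⟨ν, h⟩ : Ω) else 0, fun ν => ?_, ?_⟩
      · beta_reduce
        split_ifs with hν
        swap
        · exact zero_mem _
        have h3' : (f ⟨ν, hν⟩ : Ω) ∈ (IntermediateField.adjoin F (Set.range u)).restrictScalars K := (f ⟨ν, hν⟩).2
        have h3 : (f ⟨ν, hν⟩ : Ω) ∈ IntermediateField.adjoin K ({y none} ∪ Set.range u) := by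
          rw [← IntermediateField.adjoin_adjoin_left]
          exact h3'
        refine IntermediateField.adjoin.mono K _ _ ?_ h3
        intro z hz
        rcases hz with hz | ⟨i, rfl⟩
        · exact ⟨none, hz.symm⟩
        · exact ⟨some i, rfl⟩
      · rw [← hf, ← Finset.sum_attach 𝒮₂]
        refine Finset.sum_congr rfl fun ν _ => ?_
        rw [Algebra.smul_def]
        beta_reduce
        rw [dif_pos ν.2]
        rfl
    choose! ρ hρ1 hρ2 using hrel
    obtain ⟨q, hq, R', hR'⟩ := common_denom (F := K) y (𝒮 ×ˢ 𝒮₂) (fun p : (ι → ℕ) × (ι → ℕ) => ρ p.1 p.2)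
      (fun p hp => hρ1 p.1 (Finset.mem_product.1 hp).1 p.2)
    refine ⟨q, hq, fun μ ν => R' (μ, ν), ?_⟩
    intro μ hμ
    conv_lhs => rw [hρ2 μ hμ]
    rw [Finset.mul_sum]
    refine Finset.sum_congr rfl fun ν hν => ?_
    rw [← hR' (μ, ν) (Finset.mem_product.2 ⟨hμ, hν⟩)]
    ring

end Pool.Agent.Y120
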